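import Pool.Agent.NE3.Stmts
import Pool.Agent.NEK.JTP

/-!
# Module CGP: `s_λ[1 + q + … + q^{m-1} + x + y]` is in the cone
-/

set_option autoImplicit false

namespace Pool.Agent.NE3

open MvPolynomial Finset Pool.Agent.NEK

namespace CGP

section generic

variable {R : Type} [CommRing R]

theorem hZ_add (hA : Stmt_HA) (hS : Stmt_HS) [Algebra ℚ R] (y : R) (P : ℕ → R) (m : ℤ) :
    hZ (fun k => y ^ (k + 1) + P k) m = hZ P m + y * hZ (fun k => y ^ (k + 1) + P k) (m - 1) := by
  have hsum : ∀ n, hN (fun k => y ^ (k + 1) + P k) n =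
      ∑ ij ∈ antidiagonal n, y ^ ij.1 * hN P ij.2 := by
    intro n
    rw [hA]
    refine Finset.sum_congr rfl fun ij _ => ?_
    rw [(hS R (fun _ => 0) y ij.1).2.1]
  unfold hZ
  by_cases hm : 0 ≤ m
  · obtain ⟨n, rfl⟩ := Int.eq_ofNat_of_zero_le hm
    rw [if_pos hm, if_pos hm]
    rcases n with _ | n
    · rw [if_neg (by norm_num), mul_zero, add_zero]
      simp [hN]
    · rw [if_pos (by push_cast; omega)]
      have e1 : ((n + 1 : ℕ) : ℤ).toNat = n + 1 := by simp
      have e2 : (((n + 1 : ℕ) : ℤ) - 1).toNat = n := by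
        push_cast
        omega
      rw [e1, e2, hsum, hsum, Finset.Nat.sum_antidiagonal_succ]
      simp only [pow_zero, one_mul, Finset.mul_sum]
      congr 1
      refine Finset.sum_congr rfl fun ij _ => ?_
      ring
  · rw [if_neg hm, if_neg hm, if_neg (by omega), mul_zero, add_zero]

theorem hZ_zero (hS : Stmt_HS) [Algebra ℚ R] (m : ℤ) :
    hZ (fun _ => (0 : R)) m = if m = 0 then 1 else 0 := by
  unfold hZ
  by_cases hm : 0 ≤ m
  · rw [if_pos hm, (hS R (fun _ => 0) 0 m.toNat).2.2.1]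
    by_cases hm' : m = 0
    · rw [if_pos hm', if_pos (by omega)]
    · rw [if_neg hm', if_neg (by omega)]
  · rw [if_neg hm, if_neg (by omega)]

/-- the power sums of `X, Y` -/
def P2 (X Y : R) (k : ℕ) : R := X ^ (k + 1) + Y ^ (k + 1)

theorem hZ_neg [Algebra ℚ R] (P : ℕ → R) (m : ℤ) (hm : m < 0) : hZ P m = 0 := by
  rw [hZ, if_neg (by omega)]

theorem hZ_nul [Algebra ℚ R] (P : ℕ → R) : hZ P 0 = 1 := by
  simp [hZ, hN]

theorem hZ_rec (hA : Stmt_HA) (hS : Stmt_HS) [Algebra ℚ R] (X Y : R) (m : ℤ) :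
    hZ (P2 X Y) m = (X + Y) * hZ (P2 X Y) (m - 1) - X * Y * hZ (P2 X Y) (m - 2) +
      if m = 0 then 1 else 0 := by
  have hY : ∀ m : ℤ, hZ (fun k => Y ^ (k + 1)) m = (if m = 0 then 1 else 0) +
      Y * hZ (fun k => Y ^ (k + 1)) (m - 1) := by
    intro m
    have h1 := hZ_add hA hS Y (fun _ => (0 : R)) m
    simp only [add_zero] at h1
    rw [h1, hZ_zero hS]
  have hX : ∀ m : ℤ, hZ (P2 X Y) m = hZ (fun k => Y ^ (k + 1)) m + X * hZ (P2 X Y) (m - 1) :=
    fun m => hZ_add hA hS X (fun k => Y ^ (k + 1)) m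
  have h1 := hX m
  have h2 := hX (m - 1)
  have h3 := hY m
  rw [show m - 1 - 1 = m - 2 by ring] at h2
  linear_combination h1 + h3 - Y * h2

theorem hZ_rec' (hA : Stmt_HA) (hS : Stmt_HS) [Algebra ℚ R] (X Y : R) (m : ℤ) (hm : m ≠ 0) :
    hZ (P2 X Y) m = (X + Y) * hZ (P2 X Y) (m - 1) - X * Y * hZ (P2 X Y) (m - 2) := by
  rw [hZ_rec hA hS, if_neg hm, add_zero]

theorem two (hA : Stmt_HA) (hS : Stmt_HS) [Algebra ℚ R] (X Y : R) (S : Subsemiring R)
    (hXY : X * Y ∈ S) (hH : ∀ m : ℤ, hZ (P2 X Y) m ∈ S) :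
    ∀ (n : ℕ) (u : ℤ), (n : ℤ) - 1 < u →
      hZ (P2 X Y) u * hZ (P2 X Y) n - hZ (P2 X Y) (u + 1) * hZ (P2 X Y) (n - 1) ∈ S := by
  intro n
  induction n with
  | zero =>
    intro u _
    rw [Nat.cast_zero, hZ_nul, hZ_neg _ (0 - 1) (by norm_num), mul_one, mul_zero, sub_zero]
    exact hH u
  | succ n ih =>
    intro u hu
    push_cast at hu
    have h1 := ih (u - 1) (by omega)
    have h2 := hZ_rec' hA hS X Y ((n + 1 : ℕ) : ℤ) (by push_cast; omega)
    have h3 := hZ_rec' hA hS X Y (u + 1) (by omega)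
    rw [show ((n + 1 : ℕ) : ℤ) - 1 = n by push_cast; ring,
      show ((n + 1 : ℕ) : ℤ) - 2 = n - 1 by push_cast; ring] at h2
    rw [show u + 1 - 1 = u by ring, show u + 1 - 2 = u - 1 by ring] at h3
    rw [show u - 1 + 1 = u by ring] at h1
    have h4 : hZ (P2 X Y) u * hZ (P2 X Y) ((n + 1 : ℕ) : ℤ) -
        hZ (P2 X Y) (u + 1) * hZ (P2 X Y) (((n + 1 : ℕ) : ℤ) - 1) =
        X * Y * (hZ (P2 X Y) (u - 1) * hZ (P2 X Y) n - hZ (P2 X Y) u * hZ (P2 X Y) (n - 1)) := by
      rw [show ((n + 1 : ℕ) : ℤ) - 1 = n by push_cast; ring]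
      linear_combination hZ (P2 X Y) u * h2 - hZ (P2 X Y) n * h3
    rw [h4]
    exact S.mul_mem hXY h1

theorem base (hA : Stmt_HA) (hS : Stmt_HS) [Algebra ℚ R] (X Y : R) (S : Subsemiring R)
    (hXY : X * Y ∈ S) (hH : ∀ m : ℤ, hZ (P2 X Y) m ∈ S) :
    ∀ (l : ℕ) (κ : Fin l → ℤ), StrictAnti κ →
      (Matrix.of fun i => JTP.rw' (P2 X Y) l (κ i)).det ∈ S := by
  intro l
  induction l with
  | zero =>
    intro κ _
    rw [Matrix.det_isEmpty]
    exact S.one_mem
  | succ l ih =>
    intro κ hκ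
    have hlast : ∀ i, κ (Fin.last l) ≤ κ i := fun i => hκ.antitone (Fin.le_last i)
    rcases lt_trichotomy (κ (Fin.last l)) (-(l + 1 : ℤ)) with h | h | h
    · rw [Matrix.det_eq_zero_of_row_eq_zero (Fin.last l)]
      · exact S.zero_mem
      · intro j
        have := j.isLt
        rw [Matrix.of_apply, JTP.rw', hZ_neg _ _ (by omega)]
    · rw [Matrix.det_succ_row _ (Fin.last l), Fin.sum_univ_castSucc, Finset.sum_eq_zero, zero_add]
      · have e1 : (Matrix.of fun i => JTP.rw' (P2 X Y) (l + 1) (κ i)) (Fin.last l) (Fin.last l) =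
            1 := by
          rw [Matrix.of_apply, JTP.rw', h, Fin.val_last]
          rw [show -(l + 1 : ℤ) + l + 1 = 0 by ring, hZ_nul]
        rw [e1, mul_one, ← two_mul, pow_mul]
        have e2 : ((-1 : R) ^ 2) = 1 := by ring
        rw [e2, one_pow, one_mul]
        have e3 : (Matrix.of fun i => JTP.rw' (P2 X Y) (l + 1) (κ i)).submatrix
            (Fin.last l).succAbove (Fin.last l).succAbove =
            Matrix.of fun i => JTP.rw' (P2 X Y) l (κ i.castSucc) := by
          ext i j
          rw [Matrix.submatrix_apply, Matrix.of_apply, Matrix.of_apply, JTP.rw', JTP.rw',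
            Fin.succAbove_last, Fin.val_castSucc]
        rw [e3]
        exact ih _ fun a b hab => hκ (Fin.castSucc_lt_castSucc_iff.2 hab)
      · intro j _
        have := j.isLt
        rw [Matrix.of_apply, JTP.rw', h, Fin.val_castSucc, hZ_neg _ _ (by omega)]
        ring
    · rcases Nat.lt_or_ge l 2 with hl | hl
      · obtain rfl | rfl : l = 0 ∨ l = 1 := by omega
        · rw [Matrix.det_fin_one]
          exact hH _
        · rw [Matrix.det_fin_two]
          simp only [Matrix.of_apply, JTP.rw', Fin.val_zero, Fin.val_one]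
          have h01 : κ 1 < κ 0 := hκ (by decide)
          have h1 : -1 ≤ κ 1 := by
            have e : (Fin.last 1) = 1 := rfl
            rw [e] at h
            push_cast at h
            omega
          have h2 := two hA hS X Y S hXY hH (κ 1 + 2).toNat (κ 0 + 1) (by omega)
          rw [Int.toNat_of_nonneg (by omega)] at h2
          have e1 : κ 0 + ((0 : ℕ) : ℤ) + 1 = κ 0 + 1 := by push_cast; ring
          have e2 : κ 1 + ((1 : ℕ) : ℤ) + 1 = κ 1 + 2 := by push_cast; ring
          have e3 : κ 0 + ((1 : ℕ) : ℤ) + 1 = κ 0 + 1 + 1 := by push_cast; ring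
          have e4 : κ 1 + ((0 : ℕ) : ℤ) + 1 = κ 1 + 2 - 1 := by push_cast; ring
          rw [e1, e2, e3, e4]
          exact h2
      · -- three or more rows: the determinant is zero
        obtain ⟨l, rfl⟩ : ∃ l', l = l' + 2 := ⟨l - 2, by omega⟩
        set M : Matrix (Fin (l + 3)) (Fin (l + 3)) R :=
          Matrix.of fun i => JTP.rw' (P2 X Y) (l + 3) (κ i) with hM
        set v : Fin (l + 3) → R := fun j =>
          if j = Fin.last (l + 2) then 1 else
            if j = (Fin.last (l + 1)).castSucc then -(X + Y) else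
              if j = (Fin.last l).castSucc.castSucc then X * Y else 0 with hv
        have hMv : M.mulVec v = 0 := by
          funext i
          rw [Matrix.mulVec, dotProduct, Fin.sum_univ_castSucc, Fin.sum_univ_castSucc,
            Fin.sum_univ_castSucc, Finset.sum_eq_zero]
          · have v1 : v (Fin.last (l + 2)) = 1 := by simp [hv]
            have v2 : v (Fin.last (l + 1)).castSucc = -(X + Y) := by
              simp [hv, Fin.ext_iff]
            have v3 : v (Fin.last l).castSucc.castSucc = X * Y := by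
              simp [hv, Fin.ext_iff]
            rw [v1, v2, v3]
            have hi := hlast i
            have h1 := hZ_rec' hA hS X Y (κ i + ((l + 2 : ℕ) : ℤ) + 1) (by push_cast at h ⊢; omega)
            simp only [hM, Matrix.of_apply, JTP.rw', Fin.val_last, Fin.val_castSucc, Pi.zero_apply]
            rw [show κ i + ((l + 2 : ℕ) : ℤ) + 1 - 1 = κ i + ((l + 1 : ℕ) : ℤ) + 1 by
              push_cast; ring, show κ i + ((l + 2 : ℕ) : ℤ) + 1 - 2 = κ i + (l : ℤ) + 1 by
              push_cast; ring] at h1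
            linear_combination h1
          · intro j _
            have := j.isLt
            have v4 : v j.castSucc.castSucc.castSucc = 0 := by
              have n1 : (j : ℕ) ≠ l + 2 := by omega
              have n2 : (j : ℕ) ≠ l + 1 := by omega
              have n3 : (j : ℕ) ≠ l := by omega
              simp [hv, Fin.ext_iff, n1, n2, n3]
            rw [v4, mul_zero]
        have h5 : M.det = 0 := by
          have h6 : (M.adjugate * M).mulVec v = 0 := by
            rw [← Matrix.mulVec_mulVec, hMv, Matrix.mulVec_zero]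
          rw [Matrix.adjugate_mul, Matrix.smul_mulVec, Matrix.one_mulVec] at h6
          have h7 := congrFun h6 (Fin.last (l + 2))
          have v1 : v (Fin.last (l + 2)) = 1 := by simp [hv]
          rw [Pi.smul_apply, v1, smul_eq_mul, mul_one] at h7
          exact h7
        rw [h5]
        exact S.zero_mem

/-- the power sums of a list and of `X, Y` -/
def pw' (X Y : R) (xs : List R) (k : ℕ) : R := (xs.map fun x => x ^ (k + 1)).sum + P2 X Y k

theorem all (hA : Stmt_HA) (hS : Stmt_HS) [Algebra ℚ R] (X Y : R) (S : Subsemiring R)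
    (hXY : X * Y ∈ S) (hH : ∀ m : ℤ, hZ (P2 X Y) m ∈ S) (l : ℕ)
    (xs : List R) (hxs : ∀ x ∈ xs, x ∈ S) :
    ∀ κ : Fin l → ℤ, StrictAnti κ → (Matrix.of fun i => JTP.rw' (pw' X Y xs) l (κ i)).det ∈ S := by
  induction xs with
  | nil =>
    intro κ hκ
    have e : pw' X Y [] = P2 X Y := by
      funext k
      simp [pw']
    rw [e]
    exact base hA hS X Y S hXY hH l κ hκ
  | cons y xs ih =>
    have ih' := ih fun x hx => hxs x (List.mem_cons_of_mem _ hx)
    have hcons : ∀ m : ℤ, hZ (pw' X Y (y :: xs)) m =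
        hZ (pw' X Y xs) m + y * hZ (pw' X Y (y :: xs)) (m - 1) := by
      intro m
      have e : pw' X Y (y :: xs) = fun k => y ^ (k + 1) + pw' X Y xs k := by
        funext k
        simp [pw', add_assoc]
      rw [e]
      exact hZ_add hA hS y (pw' X Y xs) m
    intro κ hκ
    have h1 := JTP.main (V := JTP.rw' (pw' X Y xs) l) (O := JTP.rw' (pw' X Y (y :: xs)) l)
      (y := y) S (hxs y List.mem_cons_self) (by
        intro k
        funext j
        rw [Pi.add_apply, Pi.smul_apply, smul_eq_mul, JTP.rw', JTP.rw', JTP.rw', hcons]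
        congr 3
        ring) (L := -l - 1) (by
        intro k hk
        funext j
        have := j.isLt
        rw [JTP.rw', hZ, if_neg (by omega)]
        rfl) (by
        intro κ hκ
        have e : JTP.MM (JTP.rw' (pw' X Y xs) l) (JTP.rw' (pw' X Y (y :: xs)) l) l κ =
            Matrix.of fun i => JTP.rw' (pw' X Y xs) l (κ i) := by
          ext i j
          rw [JTP.MM_row, if_pos i.isLt]
          rfl
        rw [e]
        exact ih' κ hκ) l le_rfl κ hκ
    have e : JTP.MM (JTP.rw' (pw' X Y xs) l) (JTP.rw' (pw' X Y (y :: xs)) l) (l - l) κ =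
        Matrix.of fun i => JTP.rw' (pw' X Y (y :: xs)) l (κ i) := by
      ext i j
      rw [JTP.MM_row, if_neg (by omega)]
      rfl
    rwa [e] at h1

end generic

/-- the cone as a subsemiring -/
noncomputable def SC (hC : Stmt_CMU) : Subsemiring (K → K → K) :=
  { Cn with
    mul_mem' := fun {F G} hF hG => hC.1 F hF G hG
    one_mem' := hC.2.1 1 NN.one_mem }

theorem mem_SC (hC : Stmt_CMU) (F : K → K → K) : F ∈ SC hC ↔ F ∈ Cn := Iff.rfl

theorem G1_mem (r : ℕ) : (fun x y => G1 (r + 1) x y) ∈ Cn := by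
  refine AddSubmonoid.subset_closure ⟨1, NN.one_mem, 0, r, ?_⟩
  funext x y
  simp

theorem hN_P2 (hA : Stmt_HA) (hS : Stmt_HS) (n : ℕ) :
    hN (P2 (fun x _ => x : K → K → K) (fun _ y => y)) n = fun x y => G1 (n + 1) x y := by
  have h1 : hN (P2 (fun x _ => x : K → K → K) (fun _ y => y)) n =
      ∑ ij ∈ antidiagonal n, (fun x _ => x : K → K → K) ^ ij.1 *
        (fun _ y => y : K → K → K) ^ ij.2 := by
    rw [show P2 (fun x _ => x : K → K → K) (fun _ y => y) = fun k =>
      (fun x _ => x : K → K → K) ^ (k + 1) + (fun _ y => y : K → K → K) ^ (k + 1) from rfl, hA]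
    refine Finset.sum_congr rfl fun ij _ => ?_
    rw [(hS _ (fun _ => 0) _ ij.1).2.1, (hS _ (fun _ => 0) _ ij.2).2.1]
  rw [h1, Finset.Nat.sum_antidiagonal_eq_sum_range_succ_mk]
  funext x y
  rw [Finset.sum_apply, Finset.sum_apply, G1]
  refine Finset.sum_congr rfl fun i _ => ?_
  simp only [Pi.mul_apply, Pi.pow_apply]
  rfl

end CGP

open CGP

theorem t_CGP : Stmt_HM → Stmt_HA → Stmt_HS → Stmt_CMU → Stmt_CGP := by
  intro hM hA hS hC m l hl
  set X : K → K → K := fun x _ => x with hX
  set Y : K → K → K := fun _ y => y with hY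
  set xs : List (K → K → K) := (List.range m).map fun j => fun _ _ => q ^ j with hxs
  have hH : ∀ m : ℤ, hZ (P2 X Y) m ∈ SC hC := by
    intro m
    by_cases hm : 0 ≤ m
    · rw [hZ, if_pos hm, hN_P2 hA hS]
      exact G1_mem _
    · rw [hZ_neg _ _ (by omega)]
      exact (SC hC).zero_mem
  have hxs' : ∀ x ∈ xs, x ∈ SC hC := by
    intro x hx
    rw [hxs, List.mem_map] at hx
    obtain ⟨j, -, rfl⟩ := hx
    exact hC.2.1 _ (NN.pow_mem (Subsemiring.subset_closure (Or.inl rfl)) j)
  have hanti : StrictAnti fun i : Fin l.length => (l.get i : ℤ) - (i : ℤ) - 1 := by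
    intro a b hab
    have h1 : l.get b ≤ l.get a := (List.pairwise_iff_get.1 hl) a b hab
    rw [Fin.lt_def] at hab
    simp only
    omega
  have h1 := CGP.all hA hS X Y (SC hC) hC.2.2.2 hH l.length xs hxs' _ hanti
  have e : sN (pw' X Y xs) l =
      (Matrix.of fun i : Fin l.length => JTP.rw' (pw' X Y xs) l.length
        ((l.get i : ℤ) - (i : ℤ) - 1)).det := by
    unfold sN
    congr 1
    ext1 i j
    rw [Matrix.of_apply, Matrix.of_apply, JTP.rw']
    congr 1
    ring
  rw [← e] at h1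
  have h2 : (fun x y : K => sN (fun k => (∑ j ∈ range m, (q ^ j) ^ (k + 1)) +
      (x ^ (k + 1) + y ^ (k + 1))) l) = sN (pw' X Y xs) l := by
    funext x y
    have h3 := (hM (K → K → K) K ((Pi.evalRingHom (fun _ : K => K) y).comp
      (Pi.evalRingHom (fun _ : K => K → K) x)) (pw' X Y xs)).2.2 l
    have h4 : ((Pi.evalRingHom (fun _ : K => K) y).comp
      (Pi.evalRingHom (fun _ : K => K → K) x)) (sN (pw' X Y xs) l) = sN (pw' X Y xs) l x y := rfl
    rw [← h4, h3]
    congr 1
    funext k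
    have h5 : ((Pi.evalRingHom (fun _ : K => K) y).comp
        (Pi.evalRingHom (fun _ : K => K → K) x)) (pw' X Y xs k) =
        (xs.map fun z => (z x y) ^ (k + 1)).sum + (x ^ (k + 1) + y ^ (k + 1)) := by
      rw [pw', map_add, map_list_sum, List.map_map]
      rfl
    rw [h5, hxs, List.map_map]
    congr 1
  rw [h2]
  exact h1

end Pool.Agent.NE3
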