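import Pool.Agent.NE3.Stmts

/-! # Module CMU: the cone is closed under products -/

set_option autoImplicit false

namespace Pool.Agent.NE3

open MvPolynomial Finset Pool.Agent.NEK

namespace CMU

lemma G1_zero (x y : K) : G1 0 x y = 0 := by simp [G1]

lemma G1_one (x y : K) : G1 1 x y = 1 := by simp [G1]

lemma G1_split (r s : ℕ) (x y : K) :
    x ^ r * G1 (s + 1) x y + y ^ (s + 1) * G1 r x y = G1 (r + s + 1) x y := by
  unfold G1
  rw [add_assoc r s 1, Finset.sum_range_add _ r (s + 1), Finset.mul_sum, Finset.mul_sum,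
    add_comm]
  congr 1
  · refine Finset.sum_congr rfl fun i hi => ?_
    have hi' := Finset.mem_range.1 hi
    have h : r + (s + 1) - 1 - i = (s + 1) + (r - 1 - i) := by omega
    rw [h, pow_add]
    ring
  · refine Finset.sum_congr rfl fun i hi => ?_
    have hi' := Finset.mem_range.1 hi
    have h : r + (s + 1) - 1 - (r + i) = s + 1 - 1 - i := by omega
    rw [h, pow_add]
    ring

lemma G1_succ (r : ℕ) (x y : K) : G1 (r + 1) x y = x ^ r + y * G1 r x y := by
  have h := G1_split r 0 x y
  simp only [zero_add, G1_one, add_zero, pow_one, mul_one] at h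
  exact h.symm

lemma G1_succ' (r : ℕ) (x y : K) : G1 (r + 1) x y = y ^ r + x * G1 r x y := by
  cases r with
  | zero => simp [G1_one, G1_zero]
  | succ s =>
    have h := G1_split 1 s x y
    rw [G1_one, pow_one, mul_one, add_comm 1 s] at h
    rw [← h, add_comm]

lemma G1_mul (r s : ℕ) (x y : K) :
    G1 (r + 1) x y * G1 (s + 1) x y = G1 (r + s + 1) x y + x * y * (G1 r x y * G1 s x y) := by
  calc G1 (r + 1) x y * G1 (s + 1) x y
      = x ^ r * G1 (s + 1) x y + y * G1 r x y * G1 (s + 1) x y := by
        rw [G1_succ r]; ring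
    _ = x ^ r * G1 (s + 1) x y + y * G1 r x y * (y ^ s + x * G1 s x y) := by
        rw [← G1_succ' s]
    _ = (x ^ r * G1 (s + 1) x y + y ^ (s + 1) * G1 r x y) +
          x * y * (G1 r x y * G1 s x y) := by ring
    _ = G1 (r + s + 1) x y + x * y * (G1 r x y * G1 s x y) := by rw [G1_split]

lemma gen_mem (c : K) (hc : c ∈ NN) (β r : ℕ) :
    (fun x y : K => c * ((x * y) ^ β * G1 (r + 1) x y)) ∈ Cn :=
  AddSubmonoid.subset_closure ⟨c, hc, β, r, rfl⟩

lemma gen_mul (r : ℕ) : ∀ (s β : ℕ) (c : K), c ∈ NN →
    (fun x y : K => c * ((x * y) ^ β * (G1 (r + 1) x y * G1 (s + 1) x y))) ∈ Cn := by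
  induction r with
  | zero =>
    intro s β c hc
    have h : (fun x y : K => c * ((x * y) ^ β * (G1 (0 + 1) x y * G1 (s + 1) x y))) =
        fun x y : K => c * ((x * y) ^ β * G1 (s + 1) x y) := by
      funext x y
      rw [zero_add, G1_one, one_mul]
    rw [h]
    exact gen_mem c hc β s
  | succ r ih =>
    intro s β c hc
    cases s with
    | zero =>
      have h : (fun x y : K => c * ((x * y) ^ β * (G1 (r + 1 + 1) x y * G1 (0 + 1) x y))) =
          fun x y : K => c * ((x * y) ^ β * G1 (r + 1 + 1) x y) := by
        funext x y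
        rw [zero_add, G1_one, mul_one]
      rw [h]
      exact gen_mem c hc β (r + 1)
    | succ s =>
      have h : (fun x y : K => c * ((x * y) ^ β *
          (G1 (r + 1 + 1) x y * G1 (s + 1 + 1) x y))) =
          (fun x y : K => c * ((x * y) ^ β * G1 (r + 1 + (s + 1) + 1) x y)) +
          fun x y : K => c * ((x * y) ^ (β + 1) * (G1 (r + 1) x y * G1 (s + 1) x y)) := by
        funext x y
        show c * ((x * y) ^ β * (G1 (r + 1 + 1) x y * G1 (s + 1 + 1) x y)) =
          c * ((x * y) ^ β * G1 (r + 1 + (s + 1) + 1) x y) +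
          c * ((x * y) ^ (β + 1) * (G1 (r + 1) x y * G1 (s + 1) x y))
        rw [G1_mul (r + 1) (s + 1)]
        ring
      rw [h]
      exact add_mem (gen_mem c hc β _) (ih s (β + 1) c hc)

lemma mul_mem_cone (F : K → K → K) (hF : F ∈ Cn) (G : K → K → K) (hG : G ∈ Cn) :
    (fun x y => F x y * G x y) ∈ Cn := by
  unfold Cn at hF
  induction hF using AddSubmonoid.closure_induction with
  | mem F hF =>
    obtain ⟨c, hc, β, r, rfl⟩ := hF
    unfold Cn at hG
    induction hG using AddSubmonoid.closure_induction with
    | mem G hG =>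
      obtain ⟨d, hd, γ, s, rfl⟩ := hG
      have h : (fun x y : K => (fun x y : K => c * ((x * y) ^ β * G1 (r + 1) x y)) x y *
          (fun x y : K => d * ((x * y) ^ γ * G1 (s + 1) x y)) x y) =
          fun x y : K => (c * d) * ((x * y) ^ (β + γ) *
            (G1 (r + 1) x y * G1 (s + 1) x y)) := by
        funext x y
        ring
      rw [h]
      exact gen_mul r s (β + γ) (c * d) (mul_mem hc hd)
    | zero =>
      have h : (fun x y : K => (fun x y : K => c * ((x * y) ^ β * G1 (r + 1) x y)) x y *
          (0 : K → K → K) x y) = 0 := by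
        funext x y
        simp
      rw [h]
      exact zero_mem _
    | add G G' _ _ h1 h2 =>
      have h : (fun x y : K => (fun x y : K => c * ((x * y) ^ β * G1 (r + 1) x y)) x y *
          (G + G') x y) =
          (fun x y : K => (fun x y : K => c * ((x * y) ^ β * G1 (r + 1) x y)) x y * G x y) +
          fun x y : K => (fun x y : K => c * ((x * y) ^ β * G1 (r + 1) x y)) x y *
            G' x y := by
        funext x y
        exact mul_add _ _ _
      rw [h]
      exact add_mem h1 h2
  | zero =>
    have h : (fun x y : K => (0 : K → K → K) x y * G x y) = 0 := by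
      funext x y
      simp
    rw [h]
    exact zero_mem _
  | add F F' _ _ h1 h2 =>
    have h : (fun x y : K => (F + F') x y * G x y) =
        (fun x y : K => F x y * G x y) + fun x y : K => F' x y * G x y := by
      funext x y
      exact add_mul _ _ _
    rw [h]
    exact add_mem h1 h2

end CMU

open CMU in
theorem t_CMU : Stmt_CMU := by
  refine ⟨fun F hF G hG => mul_mem_cone F hF G hG, ?_, ?_, ?_⟩
  · intro c hc
    have h : (fun _ _ : K => c) = fun x y : K => c * ((x * y) ^ 0 * G1 (0 + 1) x y) := by
      funext x y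
      rw [zero_add, G1_one]
      ring
    rw [h]
    exact gen_mem c hc 0 0
  · have h : (fun x y : K => x + y) = fun x y : K => 1 * ((x * y) ^ 0 * G1 (1 + 1) x y) := by
      funext x y
      rw [G1_succ 1, G1_one]
      ring
    rw [h]
    exact gen_mem 1 (one_mem _) 0 1
  · have h : (fun x y : K => x * y) = fun x y : K => 1 * ((x * y) ^ 1 * G1 (0 + 1) x y) := by
      funext x y
      rw [zero_add, G1_one]
      ring
    rw [h]
    exact gen_mem 1 (one_mem _) 1 0

end Pool.Agent.NE3
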