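import Pool.Agent.NE3.Stmts
import Pool.Agent.NEK.FIN

/-!
# `T_μ` and `B_μ` for the four shapes (module N3_EIG)
-/

set_option autoImplicit false

namespace Pool.Agent.NE3

open MvPolynomial Finset Pool.Agent.NEK

namespace EIG

lemma choose_two_one (m : ℕ) : (m + 1).choose 2 = m.choose 2 + m := by
  rw [Nat.choose_succ_succ' m 1, Nat.choose_one_right, add_comm]

lemma choose_two_shift (m : ℕ) : (m + 2).choose 2 = m.choose 2 + (2 * m + 1) := by
  rw [choose_two_one (m + 1), choose_two_one m]
  omega

lemma sum_id (m : ℕ) : ∑ i ∈ range m, i = m.choose 2 := by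
  rw [Finset.sum_range_id, Nat.choose_two_right]

lemma Tm_211 (m : ℕ) : Tm [m, 1, 1] = t ^ 3 * q ^ m.choose 2 := by
  unfold Tm
  have h1 : nn [m, 1, 1] = 3 := by simp [nn, Fin.sum_univ_succ]
  have h2 : nn (conj [m, 1, 1]) = m.choose 2 := by
    unfold conj
    rw [FINaux.nn_map_range]
    simp only [List.headD_cons]
    rw [← sum_id]
    refine Finset.sum_congr rfl fun i hi => ?_
    have h3 : i < m := Finset.mem_range.1 hi
    rcases Nat.eq_zero_or_pos i with h0 | h0
    · simp [h0]
    · have h4 : ¬ i < 1 := by omega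
      simp [h3, h4]
  rw [h1, h2]

lemma Tm_22 (m : ℕ) (hm : 2 ≤ m) : Tm [m, 2] = t ^ 2 * q ^ (m.choose 2 + 1) := by
  unfold Tm
  have h1 : nn [m, 2] = 2 := by simp [nn, Fin.sum_univ_succ]
  have h2 : nn (conj [m, 2]) = m.choose 2 + 1 := by
    unfold conj
    rw [FINaux.nn_map_range]
    simp only [List.headD_cons]
    rw [← sum_id]
    obtain ⟨k, rfl⟩ : ∃ k, m = 2 + k := ⟨m - 2, by omega⟩
    rw [Finset.sum_range_add, Finset.sum_range_add]
    have h5 : ∑ x ∈ range 2, x * (List.filter (fun a => decide (x < a)) [2 + k, 2]).length = 2 := by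
      rw [Finset.sum_range_succ, Finset.sum_range_one]
      have h8 : 1 < 2 + k := by omega
      simp [h8]
    have h6 : ∑ x ∈ range 2, x = 1 := by decide
    have h7 : ∑ x ∈ range k, (2 + x) *
        (List.filter (fun a => decide (2 + x < a)) [2 + k, 2]).length = ∑ x ∈ range k, (2 + x) := by
      refine Finset.sum_congr rfl fun i hi => ?_
      have h3 : i < k := Finset.mem_range.1 hi
      have h4 : ¬ (2 + i < 2) := by omega
      simp [h3]
    rw [h5, h6, h7]
    omega
  rw [h1, h2]

end EIG

open EIG

theorem t_EIG : Stmt_EIG := by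
  refine ⟨?_, ?_, ?_⟩
  · intro n hn
    obtain ⟨m, rfl⟩ : ∃ m, n = m + 2 := ⟨n - 2, by omega⟩
    refine ⟨FINaux.Tm_n _, ?_, ?_⟩
    · rw [FINaux.Tm_n1]
      simp only [Nat.add_sub_cancel]
      have h1 : m + 2 - 1 = m + 1 := by omega
      rw [h1]
      have h2 : (m + 2).choose 2 = (m + 1).choose 2 + (m + 1) := choose_two_one (m + 1)
      rw [h2]
      ring
    · simp only [Nat.add_sub_cancel]
      rw [Tm_211, choose_two_shift]
      ring
  · intro n hn
    obtain ⟨m, rfl⟩ : ∃ m, n = m + 2 := ⟨n - 2, by omega⟩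
    simp only [Nat.add_sub_cancel]
    rw [Tm_22 m (by omega), choose_two_shift]
    ring
  · intro n k hn
    obtain ⟨m, rfl⟩ : ∃ m, n = m + 2 := ⟨n - 2, by omega⟩
    simp only [Nat.add_sub_cancel]
    have h1 : m + 2 - 1 = m + 1 := by omega
    rw [h1]
    refine ⟨?_, ?_, ?_, ?_⟩
    · unfold Bp
      simp only [List.length_cons, List.length_nil, List.get_eq_getElem]
      rw [Fin.sum_univ_one]
      simp only [Fin.val_zero, List.getElem_cons_zero, pow_zero, one_mul]
      rw [Finset.sum_range_succ, Finset.sum_range_succ, add_assoc, pow_succ q m]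
    · unfold Bp
      simp only [List.length_cons, List.length_nil, List.get_eq_getElem]
      rw [Fin.sum_univ_two]
      simp only [Fin.val_zero, Fin.val_one, List.getElem_cons_zero, List.getElem_cons_succ,
        pow_zero, one_mul, pow_one]
      rw [Finset.sum_range_succ, Finset.sum_range_one]
      simp only [pow_zero, mul_one]
      ring
    · unfold Bp
      simp only [List.length_cons, List.length_nil, List.get_eq_getElem]
      rw [Fin.sum_univ_two]
      simp only [Fin.val_zero, Fin.val_one, List.getElem_cons_zero, List.getElem_cons_succ,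
        pow_zero, one_mul, pow_one]
      rw [Finset.sum_range_succ (fun j => (t * q ^ j) ^ (k + 1)), Finset.sum_range_one]
      simp only [pow_zero, mul_one, pow_one]
    · unfold Bp
      simp only [List.length_cons, List.length_nil, List.get_eq_getElem]
      rw [Fin.sum_univ_three]
      simp only [Fin.val_zero, Fin.val_one, Fin.val_two, List.getElem_cons_zero,
        List.getElem_cons_succ, pow_zero, one_mul, pow_one]
      rw [Finset.sum_range_one, Finset.sum_range_one]
      simp only [pow_zero, mul_one]
      ring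

end Pool.Agent.NE3
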