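import Pool.Agent.NE3.Stmts
import Pool.Agent.NEK.EVW

/-!
# Module EVN: evaluations of `w_n`
-/

set_option autoImplicit false

namespace Pool.Agent.NE3

open MvPolynomial Finset Pool.Agent.NEK

namespace EVN

theorem dval (hHA : Stmt_HA) (hHS : Stmt_HS) (s : K) (m : ℕ) :
    hN (fun i => (-1) ^ i * (1 - s ^ (i + 1))) (m + 1) = (-s) ^ (m + 1) + (-s) ^ m := by
  have e : (fun i : ℕ => (-1 : K) ^ i * (1 - s ^ (i + 1))) =
      fun i => (-1 : K) ^ i + (-s) ^ (i + 1) := by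
    funext i
    rw [neg_pow s (i + 1), pow_succ (-1 : K) i]
    ring
  rw [e, hHA K (fun k => (-1 : K) ^ k) (fun k => (-s) ^ (k + 1)) (m + 1)]
  have h1 : ∀ i, hN (fun k => (-1 : K) ^ k) i = if i ≤ 1 then 1 else 0 := fun i =>
    (hHS K (fun _ => 0) 0 i).2.2.2
  have h2 : ∀ i, hN (fun k => (-s) ^ (k + 1)) i = (-s) ^ i := fun i =>
    (hHS K (fun _ => 0) (-s) i).2.1
  simp only [h1, h2]
  rw [Finset.Nat.sum_antidiagonal_eq_sum_range_succ_mk, Finset.sum_range_succ',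
    Finset.sum_range_succ']
  have h3 : ∑ k ∈ range m, (if k + 1 + 1 ≤ 1 then (1 : K) else 0) *
      (-s) ^ (m + 1 - (k + 1 + 1)) = 0 := by
    apply Finset.sum_eq_zero
    intro k _
    rw [if_neg (by omega), zero_mul]
  rw [h3]
  simp
  ring

theorem second (hW : Stmt_WNR) (hHA : Stmt_HA) (hHS : Stmt_HS) (hHM : Stmt_HM) (s : K) (n : ℕ) :
    (1 - q ^ (n + 1)) * cN s (n + 1) = (q ^ n - s) * cN s n := by
  unfold cN
  have e1 := EVW.ev_rec hW hHM (fun i => (-1) ^ i * (1 - s ^ (i + 1))) (n := n + 1) (by omega)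
  rw [e1, EVW.sum_shift]
  have hd1 := dval hHA hHS s 0
  have hd : ∀ m, hN (fun i => (-1) ^ i * (1 - s ^ (i + 1))) (m + 1 + 1) =
      (-s) * hN (fun i => (-1) ^ i * (1 - s ^ (i + 1))) (m + 1) := by
    intro m
    rw [dval hHA hHS, dval hHA hHS]
    ring
  rcases Nat.eq_zero_or_pos n with rfl | hn
  · simp only [zero_add] at hd1 ⊢
    rw [hd1, EVW.ev_wN_zero]
    simp
    ring
  · have e2 := EVW.ev_rec hW hHM (fun i => (-1) ^ i * (1 - s ^ (i + 1))) (n := n) hn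
    have e3 : ∑ m ∈ Icc 1 n, q ^ (n + 1 - (m + 1)) *
        hN (fun i => (-1) ^ i * (1 - s ^ (i + 1))) (m + 1) *
        ev (fun i => (-1) ^ i * (1 - s ^ (i + 1))) (wN (n + 1 - (m + 1))) =
        (-s) * ∑ m ∈ Icc 1 n, q ^ (n - m) *
          hN (fun i => (-1) ^ i * (1 - s ^ (i + 1))) m *
          ev (fun i => (-1) ^ i * (1 - s ^ (i + 1))) (wN (n - m)) := by
      rw [Finset.mul_sum]
      refine Finset.sum_congr rfl fun m hm => ?_
      rw [Finset.mem_Icc] at hm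
      obtain ⟨m, rfl⟩ : ∃ k, m = k + 1 := ⟨m - 1, by omega⟩
      rw [hd, Nat.add_sub_add_right]
      ring
    rw [e3, ← e2, Nat.add_sub_cancel]
    simp only [zero_add] at hd1
    rw [hd1]
    ring

/-- the value of `w_n` as a complete function -/
theorem cN_eq (hHM : Stmt_HM) (s : K) (n : ℕ) :
    cN s n = hN (fun k => (1 - q ^ (k + 1))⁻¹ * ((-1) ^ k * (1 - s ^ (k + 1)))) n := by
  unfold cN wN
  have h := (hHM Lam K (ev (fun i => (-1) ^ i * (1 - s ^ (i + 1))) : Lam →ₐ[K] K).toRingHom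
    (fun i => C ((1 - q ^ (i + 1))⁻¹) * (X i : Lam))).1 n
  have e : (fun k => (ev (fun i => (-1) ^ i * (1 - s ^ (i + 1))) : Lam →ₐ[K] K).toRingHom
      (C ((1 - q ^ (k + 1))⁻¹) * (X k : Lam))) =
      fun k => (1 - q ^ (k + 1))⁻¹ * ((-1) ^ k * (1 - s ^ (k + 1))) := by
    funext k
    change ev (fun i => (-1) ^ i * (1 - s ^ (i + 1))) (C ((1 - q ^ (k + 1))⁻¹) * (X k : Lam)) = _
    unfold ev
    rw [map_mul, aeval_C, aeval_X]
    rfl
  rw [e] at h
  exact h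

/-- the polynomial of `w_n` -/
theorem ET_wN (hHA : Stmt_HA) (hHS : Stmt_HS) (hHM : Stmt_HM) (n : ℕ) :
    ET (wN n) = ∑ ij ∈ antidiagonal n,
      Polynomial.C (cN t ij.1) * ((Polynomial.X : Polynomial K) ^ ij.2 *
        Polynomial.C (cN t ij.2)) := by
  unfold wN
  have h := (hHM Lam (Polynomial K) ET.toRingHom
    (fun i => C ((1 - q ^ (i + 1))⁻¹) * (X i : Lam))).1 n
  have hC : ∀ m, Polynomial.C (cN t m) =
      hN (fun k => Polynomial.C ((1 - q ^ (k + 1))⁻¹ * ((-1) ^ k * (1 - t ^ (k + 1))))) m := by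
    intro m
    rw [cN_eq hHM]
    exact (hHM K (Polynomial K) Polynomial.C
      (fun k => (1 - q ^ (k + 1))⁻¹ * ((-1) ^ k * (1 - t ^ (k + 1))))).1 m
  have e : (fun k => ET.toRingHom (C ((1 - q ^ (k + 1))⁻¹) * (X k : Lam))) =
      fun k => Polynomial.C ((1 - q ^ (k + 1))⁻¹ * ((-1) ^ k * (1 - t ^ (k + 1)))) +
        (Polynomial.X : Polynomial K) ^ (k + 1) *
          Polynomial.C ((1 - q ^ (k + 1))⁻¹ * ((-1) ^ k * (1 - t ^ (k + 1)))) := by
    funext k
    change ET (C ((1 - q ^ (k + 1))⁻¹) * (X k : Lam)) = _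
    unfold ET
    rw [map_mul, aeval_C, aeval_X, Polynomial.algebraMap_eq, ← mul_assoc, ← Polynomial.C_mul,
      mul_add, mul_one, mul_comm (Polynomial.C _) (Polynomial.X ^ (k + 1))]
  rw [e] at h
  refine h.trans ?_
  rw [hHA (Polynomial K)
    (fun k => Polynomial.C ((1 - q ^ (k + 1))⁻¹ * ((-1) ^ k * (1 - t ^ (k + 1)))))
    (fun k => (Polynomial.X : Polynomial K) ^ (k + 1) *
      Polynomial.C ((1 - q ^ (k + 1))⁻¹ * ((-1) ^ k * (1 - t ^ (k + 1))))) n]
  refine Finset.sum_congr rfl fun ij _ => ?_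
  rw [(hHS (Polynomial K)
    (fun k => Polynomial.C ((1 - q ^ (k + 1))⁻¹ * ((-1) ^ k * (1 - t ^ (k + 1)))))
    Polynomial.X ij.2).1, ← hC, ← hC]

theorem coeff_ET (hHA : Stmt_HA) (hHS : Stmt_HS) (hHM : Stmt_HM) (n j : ℕ) (hj : j ≤ n) :
    (ET (wN n)).coeff j = cN t (n - j) * cN t j := by
  rw [ET_wN hHA hHS hHM, Polynomial.finsetSum_coeff]
  have h1 : ∀ ij ∈ antidiagonal n, (Polynomial.C (cN t ij.1) *
      ((Polynomial.X : Polynomial K) ^ ij.2 * Polynomial.C (cN t ij.2))).coeff j =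
      if ij = (n - j, j) then cN t (n - j) * cN t j else 0 := by
    rintro ⟨a, b⟩ hab
    rw [HasAntidiagonal.mem_antidiagonal] at hab
    simp only at hab ⊢
    rw [Polynomial.coeff_C_mul, Polynomial.coeff_mul_C, Polynomial.coeff_X_pow]
    by_cases hb : j = b
    · subst hb
      have ha : a = n - j := by omega
      subst ha
      rw [if_pos rfl, if_pos rfl, one_mul]
    · rw [if_neg hb, if_neg (fun h => hb (by
        rw [Prod.mk.injEq] at h
        exact h.2.symm)), zero_mul, mul_zero]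
  rw [Finset.sum_congr rfl h1, Finset.sum_ite_eq', if_pos]
  rw [HasAntidiagonal.mem_antidiagonal]
  simp only
  omega

theorem eval_ET (n : ℕ) : (ET (wN n)).eval t = cN (t ^ 2) n := by
  have h : (Polynomial.aeval t : Polynomial K →ₐ[K] K).comp ET =
      ev (fun i => (-1) ^ i * (1 - (t ^ 2) ^ (i + 1))) := by
    apply MvPolynomial.algHom_ext
    intro i
    rw [AlgHom.comp_apply]
    unfold ET ev
    rw [aeval_X, aeval_X]
    simp only [map_mul, map_add, map_one, map_pow, Polynomial.aeval_C, Polynomial.aeval_X,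
      Algebra.algebraMap_self, RingHom.id_apply, map_sub, map_neg]
    ring
  have h2 := DFunLike.congr_fun h (wN n)
  rw [AlgHom.comp_apply, Polynomial.coe_aeval_eq_eval] at h2
  exact h2

theorem q_pow_ne_t2 (k : ℕ) : q ^ k ≠ t ^ 2 := by
  have h := EVW.lift_ne (f := X 0 ^ k) (g := X 1 ^ 2) ![1, 2] (by simp; norm_num)
  rw [map_pow, map_pow] at h
  exact h

theorem cN_zero (s : K) : cN s 0 = 1 := by
  unfold cN
  exact EVW.ev_wN_zero _

theorem cN_ne (hW : Stmt_WNR) (hHA : Stmt_HA) (hHS : Stmt_HS) (hHM : Stmt_HM) (s : K)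
    (hs : ∀ k, q ^ k ≠ s) (n : ℕ) : cN s n ≠ 0 := by
  induction n with
  | zero =>
    rw [cN_zero]
    exact one_ne_zero
  | succ n ih =>
    intro hcon
    have h := second hW hHA hHS hHM s n
    rw [hcon, mul_zero] at h
    exact mul_ne_zero (sub_ne_zero.2 (hs n)) ih h.symm

end EVN

theorem t_EVN : Stmt_WNR → Stmt_HA → Stmt_HS → Stmt_HM → Stmt_EVN := by
  intro hW hHA hHS hHM
  refine ⟨EVN.cN_zero, ?_, ?_, EVN.eval_ET, ?_, ?_⟩
  · intro s n hn
    obtain ⟨n, rfl⟩ : ∃ k, n = k + 1 := ⟨n - 1, by omega⟩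
    rw [Nat.add_sub_cancel]
    exact EVN.second hW hHA hHS hHM s n
  · intro n
    refine ⟨?_, ?_⟩
    · rw [EVN.coeff_ET hHA hHS hHM n 0 (Nat.zero_le n), EVN.cN_zero, mul_one, Nat.sub_zero]
    · intro hn
      exact EVN.coeff_ET hHA hHS hHM n 1 hn
  · intro n
    exact ⟨EVN.cN_ne hW hHA hHS hHM t EVW.q_pow_ne_t n,
      EVN.cN_ne hW hHA hHS hHM (t ^ 2) EVN.q_pow_ne_t2 n⟩
  · unfold ET
    rw [aeval_X]
    simp

end Pool.Agent.NE3
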