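import Pool.Agent.NE3.Stmts

/-!
# Module EVZ: evaluations of Schur functions in `K[Z]`
-/

set_option autoImplicit false

namespace Pool.Agent.NE3

open MvPolynomial Finset Pool.Agent.NEK

namespace EVZ

/-- The images of the power sums. -/
noncomputable def P (k : ℕ) : Polynomial K :=
  Polynomial.C ((-1) ^ k) * (1 + Polynomial.X ^ (k + 1))

theorem EP_X (i : ℕ) : EP (X i) = P i := by
  rw [EP, aeval_X, P]

theorem EP_sch (hHM : Stmt_HM) (l : List ℕ) : EP (sch l) = sN P l := by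
  have h := (hHM Lam (Polynomial K) (EP : Lam →+* Polynomial K) (fun i => (X i : Lam))).2.2 l
  have h2 : (fun k => (EP : Lam →+* Polynomial K) (X k : Lam)) = P := by
    funext k
    exact EP_X k
  rw [h2] at h
  exact h

/-- The complete functions. -/
theorem hN_P (hHA : Stmt_HA) (hHS : Stmt_HS) (m : ℕ) :
    hN P m = ∑ ij ∈ antidiagonal m, (if ij.1 ≤ 1 then (1 : Polynomial K) else 0) *
      (Polynomial.X ^ ij.2 * (if ij.2 ≤ 1 then 1 else 0)) := by
  have h1 : P = fun k => (-1 : Polynomial K) ^ k +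
      Polynomial.X ^ (k + 1) * (-1 : Polynomial K) ^ k := by
    funext k
    rw [P, map_pow, map_neg, map_one]
    ring
  rw [h1, hHA (Polynomial K) (fun k => (-1 : Polynomial K) ^ k)
    (fun k => Polynomial.X ^ (k + 1) * (-1 : Polynomial K) ^ k) m]
  refine sum_congr rfl fun ij _ => ?_
  rw [(hHS (Polynomial K) (fun k => (-1 : Polynomial K) ^ k) Polynomial.X ij.2).1,
    (hHS (Polynomial K) (fun k => (-1 : Polynomial K) ^ k) Polynomial.X ij.1).2.2.2,
    (hHS (Polynomial K) (fun k => (-1 : Polynomial K) ^ k) Polynomial.X ij.2).2.2.2]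

theorem hN_big (hHA : Stmt_HA) (hHS : Stmt_HS) {m : ℕ} (hm : 3 ≤ m) : hN P m = 0 := by
  rw [hN_P hHA hHS]
  refine sum_eq_zero fun ij hij => ?_
  rw [HasAntidiagonal.mem_antidiagonal] at hij
  by_cases h1 : ij.1 ≤ 1
  · have h2 : ¬ ij.2 ≤ 1 := by omega
    rw [if_neg h2, mul_zero, mul_zero]
  · rw [if_neg h1, zero_mul]

theorem hN_dvd (hHA : Stmt_HA) (hHS : Stmt_HS) {m : ℕ} (hm : 2 ≤ m) :
    (Polynomial.X : Polynomial K) ∣ hN P m := by
  rw [hN_P hHA hHS]
  refine dvd_sum fun ij hij => ?_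
  rw [HasAntidiagonal.mem_antidiagonal] at hij
  by_cases h1 : ij.1 ≤ 1
  · by_cases h2 : ij.2 = 0
    · omega
    · exact Dvd.dvd.mul_left (Dvd.dvd.mul_right (dvd_pow_self _ h2) _) _
  · rw [if_neg h1, zero_mul]
    exact dvd_zero _

theorem hZ_big (hHA : Stmt_HA) (hHS : Stmt_HS) {m : ℤ} (hm : 3 ≤ m) : hZ P m = 0 := by
  rw [hZ, if_pos (by omega), hN_big hHA hHS (by omega)]

theorem hZ_dvd (hHA : Stmt_HA) (hHS : Stmt_HS) {m : ℤ} (hm : 2 ≤ m) :
    (Polynomial.X : Polynomial K) ∣ hZ P m := by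
  rw [hZ, if_pos (by omega)]
  exact hN_dvd hHA hHS (by omega)

theorem det_row {R : Type*} [CommRing R] {n : ℕ} (A : Matrix (Fin (n + 1)) (Fin (n + 1)) R)
    (h : ∀ j : Fin n, A 0 j.succ = 0) :
    A.det = A 0 0 * (A.submatrix Fin.succ Fin.succ).det := by
  rw [Matrix.det_succ_row_zero, Fin.sum_univ_succ, sum_eq_zero, add_zero]
  · simp
  · intro j _
    rw [h j, mul_zero, zero_mul]

end EVZ

open EVZ in
theorem t_EVZ : Stmt_HM → Stmt_HA → Stmt_HS → Stmt_EVZ := by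
  intro hHM hHA hHS
  refine ⟨?_, ?_, ?_⟩
  · intro f
    have h : (EP.comp (plX (fun i => 1 - t ^ (i + 1)))) = ET := by
      refine MvPolynomial.algHom_ext fun i => ?_
      show EP (plX (fun i => 1 - t ^ (i + 1)) (X i)) = ET (X i)
      rw [plX, aeval_X, map_mul, EP_X, P, ET, aeval_X]
      have h1 : EP (C (1 - t ^ (i + 1))) = Polynomial.C (1 - t ^ (i + 1)) := by
        rw [EP, ← MvPolynomial.algebraMap_eq, AlgHom.commutes]
        rfl
      rw [h1, map_mul]
      ring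
    exact congrArg (fun F : Lam →ₐ[K] Polynomial K => F f) h
  · intro b l' hb
    rw [EP_sch hHM, sN]
    refine Matrix.det_eq_zero_of_row_eq_zero (⟨0, by simp⟩ : Fin (b :: l').length) fun j => ?_
    simp only [Matrix.of_apply]
    show hZ P (((b : ℕ) : ℤ) - ((0 : ℕ) : ℤ) + ((j : ℕ) : ℤ)) = 0
    exact hZ_big hHA hHS (by omega)
  · intro b c l' hb hc
    rw [EP_sch hHM, sN]
    let M : Matrix (Fin (l'.length + 1 + 1)) (Fin (l'.length + 1 + 1)) (Polynomial K) :=
      Matrix.of fun i j : Fin (b :: c :: l').length =>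
        hZ P (((b :: c :: l').get i : ℤ) - (i : ℤ) + (j : ℤ))
    show (Polynomial.X : Polynomial K) ^ 2 ∣ M.det
    have h00 : (Polynomial.X : Polynomial K) ∣ M 0 0 := by
      show (Polynomial.X : Polynomial K) ∣ hZ P (((b : ℕ) : ℤ) - ((0 : ℕ) : ℤ) + ((0 : ℕ) : ℤ))
      exact hZ_dvd hHA hHS (by omega)
    have h0 : ∀ j : Fin (l'.length + 1), M 0 j.succ = 0 := by
      intro j
      show hZ P (((b : ℕ) : ℤ) - ((0 : ℕ) : ℤ) + ((j.succ : ℕ) : ℤ)) = 0
      rw [Fin.val_succ]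
      exact hZ_big hHA hHS (by push_cast; omega)
    have h10 : (Polynomial.X : Polynomial K) ∣ (M.submatrix Fin.succ Fin.succ) 0 0 := by
      show (Polynomial.X : Polynomial K) ∣ hZ P (((c : ℕ) : ℤ) - ((1 : ℕ) : ℤ) + ((1 : ℕ) : ℤ))
      exact hZ_dvd hHA hHS (by omega)
    have h1 : ∀ j : Fin l'.length, (M.submatrix Fin.succ Fin.succ) 0 j.succ = 0 := by
      intro j
      show hZ P (((c : ℕ) : ℤ) - ((1 : ℕ) : ℤ) + ((j.succ.succ : ℕ) : ℤ)) = 0
      rw [Fin.val_succ, Fin.val_succ]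
      exact hZ_big hHA hHS (by push_cast; omega)
    rw [det_row M h0, det_row _ h1, pow_two]
    exact mul_dvd_mul h00 (Dvd.dvd.mul_right h10 _)

end Pool.Agent.NE3
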