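import Pool.Agent.NE3.Stmts
import Pool.Agent.NEK.EXT

/-!
The function `E_{n,n-2}`.
-/

set_option autoImplicit false

namespace Pool.Agent.NE3

open MvPolynomial Finset Pool.Agent.NEK

namespace EX2

open EXTX

/-- `e_2[X/(1-q)] = w_1^2 - w_2` -/
noncomputable def e2 : Lam := PP 0 * PP 0 - wN 2

lemma wN_zero : wN 0 = 1 := by
  rw [wN_eq, hN]

lemma nw (hHR : Stmt_HR) (n : ℕ) :
    ∑ k ∈ range n, PP k * wN (n - (k + 1)) = (n : Lam) * wN n := by
  rcases n with _ | n
  · simp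
  · have h := hHR Lam PP n
    rw [wN_eq (n + 1), h]
    apply Finset.sum_congr rfl
    intro k _
    have e : n + 1 - (k + 1) = n - k := by omega
    rw [e, wN_eq]

lemma wN_one (hHR : Stmt_HR) : wN 1 = PP 0 := by
  have h := nw hHR 1
  rw [Finset.sum_range_one] at h
  have e : 1 - (0 + 1) = 0 := by omega
  rw [e, wN_zero, mul_one, Nat.cast_one, one_mul] at h
  exact h.symm

lemma two_e2 (hHR : Stmt_HR) : 2 * e2 = PP 0 * PP 0 - PP 1 := by
  have h := nw hHR 2
  rw [Finset.sum_range_succ, Finset.sum_range_one] at h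
  have e : 2 - (0 + 1) = 1 := by omega
  have e' : 2 - (1 + 1) = 0 := by omega
  rw [e, e', wN_zero, wN_one hHR] at h
  unfold e2
  push_cast at h
  linear_combination h

lemma coeff_two (hER : Stmt_ER) (hHR : Stmt_HR) (n : ℕ) :
    (EZ (n + 2)).coeff n = (-1) ^ n * (e2 * wN n) := by
  induction n using Nat.strong_induction_on with
  | _ n ih =>
    have h := rec_coeff hER (n + 1) n
    have hT : ∑ k ∈ range (n + 1 + 1), (-1 : Lam) ^ k * PP k * (EZ (n + 1 - k)).coeff n =
        (-1) ^ n * (PP 0 * PP 0 - PP 1) * wN n := by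
      rw [Finset.sum_range_succ', Finset.sum_range_succ']
      have h0 : ∑ k ∈ range n, (-1 : Lam) ^ (k + 1 + 1) * PP (k + 1 + 1) *
          (EZ (n + 1 - (k + 1 + 1))).coeff n = 0 := by
        apply Finset.sum_eq_zero
        intro k hk
        have hk' := Finset.mem_range.mp hk
        rw [coeff_gt hER (n + 1 - (k + 1 + 1)) n (by omega), mul_zero]
      have e1 : n + 1 - (0 + 1) = n := by omega
      have e2 : n + 1 - 0 = n + 1 := by omega
      rw [h0, e1, e2, coeff_top hER hHR, coeff_sub hER hHR]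
      ring
    have hS : ∑ k ∈ range (n + 1 + 1), (-1 : Lam) ^ k * PP k *
        (if k + 1 ≤ n then (EZ (n + 1 - k)).coeff (n - (k + 1)) else 0) =
        - ((-1) ^ n * (e2 * ((n : Lam) * wN n))) := by
      rw [Finset.sum_range_succ, Finset.sum_range_succ, if_neg (by omega), if_neg (by omega),
        mul_zero, mul_zero, add_zero, add_zero, ← nw hHR n, Finset.mul_sum, Finset.mul_sum,
        ← Finset.sum_neg_distrib]
      apply Finset.sum_congr rfl
      intro k hk
      have hk' := Finset.mem_range.mp hk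
      have e := ih (n - (k + 1)) (by omega)
      have e' : n - (k + 1) + 2 = n + 1 - k := by omega
      rw [e'] at e
      rw [if_pos (by omega), e]
      have e3 : (-1 : Lam) ^ n = - ((-1) ^ k * (-1) ^ (n - (k + 1))) := by
        have e4 : n = k + (n - (k + 1)) + 1 := by omega
        conv_lhs => rw [e4, pow_succ, pow_add]
        ring
      rw [e3]
      ring
    have hall : ∑ k ∈ range (n + 1 + 1), (-1 : Lam) ^ k * PP k *
        ((EZ (n + 1 - k)).coeff n -
          if k + 1 ≤ n then (EZ (n + 1 - k)).coeff (n - (k + 1)) else 0) =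
        (-1) ^ n * (PP 0 * PP 0 - PP 1) * wN n - - ((-1) ^ n * (e2 * ((n : Lam) * wN n))) := by
      rw [← hT, ← hS, ← Finset.sum_sub_distrib]
      apply Finset.sum_congr rfl
      intro k _
      ring
    rw [hall, ← two_e2 hHR] at h
    have h3 : ((n + 1 + 1 : ℕ) : Lam) * (EZ (n + 1 + 1)).coeff n =
        ((n + 1 + 1 : ℕ) : Lam) * ((-1) ^ n * (e2 * wN n)) := by
      rw [h]
      push_cast
      ring
    exact mul_left_cancel₀ (cast_ne (n + 1)) h3

/-- the Gaussian binomial coefficient of `k + 2` and `k` -/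
noncomputable def gb : ℕ → K
  | 0 => 1
  | k + 1 => q ^ 2 * gb k + ∑ i ∈ range (k + 2), q ^ i

lemma geo (m : ℕ) : (∑ i ∈ range m, q ^ i) * (1 - q) = 1 - q ^ m := by
  have := geom_sum_mul q m
  linear_combination -this

lemma gb_eq (k : ℕ) :
    (1 - q) * (1 - q ^ 2) * gb k = (1 - q ^ (k + 1)) * (1 - q ^ (k + 2)) := by
  induction k with
  | zero =>
    rw [gb]
    ring
  | succ k ih =>
    rw [gb]
    have h := geo (k + 2)
    linear_combination q ^ 2 * ih + (1 - q ^ 2) * h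

lemma PZ_two (k : ℕ) :
    (PZ (k + 2)).coeff k = (-1) ^ k * C (q ^ k.choose 2 * gb k) := by
  induction k with
  | zero =>
    unfold PZ gb
    rw [Finset.prod_range_succ, Finset.prod_range_one, Polynomial.mul_coeff_zero]
    simp
  | succ k ih =>
    rw [PZ_succ, Polynomial.coeff_sub, Polynomial.coeff_C_mul, Polynomial.coeff_mul_X, ih,
      PZ_sub]
    have e : (k + 1).choose 2 = k + k.choose 2 := by
      rw [Nat.choose_succ_succ' k 1, Nat.choose_one_right]
    have e3 : q ^ (k + 1).choose 2 * gb (k + 1) =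
        q ^ (k + 1).choose 2 * (∑ i ∈ range (k + 1 + 1), q ^ i) +
          q ^ (k + 2) * (q ^ k.choose 2 * gb k) := by
      rw [gb, e]
      ring
    rw [e3, C_add, C_mul (a := q ^ (k + 2)), pow_succ (-1 : Lam)]
    ring

end EX2

open EXTX in
theorem t_EX2 : Stmt_ER → Stmt_HR → Stmt_HU → Stmt_HM → Stmt_WNR → Stmt_EXT → Stmt_EX2 := by
  intro hER hHR _ hHM _ hEXT n hn E hE
  obtain ⟨m, rfl⟩ : ∃ m, n = m + 2 := ⟨n - 2, by omega⟩
  have hm : 1 ≤ m := by omega
  have hEF := EZ_eq_FZ hHM (m + 2) E hE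
  obtain ⟨hE2, hE1⟩ := hEXT (m + 2) (by omega) E hE
  have i1 : m + 2 - 1 = m + 1 := by omega
  have i2 : m + 2 - 2 = m := by omega
  rw [i1] at hE1
  rw [i1, i2]
  have hq := q_ne_zero
  have hu : ((-1 : Lam) ^ m) * (-1) ^ m = 1 := by
    have e : (-1 : Lam) * (-1) = 1 := by ring
    rw [← mul_pow, e, one_pow]
  have h2 : (-1 : Lam) ^ m * (EX2.e2 * wN m) =
      (C ((qf m)⁻¹) * E m) * ((-1) ^ m * C (q ^ m.choose 2)) +
      (C ((qf (m + 1))⁻¹) * E (m + 1)) *
        ((-1) ^ m * C (q ^ m.choose 2 * ∑ i ∈ range (m + 1), q ^ i)) +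
      (C ((qf (m + 2))⁻¹) * E (m + 2)) * ((-1) ^ m * C (q ^ m.choose 2 * EX2.gb m)) := by
    rw [← EX2.coeff_two hER hHR, hEF, FZ_coeff]
    have hs : Icc 1 (m + 2) = insert (m + 2) (insert (m + 1) (Icc 1 m)) := by
      ext k
      simp only [Finset.mem_Icc, Finset.mem_insert]
      omega
    rw [hs, Finset.sum_insert (by simp), Finset.sum_insert (by simp), PZ_sub, EX2.PZ_two,
      Finset.sum_eq_single (s := Icc 1 m) m, PZ_top]
    · ring
    · intro k hk hk2
      have hk3 := Finset.mem_Icc.mp hk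
      rw [PZ_gt k m (by omega), mul_zero]
    · intro h
      exact absurd (Finset.mem_Icc.mpr ⟨hm, le_refl _⟩) h
  have h3 : EX2.e2 * wN m =
      C ((qf m)⁻¹ * q ^ m.choose 2) * E m +
      C ((qf (m + 1))⁻¹ * (q ^ m.choose 2 * ∑ i ∈ range (m + 1), q ^ i)) * E (m + 1) +
      C ((qf (m + 2))⁻¹ * (q ^ m.choose 2 * EX2.gb m)) * E (m + 2) := by
    have h := congrArg (fun f : Lam => (-1) ^ m * f) h2
    rw [← mul_assoc, hu, one_mul] at h
    rw [h]
    simp only [C_mul]
    linear_combination (C ((qf m)⁻¹) * E m * C (q ^ m.choose 2) +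
      C ((qf (m + 1))⁻¹) * E (m + 1) *
        (C (q ^ m.choose 2) * C (∑ i ∈ range (m + 1), q ^ i)) +
      C ((qf (m + 2))⁻¹) * E (m + 2) * (C (q ^ m.choose 2) * C (EX2.gb m))) * hu
  -- scalars
  have h1q : (1 - q) ≠ 0 := by
    have := one_sub_ne (k := 1) (le_refl 1)
    rwa [pow_one] at this
  have h2q : (1 - q ^ 2) ≠ 0 := one_sub_ne (by omega)
  have hm1 : (1 - q ^ (m + 1)) ≠ 0 := one_sub_ne (by omega)
  have hm2 : (1 - q ^ (m + 2)) ≠ 0 := one_sub_ne (by omega)
  have hqm := qf_ne m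
  have hs1 := qf_succ m
  have hs2 : qf (m + 2) = qf m * (1 - q ^ (m + 1)) * (1 - q ^ (m + 2)) := by
    rw [← hs1]
    exact qf_succ (m + 1)
  have hgb := EX2.gb_eq m
  have hgeo := EX2.geo (m + 1)
  have hch : q ^ (m + 2).choose 2 = q ^ m * q ^ m * q * q ^ m.choose 2 := by
    have e1 : (m + 2).choose 2 = m + 1 + (m + m.choose 2) := by
      rw [Nat.choose_succ_succ' (m + 1) 1, Nat.choose_one_right, Nat.choose_succ_succ' m 1,
        Nat.choose_one_right]
    rw [e1]
    ring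
  have hc0 : q ^ m.choose 2 ≠ 0 := pow_ne_zero _ hq
  have hc2 : q ^ (m + 2).choose 2 ≠ 0 := pow_ne_zero _ hq
  have hqm0 : q ^ m ≠ 0 := pow_ne_zero _ hq
  set c := q ^ (m + 2).choose 2 with hc
  set c0 := q ^ m.choose 2 with hc0'
  set s := ∑ i ∈ range (m + 1), q ^ i with hs
  -- multiply the relation
  have h4 : C ((1 - q) * (1 - q ^ 2) * (q ^ m * q ^ m * q) * qf m) * (EX2.e2 * wN m) =
      C ((1 - q) * (1 - q ^ 2) * c) * E m +
      C ((1 - q) * (1 + q) * c) * E (m + 1) + C c * E (m + 2) := by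
    have k1 : (1 - q) * (1 - q ^ 2) * (q ^ m * q ^ m * q) * qf m * ((qf m)⁻¹ * c0) =
        (1 - q) * (1 - q ^ 2) * c := by
      rw [hch]
      field_simp
    have k2 : (1 - q) * (1 - q ^ 2) * (q ^ m * q ^ m * q) * qf m *
        ((qf (m + 1))⁻¹ * (c0 * s)) = (1 - q) * (1 + q) * c := by
      rw [hch, hs1]
      field_simp
      linear_combination (1 + q) * (hgeo)
    have k3 : (1 - q) * (1 - q ^ 2) * (q ^ m * q ^ m * q) * qf m *
        ((qf (m + 2))⁻¹ * (c0 * EX2.gb m)) = c := by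
      rw [hch, hs2]
      field_simp
      linear_combination hgb
    rw [h3, ← k1, ← k2]
    have k3' : (C c : Lam) = C ((1 - q) * (1 - q ^ 2) * (q ^ m * q ^ m * q) * qf m *
        ((qf (m + 2))⁻¹ * (c0 * EX2.gb m))) := by rw [k3]
    rw [k3']
    simp only [C_mul]
    ring
  have h5 : C c * E (m + 2) = WN (m + 2) := by
    rw [hE2, ← mul_assoc, ← C_mul, mul_inv_cancel₀ hc2, C_1, one_mul]
  have h6 : C ((1 - q) * c) * E (m + 1) = -(WN (m + 2) - C (q ^ (m + 1)) * X 0 * WN (m + 1)) := by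
    rw [hE1]
    unfold An
    rw [i1]
    have k4 : (1 - q) * c * (c⁻¹ * s) * (1 - q ^ (m + 1))⁻¹ = 1 := by
      field_simp
      linear_combination hgeo
    have k5 : (C ((1 - q) * c * (c⁻¹ * s) * (1 - q ^ (m + 1))⁻¹) : Lam) = 1 := by
      rw [k4, C_1]
    rw [C_mul, C_mul (a := (1 - q) * c)] at k5
    linear_combination -(WN (m + 2) - C (q ^ (m + 1)) * X 0 * WN (m + 1)) * k5
  have h7 : C ((1 - q) * (1 - q ^ 2)) * EX2.e2 = C (1 + q) * (X 0 * X 0) - WN 2 := by
    unfold EX2.e2 WN PP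
    have k6 : (1 - q) * (1 - q ^ 2) * ((1 - q ^ (0 + 1))⁻¹ * (1 - q ^ (0 + 1))⁻¹) = 1 + q := by
      rw [zero_add, pow_one]
      field_simp
      ring
    have k7 : qf 2 = (1 - q) * (1 - q ^ 2) := by
      have e1 := qf_succ 1
      have e0 := qf_succ 0
      have e : qf 0 = 1 := by
        unfold qf poch
        simp
      rw [e, zero_add, pow_one, one_mul] at e0
      rw [e0] at e1
      exact e1
    rw [k7, ← k6]
    simp only [C_mul]
    ring
  have h8 : C ((1 - q) * (1 - q ^ 2) * (q ^ m * q ^ m * q) * qf m) * (EX2.e2 * wN m) =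
      C (q ^ m * q ^ m * q) * ((C (1 + q) * (X 0 * X 0) - WN 2) * WN m) := by
    rw [← h7]
    unfold WN
    simp only [C_mul]
    ring
  have h9 : C ((1 - q) * (1 + q) * c) * E (m + 1) =
      C (1 + q) * -(WN (m + 2) - C (q ^ (m + 1)) * X 0 * WN (m + 1)) := by
    rw [← h6]
    simp only [C_mul]
    ring
  rw [h8, h9, h5] at h4
  have h10 : (1 - q) ^ 2 * (1 + q) * c = (1 - q) * (1 - q ^ 2) * c := by ring
  simp only [MvPolynomial.smul_eq_C_mul]
  rw [h10]
  have h11 : q ^ (m + 1) = q ^ m * q := pow_succ q m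
  rw [h11] at h4
  simp only [C_mul, C_add, C_1] at h4 ⊢
  linear_combination -h4

end Pool.Agent.NE3
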