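import Pool.Agent.NE3.WRD

/-!
# Assembly: `Δ_{s_λ} ∇ E_{n,n-2}` is Schur positive
-/

set_option autoImplicit false

namespace Pool.Agent.NE3

open MvPolynomial Finset Pool.Agent.NEK

namespace FN3

open M22 (one_sub_q_ne one_add_q_ne q_ne t_ne a_sub_t_ne a_sub_tq_ne a_sub_t2_ne pow_sub_ne)

/-- an evaluation of a Schur function is a determinant in the field -/
theorem ev_sch (hHM : Stmt_HM) (a : ℕ → K) (l : List ℕ) : ev a (sch l) = sN a l := by
  have h := (hHM Lam K (ev a : Lam →+* K) (fun i => (X i : Lam))).2.2 l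
  have h2 : (fun k => (ev a : Lam →+* K) (X k : Lam)) = a := by
    funext k
    exact aeval_X a k
  rw [h2] at h
  exact h

section gen

variable {F M : Type*} [Field F] [AddCommGroup M] [Module F M]

/-- the function `E_{n,n-2}` from the four products -/
lemma comb (C0 C1 D Z : M) (a x : F) :
    x • ((a * a * (1 + x)) • (C0 + (2 : F) • C1 + D + ((1 - x) * (a - 1)) • Z) -
        (a * a) • (C0 + (1 + x) • C1 + x • D) -
        (a * (1 + x)) • (C0 + (1 + a) • C1 + a • D) +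
        (C0 + (a + a * x) • C1 + (a * (a * x)) • D)) =
      (x * (1 - a) * (1 - a * x)) • C0 - (x * a * a * (1 + x) * (1 - x) * (1 - a)) • Z := by
  module

lemma g12 (C0 C1 D : M) (a x s : F) :
    (1 - s) • (C0 + (a + a * x) • C1 + (a * (a * x)) • D) +
      (s - a * x) • (C0 + (1 + a) • C1 + a • D) =
      (1 - a * x) • (C0 + (a + s) • C1 + (a * s) • D) := by
  module

lemma zer (C0 C1 D Z : M) (u v : F) :
    u • C0 - v • Z = u • C0 + (0 : F) • C1 + (0 : F) • D + (-v) • Z := by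
  module

lemma fac (H1 H2 H3 H4 : M) (p a1 a2 a3 a4 : F) :
    (p * a1) • H1 + (p * a2) • H2 + (p * a3) • H3 + (p * a4) • H4 =
      p • (a1 • H1 + a2 • H2 + a3 • H3 + a4 • H4) := by
  module

lemma lst (C0 C1 C2 C3 : M) (x p0 p1 p2 e c : F) (hx : x ≠ 0) (h : p2 + e = x * c) :
    p0 • C0 + p1 • C1 + p2 • (C2 + x⁻¹ • C3) + e • (x⁻¹ • C3) =
      p0 • C0 + p1 • C1 + p2 • C2 + c • C3 := by
  have h1 : e = x * c - p2 := by linear_combination h
  have h2 : (x * c - p2) * x⁻¹ = c - p2 * x⁻¹ := by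
    field_simp
  rw [h1, smul_smul (x * c - p2), h2]
  module

/-- a combination of the four `H_i` -/
lemma four (C0 C1 D Z : M) (a x s c1 c2 c3 c4 e : F) :
    c1 • (C0 + (a + a * x) • C1 + (a * (a * x)) • D) + c2 • (C0 + (a + s) • C1 + (a * s) • D) +
      c3 • (C0 + (s + s * x) • C1 + (s * (s * x)) • D) +
      c4 • (C0 + (s + s ^ 2) • C1 + (s * s ^ 2) • D + e • Z) =
    (c1 + c2 + c3 + c4) • C0 +
      (c1 * (a + a * x) + c2 * (a + s) + c3 * (s + s * x) + c4 * (s + s ^ 2)) • C1 +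
      (c1 * (a * (a * x)) + c2 * (a * s) + c3 * (s * (s * x)) + c4 * (s * s ^ 2)) • D +
      (c4 * e) • Z := by
  module

/-- from the products to `H_(n-2,2)` -/
lemma h3 (C0 C1 D : M) (a x α β γ u v : F) (hS : α + β + γ = 1)
    (hu : α * (a + a * x) + β * (1 + a) + γ * (1 + x) = u)
    (hv : α * (a * (a * x)) + β * a + γ * x = v) :
    α • (C0 + (a + a * x) • C1 + (a * (a * x)) • D) + β • (C0 + (1 + a) • C1 + a • D) +
      γ • (C0 + (1 + x) • C1 + x • D) = C0 + u • C1 + v • D := by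
  have e : α • (C0 + (a + a * x) • C1 + (a * (a * x)) • D) + β • (C0 + (1 + a) • C1 + a • D) +
      γ • (C0 + (1 + x) • C1 + x • D) = (α + β + γ) • C0 +
      (α * (a + a * x) + β * (1 + a) + γ * (1 + x)) • C1 +
      (α * (a * (a * x)) + β * a + γ * x) • D := by
    module
  rw [e, hS, hu, hv, one_smul]

lemma h4 (C0 C1 D Z : M) (a x α β γ δ u v : F) (hS : α + β + γ + δ = 1)
    (hu : α * (a + a * x) + β * (1 + a) + γ * (1 + x) + 2 * δ = u)
    (hv : α * (a * (a * x)) + β * a + γ * x + δ = v) :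
    α • (C0 + (a + a * x) • C1 + (a * (a * x)) • D) + β • (C0 + (1 + a) • C1 + a • D) +
      γ • (C0 + (1 + x) • C1 + x • D) +
      δ • (C0 + (2 : F) • C1 + D + ((1 - x) * (a - 1)) • Z) =
      C0 + u • C1 + v • D + (δ * ((1 - x) * (a - 1))) • Z := by
  have e : α • (C0 + (a + a * x) • C1 + (a * (a * x)) • D) + β • (C0 + (1 + a) • C1 + a • D) +
      γ • (C0 + (1 + x) • C1 + x • D) +
      δ • (C0 + (2 : F) • C1 + D + ((1 - x) * (a - 1)) • Z) = (α + β + γ + δ) • C0 +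
      (α * (a + a * x) + β * (1 + a) + γ * (1 + x) + 2 * δ) • C1 +
      (α * (a * (a * x)) + β * a + γ * x + δ) • D + (δ * ((1 - x) * (a - 1))) • Z := by
    module
  rw [e, hS, hu, hv, one_smul]

/-- the field identities behind `E_{n,n-2} = ∑ (k_i/T_i) H_i` -/
lemma fld (a x s w1 w2 w3 w4 : F)
    (hat : a - s ≠ 0) (haxt : a * x - s ≠ 0) (hatx : a - s * x ≠ 0) (hat2 : a - s ^ 2 ≠ 0)
    (hxt : x - s ≠ 0)
    (e1 : w1 * ((a - s) * (a * x - s)) = s ^ 2 * x * (1 - a * x) * (1 - a))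
    (e2 : w2 * ((a * x - s) * (a - s * x) * (a - s ^ 2)) = - ((1 + x) * (a * x * s) *
      ((1 - a) * (x * a * (1 - a) + a * s * (1 - x) - x * s ^ 2 * (1 - a * x)))))
    (e3 : w3 * ((a - s * x) * (a - s) * (x - s)) = a * a * (x * (1 - a) * (x - a) * (1 - x * s)))
    (e4 : w4 * ((a - s ^ 2) * (x - s)) = a * (a * x) * ((1 - x) * (1 + x) * (1 - a))) :
    w1 + w2 + w3 + w4 = x * (1 - a) * (1 - a * x) ∧
    w1 * (a + a * x) + w2 * (a + s) + w3 * (s + s * x) + w4 * (s + s ^ 2) = 0 ∧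
    w1 * (a * (a * x)) + w2 * (a * s) + w3 * (s * (s * x)) + w4 * (s * s ^ 2) = 0 ∧
    w4 * ((s - x) * (a - s ^ 2)) = - (x * a * a * (1 + x) * (1 - x) * (1 - a)) := by
  have hQ : (a - s) * (a * x - s) * (a - s * x) * (a - s ^ 2) * (x - s) ≠ 0 :=
    mul_ne_zero (mul_ne_zero (mul_ne_zero (mul_ne_zero hat haxt) hatx) hat2) hxt
  refine ⟨?_, ?_, ?_, ?_⟩
  · apply mul_left_cancel₀ hQ
    linear_combination (a - s * x) * (a - s ^ 2) * (x - s) * e1 + (a - s) * (x - s) * e2 +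
      (a * x - s) * (a - s ^ 2) * e3 + (a - s) * (a * x - s) * (a - s * x) * e4
  · apply mul_left_cancel₀ hQ
    linear_combination (a + a * x) * (a - s * x) * (a - s ^ 2) * (x - s) * e1 +
      (a + s) * (a - s) * (x - s) * e2 +
      (s + s * x) * (a * x - s) * (a - s ^ 2) * e3 +
      (s + s ^ 2) * (a - s) * (a * x - s) * (a - s * x) * e4
  · apply mul_left_cancel₀ hQ
    linear_combination (a * (a * x)) * (a - s * x) * (a - s ^ 2) * (x - s) * e1 +
      (a * s) * (a - s) * (x - s) * e2 +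
      (s * (s * x)) * (a * x - s) * (a - s ^ 2) * e3 +
      (s * s ^ 2) * (a - s) * (a * x - s) * (a - s * x) * e4
  · linear_combination (-1) * e4

end gen

/-- the values of the coefficients `P k_i / (T_i / c)` -/
lemma wk (m : ℕ) :
    ((1 - q) ^ 2 * (1 + q) * k1 (m + 2)) * ((q ^ m - t) * (q ^ m * q - t)) =
      t ^ 2 * q * (1 - q ^ m * q) * (1 - q ^ m) ∧
    ((1 - q) ^ 2 * (1 + q) * k2 (m + 2) * (q ^ m * q / t)) *
      ((q ^ m * q - t) * (q ^ m - t * q) * (q ^ m - t ^ 2)) =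
      - ((1 + q) * (q ^ m * q * t) * ((1 - q ^ m) * (q * q ^ m * (1 - q ^ m) +
        q ^ m * t * (1 - q) - q * t ^ 2 * (1 - q ^ m * q)))) ∧
    ((1 - q) ^ 2 * (1 + q) * k3 (m + 2) * (q ^ m * q ^ m / t ^ 2)) *
      ((q ^ m - t * q) * (q ^ m - t) * (q - t)) =
      q ^ m * q ^ m * (q * (1 - q ^ m) * (q - q ^ m) * (1 - q * t)) ∧
    ((1 - q) ^ 2 * (1 + q) * k4 (m + 2) * (q ^ m * (q ^ m * q) / t ^ 3)) *
      ((q ^ m - t ^ 2) * (q - t)) = q ^ m * (q ^ m * q) * ((1 - q) * (1 + q) * (1 - q ^ m)) ∧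
    k4 (m + 2) * ((t - q) * (q ^ m - t ^ 2)) = - (t ^ 3 * br m) := by
  have h1 := one_sub_q_ne
  have h2 := one_add_q_ne
  have hs := t_ne
  have hat := a_sub_t_ne m
  have haxt : q ^ m * q - t ≠ 0 := by
    have := a_sub_t_ne (m + 1)
    rwa [pow_succ] at this
  have hatx := a_sub_tq_ne m
  have hat2 := a_sub_t2_ne m
  have hxt : q - t ≠ 0 := by
    have := a_sub_t_ne 1
    rwa [pow_one] at this
  have hta : t - q ^ m ≠ 0 := by
    intro h
    apply hat
    linear_combination -h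
  have htax : t - q ^ m * q ≠ 0 := by
    intro h
    apply haxt
    linear_combination -h
  have h12 : (1 : K) - q ^ 2 = (1 - q) * (1 + q) := by ring
  have hbr : br m * (1 - q) = 1 - q ^ m := by
    have := geom_sum_mul q m
    unfold br
    linear_combination -this
  have em : m + 2 - 2 = m := by omega
  refine ⟨?_, ?_, ?_, ?_, ?_⟩
  · rw [k1, em, h12]
    rw [show (1 - q) * ((1 - q) * (1 + q)) * (t - q ^ m) * (t - q ^ m * q) =
      ((1 - q) ^ 2 * (1 + q)) * ((q ^ m - t) * (q ^ m * q - t)) by ring]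
    have hD : (q ^ m - t) * (q ^ m * q - t) ≠ 0 := mul_ne_zero hat haxt
    generalize (q ^ m - t) * (q ^ m * q - t) = D at hD ⊢
    field_simp
  · rw [k2, em]
    rw [show (1 - q) ^ 2 * (t - q ^ m * q) * (q ^ m - t * q) * (q ^ m - t ^ 2) =
      -((1 - q) ^ 2 * ((q ^ m * q - t) * (q ^ m - t * q) * (q ^ m - t ^ 2))) by ring]
    have hD : (q ^ m * q - t) * (q ^ m - t * q) * (q ^ m - t ^ 2) ≠ 0 :=
      mul_ne_zero (mul_ne_zero haxt hatx) hat2
    generalize (q ^ m * q - t) * (q ^ m - t * q) * (q ^ m - t ^ 2) = D at hD ⊢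
    field_simp
  · rw [k3, em, h12]
    rw [show (1 - q) * ((1 - q) * (1 + q)) * (q ^ m - t * q) * (t - q ^ m) * (q - t) =
      -(((1 - q) ^ 2 * (1 + q)) * ((q ^ m - t * q) * (q ^ m - t) * (q - t))) by ring]
    have hD : (q ^ m - t * q) * (q ^ m - t) * (q - t) ≠ 0 :=
      mul_ne_zero (mul_ne_zero hatx hat) hxt
    generalize (q ^ m - t * q) * (q ^ m - t) * (q - t) = D at hD ⊢
    field_simp
  · rw [k4, em]
    rw [show (1 - q) * (q ^ m - t ^ 2) * (q - t) = (1 - q) * ((q ^ m - t ^ 2) * (q - t)) by ring]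
    have hD : (q ^ m - t ^ 2) * (q - t) ≠ 0 := mul_ne_zero hat2 hxt
    generalize (q ^ m - t ^ 2) * (q - t) = D at hD ⊢
    field_simp
  · rw [k4, em, ← hbr]
    field_simp
    ring

end FN3

open FN3 WRD in
theorem t_FN3 : Stmt_FN3 := by
  intro hHM hMAC hWRD hM22 hM211 hEX2 hEIG hCMU hCGP hPSI
  intro n hn H hH lam ml hlam nabla delta hnab hdel E hE
  obtain ⟨C0, hC0, C1, hC1, C2, hC2, C3, hC3, h33, hR0, hR1, hR2, hR3⟩ := hWRD n hn
  obtain ⟨hT1, hT2, hT4⟩ := hEIG.1 n hn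
  have hT3 := hEIG.2.1 n
  have hBp := fun k => hEIG.2.2 n k hn
  have hcop := hCGP (n - 2) lam hlam.1
  have hx := hEX2 n hn E hE
  obtain ⟨hMn, hMn1, -⟩ := hMAC n (by omega) H hH
  obtain ⟨α4, β4, γ4, δ4, hH4, hS4, hu4, hv4, hw4⟩ := hM211 n hn H hH
  have hM22' := hM22 n
  obtain ⟨m, rfl⟩ : ∃ m, n = m + 2 := ⟨n - 2, by omega⟩
  have hm : 1 ≤ m := by omega
  have em : m + 2 - 2 = m := by omega
  have em1 : m + 2 - 1 = m + 1 := by omega
  simp only [em, em1] at hT2 hT3 hT4 hBp hcop hx hMn1 hH4 hu4 hv4 hw4 hM22' hR0 hR1 hR2 hR3 hE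
  have hq := M22.q_ne
  have ht := M22.t_ne
  have h1q := M22.one_sub_q_ne
  have h2q := M22.one_add_q_ne
  have hc0 : q ^ (m + 2).choose 2 ≠ 0 := pow_ne_zero _ hq
  have ha0 : q ^ m ≠ 0 := pow_ne_zero _ hq
  -- the eigenvalue function
  set F : K → K → K := fun x y : K =>
    sN (fun k => (∑ j ∈ range m, (q ^ j) ^ (k + 1)) + (x ^ (k + 1) + y ^ (k + 1))) lam with hF
  have hev1 : ev (Bp [m + 2]) (sch lam) = F (q ^ m) (q ^ m * q) := by
    rw [ev_sch hHM, hF]
    congr 1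
    funext k
    exact (hBp k).1
  have hev2 : ev (Bp [m + 1, 1]) (sch lam) = F (q ^ m) t := by
    rw [ev_sch hHM, hF]
    congr 1
    funext k
    exact (hBp k).2.1
  have hev3 : ev (Bp [m, 2]) (sch lam) = F t (t * q) := by
    rw [ev_sch hHM, hF]
    congr 1
    funext k
    exact (hBp k).2.2.1
  have hev4 : ev (Bp [m, 1, 1]) (sch lam) = F t (t ^ 2) := by
    rw [ev_sch hHM, hF]
    congr 1
    funext k
    exact (hBp k).2.2.2
  have hP1 : IsPart (m + 2) [m + 2] := ⟨by simp, by simp, by simp⟩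
  have hP2 : IsPart (m + 2) [m + 1, 1] := by
    refine ⟨?_, ?_, ?_⟩
    · simp
    · simp
    · simp
  have hP4 : IsPart (m + 2) [m, 1, 1] := by
    refine ⟨?_, ?_, ?_⟩
    · simp; omega
    · simp; omega
    · simp
  -- the three first Macdonald polynomials
  set D : Lam := C2 + q⁻¹ • C3 with hD
  set Z : Lam := q⁻¹ • C3 with hZ
  set a : K := q ^ m with ha
  have hHe1 : H [m + 2] = C0 + (a + a * q) • C1 + (a * (a * q)) • D := by
    rw [hMn, hR0]
  have haq : 1 - a * q ≠ 0 := by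
    have := MACX.one_sub_ne (k := m + 1) (by omega)
    rwa [pow_succ] at this
  have hHe2 : H [m + 1, 1] = C0 + (a + t) • C1 + (a * t) • D := by
    have e1 : (1 - a * q) • H [m + 1, 1] =
        (1 - t) • WN (m + 2) + (t - a * q) • (X 0 * WN (m + 1)) := by
      rw [hMn1, An, Bn, em1, pow_succ, ← ha]
      have h11 : (C (1 - a * q) : Lam) * C ((1 - a * q)⁻¹) = 1 := by
        rw [← C_mul, mul_inv_cancel₀ haq, C_1]
      simp only [MvPolynomial.smul_eq_C_mul]
      simp only [C_mul, C_sub, C_1] at h11 ⊢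
      linear_combination ((WN (m + 2) - C a * C q * X 0 * WN (m + 1)) +
        C t * (X 0 * WN (m + 1) - WN (m + 2))) * h11
    have e2 : (1 - t) • WN (m + 2) + (t - a * q) • (X 0 * WN (m + 1)) =
        (1 - a * q) • (C0 + (a + t) • C1 + (a * t) • D) := by
      rw [hR0, hR1]
      exact g12 _ _ _ _ _ _
    exact smul_right_injective _ haq (e1.trans e2)
  have hHe4 : H [m, 1, 1] = C0 + (t + t ^ 2) • C1 + (t * t ^ 2) • D +
      ((t - q) * (a - t ^ 2)) • Z := by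
    rw [hH4, hR0, hR1, hR2, hR3, h4 C0 C1 D Z a q α4 β4 γ4 δ4 _ _ hS4 hu4 hv4]
    by_cases h : m = 1
    · have hZ0 : Z = 0 := by
        rw [hZ, h33 (by omega), smul_zero]
      rw [hZ0, smul_zero, smul_zero]
    · rw [hw4 (by omega)]
  obtain ⟨w1, w2, w3, w4, w5⟩ := wk m
  rw [← ha] at w1 w2 w3 w4 w5
  have hxt : q - t ≠ 0 := by
    have := M22.a_sub_t_ne 1
    rwa [pow_one] at this
  have haxt : a * q - t ≠ 0 := by
    have := M22.a_sub_t_ne (m + 1)
    rwa [pow_succ] at this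
  set P : K := (1 - q) ^ 2 * (1 + q) with hP
  have hP0 : P ≠ 0 := mul_ne_zero (pow_ne_zero _ h1q) h2q
  obtain ⟨g1, g2, g3, g4⟩ := fld a q t _ _ _ _ (M22.a_sub_t_ne m) haxt (M22.a_sub_tq_ne m)
    (M22.a_sub_t2_ne m) hxt w1 w2 w3 w4
  set H3 : Lam := C0 + (t + t * q) • C1 + (t * (t * q)) • D with hH3
  -- the function `E`
  have hEE : (P * q ^ (m + 2).choose 2) • E m =
      (P * k1 (m + 2)) • H [m + 2] + (P * k2 (m + 2) * (a * q / t)) • H [m + 1, 1] +
      (P * k3 (m + 2) * (a * a / t ^ 2)) • H3 +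
      (P * k4 (m + 2) * (a * (a * q) / t ^ 3)) • H [m, 1, 1] := by
    rw [hx, hR3, hR2, hR1, hR0, comb C0 C1 D Z a q, hHe1, hHe2, hHe4, hH3,
      four C0 C1 D Z a q t, g1, g2, g3, g4]
    exact zer _ _ _ _ _ _
  have hT2' : Tm [m + 1, 1] = t * q ^ (m + 2).choose 2 / (a * q) := by
    rw [eq_div_iff (mul_ne_zero ha0 hq)]
    exact hT2
  have hT4' : Tm [m, 1, 1] = t ^ 3 * q ^ (m + 2).choose 2 / (a * (a * q)) := by
    rw [eq_div_iff (mul_ne_zero ha0 (mul_ne_zero ha0 hq))]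
    exact hT4
  have hk3 : m = 1 → k3 (m + 2) = 0 := by
    intro h
    rw [k3, em, h, pow_one, sub_self]
    simp
  have hH3e : m ≠ 1 → H [m, 2] = H3 := by
    intro h
    obtain ⟨α, β, γ, hHb, hSb, hub, hvb⟩ := hM22' (by omega) H hH
    rw [hHb, hR0, hR1, hR2, h3 C0 C1 D a q α β γ _ _ hSb hub hvb]
  have hP3 : m ≠ 1 → IsPart (m + 2) [m, 2] := by
    intro h
    refine ⟨?_, ?_, ?_⟩
    · simp; omega
    · simp; omega
    · simp
  set c : K := q ^ (m + 2).choose 2 with hc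
  have hn1 : nabla ((P * k1 (m + 2)) • H [m + 2]) = (P * c * k1 (m + 2)) • H [m + 2] := by
    rw [map_smul, hnab _ hP1, hT1, smul_smul]
    congr 1
    ring
  have hn2 : nabla ((P * k2 (m + 2) * (a * q / t)) • H [m + 1, 1]) =
      (P * c * k2 (m + 2)) • H [m + 1, 1] := by
    rw [map_smul, hnab _ hP2, hT2', smul_smul]
    congr 1
    field_simp
  have hn3 : nabla ((P * k3 (m + 2) * (a * a / t ^ 2)) • H3) = (P * c * k3 (m + 2)) • H3 := by
    by_cases h : m = 1
    · rw [hk3 h]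
      simp
    · have hT3' : Tm [m, 2] = t ^ 2 * c / (a * a) := by
        rw [eq_div_iff (mul_ne_zero ha0 ha0)]
        exact hT3 (by omega)
      rw [← hH3e h, map_smul, hnab _ (hP3 h), hT3', smul_smul]
      congr 1
      field_simp
  have hn4 : nabla ((P * k4 (m + 2) * (a * (a * q) / t ^ 3)) • H [m, 1, 1]) =
      (P * c * k4 (m + 2)) • H [m, 1, 1] := by
    rw [map_smul, hnab _ hP4, hT4', smul_smul]
    congr 1
    field_simp
  have hnE : nabla (E m) = k1 (m + 2) • H [m + 2] + k2 (m + 2) • H [m + 1, 1] +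
      k3 (m + 2) • H3 + k4 (m + 2) • H [m, 1, 1] := by
    apply smul_right_injective _ (mul_ne_zero hP0 hc0)
    show (P * c) • nabla (E m) = (P * c) • _
    rw [← map_smul, hEE, map_add, map_add, map_add, hn1, hn2, hn3, hn4]
    exact fac _ _ _ _ _ _ _ _ _
  have hd3 : delta (k3 (m + 2) • H3) = (k3 (m + 2) * F t (t * q)) • H3 := by
    by_cases h : m = 1
    · rw [hk3 h]
      simp
    · rw [← hH3e h, map_smul, hdel _ (hP3 h), hev3, smul_smul]
  have hdE : delta (nabla (E m)) = (k1 (m + 2) * F a (a * q)) • H [m + 2] +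
      (k2 (m + 2) * F a t) • H [m + 1, 1] + (k3 (m + 2) * F t (t * q)) • H3 +
      (k4 (m + 2) * F t (t ^ 2)) • H [m, 1, 1] := by
    rw [hnE, map_add, map_add, map_add, hd3, map_smul, map_smul, map_smul, hdel _ hP1,
      hdel _ hP2, hdel _ hP4, hev1, hev2, hev4, smul_smul, smul_smul, smul_smul]
  have hFe1 : (fun x y => (x + y) * F x y) ∈ Cn := hCMU.1 _ hCMU.2.2.1 _ hcop
  have hFe2 : (fun x y => x * y * F x y) ∈ Cn := hCMU.1 _ hCMU.2.2.2 _ hcop
  obtain ⟨hp0, cc, hcc, hcce⟩ := hPSI (m + 2) (by omega) F hcop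
  have hp1 := (hPSI (m + 2) (by omega) _ hFe1).1
  have hp2 := (hPSI (m + 2) (by omega) _ hFe2).1
  rw [em] at hcce
  have hfin : delta (nabla (E m)) = Psi (m + 2) F • C0 +
      Psi (m + 2) (fun x y => (x + y) * F x y) • C1 +
      Psi (m + 2) (fun x y => x * y * F x y) • C2 + cc • C3 := by
    have hl := lst C0 C1 C2 C3 q (Psi (m + 2) F) (Psi (m + 2) (fun x y => (x + y) * F x y))
      (Psi (m + 2) (fun x y => x * y * F x y)) (- (t ^ 3 * br m) * F t (t ^ 2)) cc hq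
      (by linear_combination hcce)
    rw [← hl, hdE, hHe1, hHe2, hHe4, hH3, four C0 C1 D Z a q t]
    have q0 : k1 (m + 2) * F a (a * q) + k2 (m + 2) * F a t + k3 (m + 2) * F t (t * q) +
        k4 (m + 2) * F t (t ^ 2) = Psi (m + 2) F := by
      unfold Psi
      rw [em]
    have q1 : k1 (m + 2) * F a (a * q) * (a + a * q) + k2 (m + 2) * F a t * (a + t) +
        k3 (m + 2) * F t (t * q) * (t + t * q) + k4 (m + 2) * F t (t ^ 2) * (t + t ^ 2) =
        Psi (m + 2) (fun x y => (x + y) * F x y) := by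
      unfold Psi
      rw [em]
      ring
    have q2 : k1 (m + 2) * F a (a * q) * (a * (a * q)) + k2 (m + 2) * F a t * (a * t) +
        k3 (m + 2) * F t (t * q) * (t * (t * q)) + k4 (m + 2) * F t (t ^ 2) * (t * t ^ 2) =
        Psi (m + 2) (fun x y => x * y * F x y) := by
      unfold Psi
      rw [em]
      ring
    have q3 : k4 (m + 2) * F t (t ^ 2) * ((t - q) * (a - t ^ 2)) =
        - (t ^ 3 * br m) * F t (t ^ 2) := by
      linear_combination F t (t ^ 2) * w5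
    rw [q0, q1, q2, q3]
  rw [em, hfin]
  refine (SPos (m + 2)).add_mem ((SPos (m + 2)).add_mem ((SPos (m + 2)).add_mem ?_ ?_) ?_) ?_
  · exact smul_mem hp0 hC0
  · exact smul_mem hp1 hC1
  · exact smul_mem hp2 hC2
  · exact smul_mem hcc hC3

end Pool.Agent.NE3
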