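import Pool.Agent.NE3.Stmts

/-!
# Knuth moves
-/

set_option autoImplicit false

namespace Pool.Agent.NE3

open MvPolynomial Finset Pool.Agent.NEK

namespace KNU

theorem cont_cons {N : ℕ} (r : Fin N) (w : List (Fin N)) (i : Fin N) :
    cont (r :: w) i = cont w i + if r = i then 1 else 0 := by
  unfold cont
  rw [List.count_cons]
  simp

theorem anti_cont {N : ℕ} (w : List (Fin N)) (h : Bal w) : Antitone (cont w) := by
  cases w with
  | nil =>
    intro i j _
    unfold cont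
    simp
  | cons r w => exact h.2

theorem anti_cons {N : ℕ} (r : Fin N) (w : List (Fin N)) (h : Antitone (cont w))
    (h1 : ∀ i, i < r → cont w r + 1 ≤ cont w i) : Antitone (cont (r :: w)) := by
  intro i j hij
  rw [cont_cons, cont_cons]
  rcases hij.eq_or_lt with rfl | hlt
  · exact le_rfl
  · by_cases hj : r = j
    · subst hj
      have h2 := h1 i hlt
      rw [if_pos rfl]
      omega
    · have h2 := h hij
      rw [if_neg hj]
      omega

theorem cont_swap {N : ℕ} (a b : Fin N) (w : List (Fin N)) :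
    cont (a :: b :: w) = cont (b :: a :: w) := by
  funext i
  simp only [cont_cons]
  omega

/-- the first move -/
theorem move1 {N : ℕ} (w : List (Fin N)) (r1 r2 r3 : Fin N) (h : Antitone (cont w))
    (h1 : Antitone (cont (r1 :: w))) (h123 : Antitone (cont (r3 :: r2 :: r1 :: w)))
    (a : r2 ≤ r1) (b : r1 < r3) :
    Antitone (cont (r2 :: r1 :: w)) ∧ Antitone (cont (r3 :: r1 :: w)) := by
  have c : r2 < r3 := lt_of_le_of_lt a b
  constructor
  · apply anti_cons _ _ h1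
    intro i hi
    have h2 := h123 hi.le
    rw [cont_cons, cont_cons, cont_cons (r := r3), cont_cons (r := r2)] at h2
    rw [if_neg c.ne', if_pos rfl, if_neg (hi.trans c).ne', if_neg hi.ne'] at h2
    omega
  · apply anti_cons _ _ h1
    have key : ∀ i, i < r3 → i ≠ r2 → cont (r1 :: w) r3 + 1 ≤ cont (r1 :: w) i := by
      intro i hi hi2
      have h2 := h123 hi.le
      rw [cont_cons, cont_cons, cont_cons (r := r3), cont_cons (r := r2)] at h2
      rw [if_pos rfl, if_neg c.ne, if_neg hi.ne', if_neg hi2.symm] at h2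
      omega
    intro i hi
    by_cases hi2 : i = r2
    · subst hi2
      by_cases h3 : r1 = i
      · subst h3
        rw [cont_cons, cont_cons, if_neg b.ne, if_pos rfl]
        have := h b.le
        omega
      · have h4 := key r1 b h3
        exact h4.trans (h1 a)
    · exact key i hi hi2

/-- the second move -/
theorem move2 {N : ℕ} (w : List (Fin N)) (r1 r2 r3 : Fin N) (h : Antitone (cont w))
    (h12 : Antitone (cont (r2 :: r1 :: w))) (h123 : Antitone (cont (r3 :: r2 :: r1 :: w)))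
    (a : r2 < r3) (b : r3 ≤ r1) :
    Antitone (cont (r1 :: w)) ∧ Antitone (cont (r2 :: w)) := by
  have c : r2 < r1 := lt_of_lt_of_le a b
  constructor
  · apply anti_cons _ _ h
    have key : ∀ i, i < r1 → i ≠ r2 → cont w r1 + 1 ≤ cont w i := by
      intro i hi hi2
      have h2 := h12 hi.le
      rw [cont_cons, cont_cons, cont_cons (r := r2), cont_cons (r := r1)] at h2
      rw [if_neg c.ne, if_pos rfl, if_neg hi2.symm, if_neg hi.ne'] at h2
      omega
    intro i hi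
    by_cases hi2 : i = r2
    · subst hi2
      rcases b.eq_or_lt with h3 | h3
      · subst h3
        have h4 := h123 hi.le
        simp only [cont_cons, if_neg a.ne, if_neg a.ne', if_true] at h4
        omega
      · have h4 := key r3 h3 a.ne'
        exact h4.trans (h a.le)
    · exact key i hi hi2
  · apply anti_cons _ _ h
    intro i hi
    have h2 := h12 hi.le
    rw [cont_cons, cont_cons, cont_cons (r := r2), cont_cons (r := r1)] at h2
    rw [if_pos rfl, if_neg c.ne', if_neg hi.ne', if_neg (hi.trans c).ne'] at h2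
    omega

theorem bal1 {N : ℕ} (w : List (Fin N)) (r1 r2 r3 : Fin N) (a : r2 ≤ r1) (b : r1 < r3) :
    Bal (r3 :: r2 :: r1 :: w) ↔ Bal (r2 :: r3 :: r1 :: w) := by
  constructor
  · rintro ⟨⟨⟨h0, h1⟩, h2⟩, h3⟩
    have h := move1 w r1 r2 r3 (anti_cont w h0) h1 h3 a b
    refine ⟨⟨⟨h0, h1⟩, h.2⟩, ?_⟩
    rw [cont_swap]
    exact h3
  · rintro ⟨⟨⟨h0, h1⟩, h2⟩, h3⟩
    rw [cont_swap] at h3
    have h := move1 w r1 r2 r3 (anti_cont w h0) h1 h3 a b
    exact ⟨⟨⟨h0, h1⟩, h.1⟩, h3⟩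

theorem cont_swap2 {N : ℕ} (a b c : Fin N) (w : List (Fin N)) :
    cont (c :: a :: b :: w) = cont (c :: b :: a :: w) := by
  funext i
  simp only [cont_cons]
  omega

theorem bal2 {N : ℕ} (w : List (Fin N)) (r1 r2 r3 : Fin N) (a : r2 < r3) (b : r3 ≤ r1) :
    Bal (r3 :: r2 :: r1 :: w) ↔ Bal (r3 :: r1 :: r2 :: w) := by
  constructor
  · rintro ⟨⟨⟨h0, h1⟩, h2⟩, h3⟩
    have h := move2 w r1 r2 r3 (anti_cont w h0) h2 h3 a b
    refine ⟨⟨⟨h0, h.2⟩, ?_⟩, ?_⟩
    · rw [cont_swap]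
      exact h2
    · rw [cont_swap2]
      exact h3
  · rintro ⟨⟨⟨h0, h1⟩, h2⟩, h3⟩
    rw [cont_swap] at h2
    rw [cont_swap2] at h3
    have h := move2 w r1 r2 r3 (anti_cont w h0) h2 h3 a b
    exact ⟨⟨⟨h0, h.1⟩, h2⟩, h3⟩

end KNU

open KNU in
/-- Knuth moves do not change the value of a word. -/
theorem t_KNU : Stmt_KNU := by
  intro R _ _ P N w r1 r2 r3
  constructor
  · intro a b
    unfold valw
    rw [cont_swap r3 r2 (r1 :: w)]
    by_cases h : Bal (r3 :: r2 :: r1 :: w)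
    · rw [if_pos h, if_pos ((bal1 w r1 r2 r3 a b).1 h)]
    · rw [if_neg h, if_neg fun h' => h ((bal1 w r1 r2 r3 a b).2 h')]
  · intro a b
    unfold valw
    rw [cont_swap2 r2 r1 r3 w]
    by_cases h : Bal (r3 :: r2 :: r1 :: w)
    · rw [if_pos h, if_pos ((bal2 w r1 r2 r3 a b).1 h)]
    · rw [if_neg h, if_neg fun h' => h ((bal2 w r1 r2 r3 a b).2 h')]

/-- Sums over the last three letters. -/
theorem t_KNS : Stmt_KNS := by
  classical
  intro M _ N V h1 h2 p hp
  obtain ⟨A1, hA1⟩ : ∃ A : M, A = ∑ x : Fin N, ∑ r : Fin N, ∑ s : Fin N,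
      (if p x ∧ s ≤ x ∧ x < r then V s r x else 0) := ⟨_, rfl⟩
  obtain ⟨A2, hA2⟩ : ∃ A : M, A = ∑ x : Fin N, ∑ r : Fin N, ∑ s : Fin N,
      (if p x ∧ x < s ∧ s ≤ r then V s r x else 0) := ⟨_, rfl⟩
  obtain ⟨A3, hA3⟩ : ∃ A : M, A = ∑ x : Fin N, ∑ r : Fin N, ∑ s : Fin N,
      (if p r ∧ x < s ∧ s ≤ r then V s r x else 0) := ⟨_, rfl⟩
  have e1 : ∑ x : Fin N, ∑ r : Fin N, ∑ s : Fin N,
      (if p x ∧ x < r ∧ s ≤ r then V s r x else 0) = A1 + A2 := by
    rw [hA1, hA2]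
    simp only [← Finset.sum_add_distrib]
    refine Finset.sum_congr rfl fun x _ => Finset.sum_congr rfl fun r _ =>
      Finset.sum_congr rfl fun s _ => ?_
    by_cases hc : s ≤ x
    · have d2 : ¬ (p x ∧ x < s ∧ s ≤ r) := fun h => absurd h.2.1 (not_lt.2 hc)
      rw [if_neg d2, add_zero]
      by_cases hd : p x ∧ x < r ∧ s ≤ r
      · rw [if_pos hd, if_pos ⟨hd.1, hc, hd.2.1⟩]
      · rw [if_neg hd, if_neg fun h => hd ⟨h.1, h.2.2, hc.trans h.2.2.le⟩]
    · have d1 : ¬ (p x ∧ s ≤ x ∧ x < r) := fun h => hc h.2.1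
      rw [if_neg d1, zero_add]
      have hc' := not_le.1 hc
      by_cases hd : p x ∧ x < r ∧ s ≤ r
      · rw [if_pos hd, if_pos ⟨hd.1, hc', hd.2.2⟩]
      · rw [if_neg hd, if_neg fun h => hd ⟨h.1, lt_of_lt_of_le hc' h.2.2, h.2.2⟩]
  have e2 : ∑ x : Fin N, ∑ r : Fin N, ∑ s : Fin N,
      (if p x ∧ r ≤ x ∧ r < s then V s r x else 0) = A1 + A3 := by
    have q1 : ∑ x : Fin N, ∑ r : Fin N, ∑ s : Fin N,
        (if p x ∧ r ≤ x ∧ r < s then V s r x else 0) =
        (∑ x : Fin N, ∑ r : Fin N, ∑ s : Fin N,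
          (if p x ∧ r ≤ x ∧ x < s then V r s x else 0)) +
        ∑ x : Fin N, ∑ r : Fin N, ∑ s : Fin N,
          (if p x ∧ r < s ∧ s ≤ x then V s x r else 0) := by
      simp only [← Finset.sum_add_distrib]
      refine Finset.sum_congr rfl fun x _ => Finset.sum_congr rfl fun r _ =>
        Finset.sum_congr rfl fun s _ => ?_
      by_cases hc : s ≤ x
      · have d2 : ¬ (p x ∧ r ≤ x ∧ x < s) := fun h => absurd h.2.2 (not_lt.2 hc)
        rw [if_neg d2, zero_add]
        by_cases hd : p x ∧ r ≤ x ∧ r < s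
        · rw [if_pos hd, if_pos ⟨hd.1, hd.2.2, hc⟩, h2 x r s hd.2.2 hc]
        · rw [if_neg hd, if_neg fun h => hd ⟨h.1, h.2.1.le.trans hc, h.2.1⟩]
      · have d1 : ¬ (p x ∧ r < s ∧ s ≤ x) := fun h => hc h.2.2
        rw [if_neg d1, add_zero]
        have hc' := not_le.1 hc
        by_cases hd : p x ∧ r ≤ x ∧ r < s
        · rw [if_pos hd, if_pos ⟨hd.1, hd.2.1, hc'⟩, h1 x r s hd.2.1 hc']
        · rw [if_neg hd, if_neg fun h => hd ⟨h.1, h.2.1, lt_of_le_of_lt h.2.1 hc'⟩]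
    have q2 : ∑ x : Fin N, ∑ r : Fin N, ∑ s : Fin N,
        (if p x ∧ r ≤ x ∧ x < s then V r s x else 0) = A1 := by
      rw [hA1]
      exact Finset.sum_congr rfl fun x _ => Finset.sum_comm
    have q3 : ∑ x : Fin N, ∑ r : Fin N, ∑ s : Fin N,
        (if p x ∧ r < s ∧ s ≤ x then V s x r else 0) = A3 := by
      rw [hA3]
      exact Finset.sum_comm
    rw [q1, q2, q3]
  have e3 : A2 = A3 + ∑ x : Fin N, ∑ r : Fin N, ∑ s : Fin N,
      (if p x ∧ ¬ p r ∧ x < s ∧ s ≤ r then V s r x else 0) := by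
    rw [hA2, hA3]
    simp only [← Finset.sum_add_distrib]
    refine Finset.sum_congr rfl fun x _ => Finset.sum_congr rfl fun r _ =>
      Finset.sum_congr rfl fun s _ => ?_
    by_cases hr : p r
    · have d1 : ¬ (p x ∧ ¬ p r ∧ x < s ∧ s ≤ r) := fun h => h.2.1 hr
      rw [if_neg d1, add_zero]
      by_cases hd : p r ∧ x < s ∧ s ≤ r
      · rw [if_pos hd, if_pos ⟨hp r x hr (hd.2.1.le.trans hd.2.2), hd.2⟩]
      · rw [if_neg hd, if_neg fun h => hd ⟨hr, h.2⟩]
    · have d1 : ¬ (p r ∧ x < s ∧ s ≤ r) := fun h => hr h.1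
      rw [if_neg d1, zero_add]
      by_cases hd : p x ∧ x < s ∧ s ≤ r
      · rw [if_pos hd, if_pos ⟨hd.1, hr, hd.2⟩]
      · rw [if_neg hd, if_neg fun h => hd ⟨h.1, h.2.2⟩]
  have g : ∑ x : Fin N, ∑ r : Fin N, ∑ s : Fin N,
      (if p x ∧ x < r ∧ s ≤ r then V s r x else 0) =
      ∑ x : Fin N, ∑ r : Fin N, ∑ s : Fin N,
        (if p x ∧ r ≤ x ∧ r < s then V s r x else 0) +
      ∑ x : Fin N, ∑ r : Fin N, ∑ s : Fin N,
        (if p x ∧ ¬ p r ∧ x < s ∧ s ≤ r then V s r x else 0) := by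
    rw [e1, e2, e3, add_assoc]
  convert g using 6

end Pool.Agent.NE3
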