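import Pool.Agent.NE3.Stmts
import Pool.Agent.NEK.EVW
import Pool.Agent.NEK.MAC

/-!
# Solving for the Macdonald polynomials of `(n-2,2)` and `(n-2,1,1)`
-/

set_option autoImplicit false

namespace Pool.Agent.NE3

open MvPolynomial Finset Pool.Agent.NEK

namespace M22

open Pool.Agent.NEK.EVW (lift_ne)

/-! ### non-vanishing -/

lemma one_sub_q_ne : (1 : K) - q ≠ 0 := by
  have := MACX.one_sub_ne (le_refl 1)
  rwa [pow_one] at this

lemma one_add_q_ne : (1 : K) + q ≠ 0 := by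
  have h := lift_ne (f := 1 + X 0) (g := 0) ![1, 2] (by simp)
  rw [map_add, map_one, map_zero] at h
  exact h

lemma q_ne : q ≠ 0 := by
  have h := lift_ne (f := X 0) (g := 0) ![1, 2] (by simp)
  rw [map_zero] at h
  exact h

lemma t_ne : t ≠ 0 := by
  have h := lift_ne (f := X 1) (g := 0) ![1, 2] (by simp)
  rw [map_zero] at h
  exact h

lemma one_sub_t_ne : (1 : K) - t ≠ 0 := by
  have h := lift_ne (f := 1 - X 1) (g := 0) ![1, 2] (by simp; norm_num)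
  rw [map_sub, map_one, map_zero] at h
  exact h

/-- `q^m - t^i q^j ≠ 0` for `i ≥ 1` -/
lemma pow_sub_ne (m i j : ℕ) (hi : 1 ≤ i) : q ^ m - t ^ i * q ^ j ≠ 0 := by
  rw [sub_ne_zero]
  have h := lift_ne (f := X 0 ^ m) (g := X 1 ^ i * X 0 ^ j) ![1, 2] (by
    have h1 : (1 : ℚ) < 2 ^ i := one_lt_pow₀ (by norm_num) (by omega)
    simp
    exact ne_of_lt h1)
  rw [map_mul, map_pow, map_pow, map_pow] at h
  exact h

lemma a_sub_t_ne (m : ℕ) : q ^ m - t ≠ 0 := by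
  have := pow_sub_ne m 1 0 le_rfl
  simpa using this

lemma a_sub_tq_ne (m : ℕ) : q ^ m - t * q ≠ 0 := by
  have := pow_sub_ne m 1 1 le_rfl
  simpa using this

lemma a_sub_t2_ne (m : ℕ) : q ^ m - t ^ 2 ≠ 0 := by
  have := pow_sub_ne m 2 0 (by norm_num)
  simpa using this

lemma qf_succ (n : ℕ) : qf (n + 1) = qf n * (1 - q ^ n * q) := by
  rw [MACX.qf_succ, pow_succ]

lemma qf_ne (n : ℕ) : qf n ≠ 0 := MACX.qf_ne n

/-! ### values of `ET` -/

lemma ET_C (c : K) : ET (C c) = Polynomial.C c := by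
  have := ET.commutes c
  exact this

lemma ET_WN (n : ℕ) : ET (WN n) = Polynomial.C (qf n) * ET (wN n) := by
  rw [WN, map_mul, ET_C]

/-- the coefficient of `Z^0` of `ET f` -/
noncomputable def f0 (f : Lam) : K := (ET f).coeff 0
/-- the coefficient of `Z^1` of `ET f` -/
noncomputable def f1 (f : Lam) : K := (ET f).coeff 1
/-- the value of `ET f` at `t` -/
noncomputable def ft (f : Lam) : K := (ET f).eval t

lemma f0_add (f g : Lam) : f0 (f + g) = f0 f + f0 g := by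
  rw [f0, map_add, Polynomial.coeff_add]; rfl
lemma f1_add (f g : Lam) : f1 (f + g) = f1 f + f1 g := by
  rw [f1, map_add, Polynomial.coeff_add]; rfl
lemma ft_add (f g : Lam) : ft (f + g) = ft f + ft g := by
  rw [ft, map_add, Polynomial.eval_add]; rfl
lemma f0_smul (c : K) (g : Lam) : f0 (c • g) = c * f0 g := by
  rw [f0, map_smul, Polynomial.coeff_smul, smul_eq_mul]; rfl
lemma f1_smul (c : K) (g : Lam) : f1 (c • g) = c * f1 g := by
  rw [f1, map_smul, Polynomial.coeff_smul, smul_eq_mul]; rfl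
lemma ft_smul (c : K) (g : Lam) : ft (c • g) = c * ft g := by
  rw [ft, map_smul, Polynomial.eval_smul, smul_eq_mul]; rfl
lemma f0_mul (f g : Lam) : f0 (f * g) = f0 f * f0 g := by
  rw [f0, map_mul, Polynomial.mul_coeff_zero]; rfl
lemma f1_mul (f g : Lam) : f1 (f * g) = f0 f * f1 g + f1 f * f0 g := by
  rw [f1, map_mul, Polynomial.mul_coeff_one]; rfl
lemma ft_mul (f g : Lam) : ft (f * g) = ft f * ft g := by
  rw [ft, map_mul, Polynomial.eval_mul]; rfl

section vals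

variable (hEVN : Stmt_EVN)

include hEVN

lemma f0_X : f0 (X 0) = 1 - t := by
  rw [f0, hEVN.2.2.2.2.2, Polynomial.mul_coeff_zero]
  simp
lemma f1_X : f1 (X 0) = 1 - t := by
  rw [f1, hEVN.2.2.2.2.2, Polynomial.mul_coeff_one]
  simp [Polynomial.coeff_one]
lemma ft_X : ft (X 0) = 1 - t ^ 2 := by
  rw [ft, hEVN.2.2.2.2.2]
  simp
  ring

lemma f0_WN (n : ℕ) : f0 (WN n) = qf n * cN t n := by
  rw [f0, ET_WN, Polynomial.coeff_C_mul, (hEVN.2.2.1 n).1]
lemma f1_WN (n : ℕ) (hn : 1 ≤ n) : f1 (WN n) = qf n * (cN t (n - 1) * cN t 1) := by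
  rw [f1, ET_WN, Polynomial.coeff_C_mul, (hEVN.2.2.1 n).2 hn]
lemma ft_WN (n : ℕ) : ft (WN n) = qf n * cN (t ^ 2) n := by
  rw [ft, ET_WN, Polynomial.eval_mul, Polynomial.eval_C, hEVN.2.2.2.1]

/-- `(1 - q) c_1 = 1 - s` -/
lemma c1 (s : K) : (1 - q) * cN s 1 = 1 - s := by
  have h := hEVN.2.1 s 1 le_rfl
  rw [Nat.sub_self, pow_zero, hEVN.1, mul_one, pow_one] at h
  exact h

/-- `(q;q)_k c_k` -/
lemma qc_succ (s : K) (m : ℕ) :
    qf (m + 1) * cN s (m + 1) = (q ^ m - s) * (qf m * cN s m) := by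
  have h := hEVN.2.1 s (m + 1) (by omega)
  rw [Nat.add_sub_cancel, pow_succ] at h
  rw [qf_succ]
  linear_combination qf m * h

lemma qc1 (s : K) : qf 1 * cN s 1 = 1 - s := by
  rw [MACX.qf_one, c1 hEVN]

lemma qc2 (s : K) : qf 2 * cN s 2 = (q - s) * (1 - s) := by
  rw [qc_succ hEVN, qc1 hEVN, pow_one]

lemma d_ne (m : ℕ) : qf m * cN t m ≠ 0 := mul_ne_zero (qf_ne m) (hEVN.2.2.2.2.1 m).1
lemma d'_ne (m : ℕ) : qf m * cN (t ^ 2) m ≠ 0 := mul_ne_zero (qf_ne m) (hEVN.2.2.2.2.1 m).2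

lemma f0_R0 (m : ℕ) : f0 (WN (m + 2)) =
    (q ^ m * q - t) * (q ^ m - t) * (qf m * cN t m) := by
  rw [f0_WN hEVN, qc_succ hEVN, qc_succ hEVN, pow_succ]
  ring
lemma f0_R1 (m : ℕ) : f0 (X 0 * WN (m + 1)) = (1 - t) * (q ^ m - t) * (qf m * cN t m) := by
  rw [f0_mul, f0_X hEVN, f0_WN hEVN, qc_succ hEVN]
  ring
lemma f0_R2 (m : ℕ) : f0 (WN 2 * WN m) = (q - t) * (1 - t) * (qf m * cN t m) := by
  rw [f0_mul, f0_WN hEVN, f0_WN hEVN, qc2 hEVN]
lemma f0_R3 (m : ℕ) : f0 (X 0 * X 0 * WN m) = (1 - t) * (1 - t) * (qf m * cN t m) := by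
  rw [f0_mul, f0_mul, f0_X hEVN, f0_WN hEVN]

lemma ft_R0 (m : ℕ) : ft (WN (m + 2)) =
    (q ^ m * q - t ^ 2) * (q ^ m - t ^ 2) * (qf m * cN (t ^ 2) m) := by
  rw [ft_WN hEVN, qc_succ hEVN, qc_succ hEVN, pow_succ]
  ring
lemma ft_R1 (m : ℕ) : ft (X 0 * WN (m + 1)) =
    (1 - t ^ 2) * (q ^ m - t ^ 2) * (qf m * cN (t ^ 2) m) := by
  rw [ft_mul, ft_X hEVN, ft_WN hEVN, qc_succ hEVN]
  ring
lemma ft_R2 (m : ℕ) : ft (WN 2 * WN m) =
    (q - t ^ 2) * (1 - t ^ 2) * (qf m * cN (t ^ 2) m) := by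
  rw [ft_mul, ft_WN hEVN, ft_WN hEVN, qc2 hEVN]
lemma ft_R3 (m : ℕ) : ft (X 0 * X 0 * WN m) =
    (1 - t ^ 2) * (1 - t ^ 2) * (qf m * cN (t ^ 2) m) := by
  rw [ft_mul, ft_mul, ft_X hEVN, ft_WN hEVN]

/-- `(a - tq) (q;q)_m c_{m-1}` -/
lemma cprev (m : ℕ) (hm : 1 ≤ m) :
    (q ^ m - t * q) * (qf m * cN t (m - 1)) = q * (1 - q ^ m) * (qf m * cN t m) := by
  have h := hEVN.2.1 t m hm
  obtain ⟨k, rfl⟩ : ∃ k, m = k + 1 := ⟨m - 1, by omega⟩
  rw [Nat.add_sub_cancel] at h ⊢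
  rw [pow_succ] at h ⊢
  linear_combination (- q * qf (k + 1)) * h

lemma f1_R0 (m : ℕ) : (1 - q) * f1 (WN (m + 2)) =
    (1 - t) * (1 - q ^ m * q * q) * (q ^ m - t) * (qf m * cN t m) := by
  rw [f1_WN hEVN _ (by omega)]
  have h1 := qc_succ hEVN t m
  have h2 := c1 hEVN t
  have h3 : m + 2 - 1 = m + 1 := by omega
  rw [h3, qf_succ (m + 1), pow_succ]
  linear_combination (1 - q ^ m * q * q) * (1 - q) * cN t 1 * h1 +
    (1 - q ^ m * q * q) * ((q ^ m - t) * (qf m * cN t m)) * h2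

lemma f1_R1 (m : ℕ) : (1 - q) * f1 (X 0 * WN (m + 1)) =
    (1 - t) * ((1 - q ^ m * q) * (1 - t) + (1 - q) * (q ^ m - t)) * (qf m * cN t m) := by
  rw [f1_mul, f0_X hEVN, f1_X hEVN, f0_WN hEVN, f1_WN hEVN _ (by omega)]
  have h1 := qc_succ hEVN t m
  have h2 := c1 hEVN t
  have h3 : m + 1 - 1 = m := by omega
  rw [h1, h3, qf_succ m]
  linear_combination (1 - t) * (qf m * (1 - q ^ m * q)) * cN t m * h2

lemma f1_R2 (m : ℕ) (hm : 1 ≤ m) : (1 - q) * (q ^ m - t * q) * f1 (WN 2 * WN m) =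
    (1 - t) * ((1 - t) * (q * (1 - q ^ m) * (q - t) + (q ^ m - t * q) * (1 - q ^ 2))) *
      (qf m * cN t m) := by
  rw [f1_mul, f0_WN hEVN, f1_WN hEVN 2 (by omega), f0_WN hEVN, f1_WN hEVN _ hm, qc2 hEVN]
  have h2 := c1 hEVN t
  have h4 := cprev hEVN m hm
  have h3 : 2 - 1 = 1 := by omega
  have h5 : qf 2 = (1 - q) * (1 - q ^ 2) := by
    rw [qf_succ, MACX.qf_one, pow_one]
    ring
  rw [h3, h5]
  have h6 : (1 - q) ^ 2 * cN t 1 ^ 2 = (1 - t) ^ 2 := by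
    rw [← mul_pow, h2]
  linear_combination (q - t) * (1 - t) * ((1 - q) * cN t 1) * h4 +
    (q - t) * (1 - t) * (q * (1 - q ^ m) * (qf m * cN t m)) * h2 +
    (q ^ m - t * q) * (1 - q ^ 2) * (qf m * cN t m) * h6

lemma f1_R3 (m : ℕ) (hm : 1 ≤ m) : (1 - q) * (q ^ m - t * q) * f1 (X 0 * X 0 * WN m) =
    (1 - t) * ((1 - t) * (q * (1 - q ^ m) * (1 - t) + 2 * (1 - q) * (q ^ m - t * q))) *
      (qf m * cN t m) := by
  rw [f1_mul, f1_mul, f0_mul, f0_X hEVN, f1_X hEVN, f0_WN hEVN, f1_WN hEVN _ hm]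
  have h2 := c1 hEVN t
  have h4 := cprev hEVN m hm
  linear_combination (1 - t) * (1 - t) * ((1 - q) * cN t 1) * h4 +
    (1 - t) * (1 - t) * (q * (1 - q ^ m) * (qf m * cN t m)) * h2

end vals

end M22

open M22

theorem t_M22 : Stmt_TRI → Stmt_EVN → Stmt_M22 := by
  intro hTRI hEVN n hn H hH
  obtain ⟨hdvd, α, β, γ, hS, hHe⟩ := (hTRI n (by omega) H hH).1 hn
  refine ⟨α, β, γ, hHe, hS, ?_⟩
  obtain ⟨m, rfl⟩ : ∃ m, n = m + 2 := ⟨n - 2, by omega⟩
  have hm : 1 ≤ m := by omega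
  have e1 : m + 2 - 2 = m := by omega
  have e2 : m + 2 - 1 = m + 1 := by omega
  rw [e1] at hdvd hHe ⊢
  rw [e2] at hHe
  have hd := d_ne hEVN m
  have hc0 : f0 (H [m, 2]) = 0 := (Polynomial.X_pow_dvd_iff.mp hdvd) 0 (by omega)
  have hc1 : f1 (H [m, 2]) = 0 := (Polynomial.X_pow_dvd_iff.mp hdvd) 1 (by omega)
  rw [hHe, f0_add, f0_add, f0_smul, f0_smul, f0_smul, f0_R0 hEVN, f0_R1 hEVN, f0_R2 hEVN] at hc0
  rw [hHe, f1_add, f1_add, f1_smul, f1_smul, f1_smul] at hc1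
  have h0 := f1_R0 hEVN m
  have h1 := f1_R1 hEVN m
  have h2 := f1_R2 hEVN m hm
  set d := qf m * cN t m with hddef
  set a := q ^ m with ha
  have hA : α * (a * (a * q)) + β * a + γ * q -
      t * (α * (a + a * q) + β * (1 + a) + γ * (1 + q)) + t ^ 2 * (α + β + γ) = 0 := by
    have h := mul_left_cancel₀ hd (a := d) (b := α * ((a * q - t) * (a - t)) +
      β * ((1 - t) * (a - t)) + γ * ((q - t) * (1 - t))) (c := 0)
      (by rw [mul_zero]; linear_combination hc0)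
    linear_combination h
  have hB : α * ((1 - a * q * q) * (a - t) * (a - t * q)) +
      β * ((a - t * q) * ((1 - a * q) * (1 - t) + (1 - q) * (a - t))) +
      γ * ((1 - t) * (q * (1 - a) * (q - t) + (a - t * q) * (1 - q ^ 2))) = 0 := by
    have h := mul_left_cancel₀ (mul_ne_zero hd one_sub_t_ne) (a := d * (1 - t))
      (b := α * ((1 - a * q * q) * (a - t) * (a - t * q)) +
      β * ((a - t * q) * ((1 - a * q) * (1 - t) + (1 - q) * (a - t))) +
      γ * ((1 - t) * (q * (1 - a) * (q - t) + (a - t * q) * (1 - q ^ 2)))) (c := 0)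
      (by
        rw [mul_zero]
        linear_combination (1 - q) * (a - t * q) * hc1 - α * (a - t * q) * h0 -
          β * (a - t * q) * h1 - γ * h2)
    exact h
  have hX : (1 - q) * (a - t ^ 2) *
      (α * (a + a * q) + β * (1 + a) + γ * (1 + q) - (t + t * q)) = 0 := by
    linear_combination hB + (a * q + t - q - q ^ 2 * t) * hA -
      (-(t * (a + a * q * t - a * q ^ 2 - q * t)) + (a * q + t - q - q ^ 2 * t) * t ^ 2) * hS
  have hX1 : α * (a + a * q) + β * (1 + a) + γ * (1 + q) = t + t * q := by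
    have h := mul_left_cancel₀ (mul_ne_zero one_sub_q_ne (a_sub_t2_ne m))
      (b := α * (a + a * q) + β * (1 + a) + γ * (1 + q) - (t + t * q)) (c := 0)
      (by rw [mul_zero]; exact hX)
    exact sub_eq_zero.mp h
  refine ⟨hX1, ?_⟩
  linear_combination hA + t * hX1 - t ^ 2 * hS

theorem t_M211 : Stmt_TRI → Stmt_EVN → Stmt_M211 := by
  intro hTRI hEVN n hn H hH
  obtain ⟨hET, α, β, γ, δ, hS, hHe⟩ := (hTRI n (by omega) H hH).2
  refine ⟨α, β, γ, δ, hHe, hS, ?_⟩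
  obtain ⟨m, rfl⟩ : ∃ m, n = m + 2 := ⟨n - 2, by omega⟩
  have hm : 1 ≤ m := by omega
  have e1 : m + 2 - 2 = m := by omega
  have e2 : m + 2 - 1 = m + 1 := by omega
  rw [e1] at hET hHe ⊢
  rw [e2] at hHe
  have hd := d_ne hEVN m
  have hd' := d'_ne hEVN m
  have hc0 : f0 (H [m, 1, 1]) = 0 := by rw [f0, hET, Polynomial.coeff_zero]
  have hc1 : f1 (H [m, 1, 1]) = 0 := by rw [f1, hET, Polynomial.coeff_zero]
  have hct : ft (H [m, 1, 1]) = 0 := by rw [ft, hET, Polynomial.eval_zero]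
  rw [hHe, f0_add, f0_add, f0_add, f0_smul, f0_smul, f0_smul, f0_smul, f0_R0 hEVN, f0_R1 hEVN,
    f0_R2 hEVN, f0_R3 hEVN] at hc0
  rw [hHe, ft_add, ft_add, ft_add, ft_smul, ft_smul, ft_smul, ft_smul, ft_R0 hEVN, ft_R1 hEVN,
    ft_R2 hEVN, ft_R3 hEVN] at hct
  rw [hHe, f1_add, f1_add, f1_add, f1_smul, f1_smul, f1_smul, f1_smul] at hc1
  have h0 := f1_R0 hEVN m
  have h1 := f1_R1 hEVN m
  have h2 := f1_R2 hEVN m hm
  have h3 := f1_R3 hEVN m hm
  set d := qf m * cN t m with hddef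
  set d' := qf m * cN (t ^ 2) m with hddef'
  set a := q ^ m with ha
  have hA : α * (a * (a * q)) + β * a + γ * q + δ -
      t * (α * (a + a * q) + β * (1 + a) + γ * (1 + q) + 2 * δ) +
      t ^ 2 * (α + β + γ + δ) = 0 := by
    have h := mul_left_cancel₀ hd (a := d) (b := α * ((a * q - t) * (a - t)) +
      β * ((1 - t) * (a - t)) + γ * ((q - t) * (1 - t)) + δ * ((1 - t) * (1 - t))) (c := 0)
      (by rw [mul_zero]; linear_combination hc0)
    linear_combination h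
  have hT : α * (a * (a * q)) + β * a + γ * q + δ -
      t ^ 2 * (α * (a + a * q) + β * (1 + a) + γ * (1 + q) + 2 * δ) +
      t ^ 4 * (α + β + γ + δ) = 0 := by
    have h := mul_left_cancel₀ hd' (a := d') (b := α * ((a * q - t ^ 2) * (a - t ^ 2)) +
      β * ((1 - t ^ 2) * (a - t ^ 2)) + γ * ((q - t ^ 2) * (1 - t ^ 2)) +
      δ * ((1 - t ^ 2) * (1 - t ^ 2))) (c := 0)
      (by rw [mul_zero]; linear_combination hct)
    linear_combination h
  have hX1 : α * (a + a * q) + β * (1 + a) + γ * (1 + q) + 2 * δ = t + t ^ 2 := by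
    have h := mul_left_cancel₀ (mul_ne_zero t_ne one_sub_t_ne) (a := t * (1 - t))
      (b := α * (a + a * q) + β * (1 + a) + γ * (1 + q) + 2 * δ) (c := t + t ^ 2)
      (by linear_combination hT - hA + (t ^ 2 - t ^ 4) * hS)
    exact h
  have hX2 : α * (a * (a * q)) + β * a + γ * q + δ = t * t ^ 2 := by
    linear_combination hA + t * hX1 - t ^ 2 * hS
  refine ⟨hX1, hX2, fun _ => ?_⟩
  have hB : α * ((1 - a * q * q) * (a - t) * (a - t * q)) +
      β * ((a - t * q) * ((1 - a * q) * (1 - t) + (1 - q) * (a - t))) +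
      γ * ((1 - t) * (q * (1 - a) * (q - t) + (a - t * q) * (1 - q ^ 2))) +
      δ * ((1 - t) * (q * (1 - a) * (1 - t) + 2 * (1 - q) * (a - t * q))) = 0 := by
    have h := mul_left_cancel₀ (mul_ne_zero hd one_sub_t_ne) (a := d * (1 - t))
      (b := α * ((1 - a * q * q) * (a - t) * (a - t * q)) +
      β * ((a - t * q) * ((1 - a * q) * (1 - t) + (1 - q) * (a - t))) +
      γ * ((1 - t) * (q * (1 - a) * (q - t) + (a - t * q) * (1 - q ^ 2))) +
      δ * ((1 - t) * (q * (1 - a) * (1 - t) + 2 * (1 - q) * (a - t * q)))) (c := 0)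
      (by
        rw [mul_zero]
        linear_combination (1 - q) * (a - t * q) * hc1 - α * (a - t * q) * h0 -
          β * (a - t * q) * h1 - γ * h2 - δ * h3)
    exact h
  have h := mul_left_cancel₀ (mul_ne_zero t_ne one_sub_q_ne) (a := t * (1 - q))
    (b := δ * ((1 - q) * (a - 1))) (c := (t - q) * (a - t ^ 2))
    (by
      linear_combination (-1) * hB +
        (-(t * (a + a * q * t - a * q ^ 2 - q * t))) * hS +
        (-(a * q - a - a * q * t + q * t + q ^ 2 * t ^ 2 - q * t ^ 2)) * hX1 +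
        (-(a * q + t - q - q ^ 2 * t)) * hX2)
  exact h

end Pool.Agent.NE3
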