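import Pool.Agent.NE3.Stmts
import Pool.Agent.NEK.EVW

/-!
# Positivity of the functional `Ψ`
-/

set_option autoImplicit false

namespace Pool.Agent.NE3

open MvPolynomial Finset Pool.Agent.NEK

namespace PSI

/-! ### `ℕ[q,t]` -/

lemma q_mem : q ∈ NN := Subsemiring.subset_closure (by simp)

lemma t_mem : t ∈ NN := Subsemiring.subset_closure (by simp)

lemma br_mem (m : ℕ) : br m ∈ NN := NN.sum_mem fun i _ => NN.pow_mem q_mem i

lemma br_zero : br 0 = 0 := by simp [br]

lemma br_succ (m : ℕ) : br (m + 1) = br m + q ^ m := by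
  unfold br
  rw [sum_range_succ]

lemma br_eq (m : ℕ) : (1 - q) * br m = 1 - q ^ m := by
  induction m with
  | zero => rw [br_zero]; ring
  | succ m ih => rw [br_succ, mul_add, ih]; ring

/-! ### nonvanishing -/

lemma one_sub_q : (1 : K) - q ≠ 0 := by
  have := EVW.one_sub_ne (k := 1) le_rfl
  rwa [pow_one] at this

lemma one_add_q : (1 : K) + q ≠ 0 := by
  have h := EVW.lift_ne (f := 1 + X 0) (g := 0) ![1, 0] (by simp)
  rw [map_add, map_one, map_zero] at h
  exact h

lemma one_sub_q2 : (1 : K) - q ^ 2 ≠ 0 := EVW.one_sub_ne (k := 2) (by omega)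

lemma q_ne : (q : K) ≠ 0 := by
  have h := EVW.lift_ne (f := X 0) (g := 0) ![1, 0] (by simp)
  rw [map_zero] at h
  exact h

lemma t_ne : (t : K) ≠ 0 := by
  have h := EVW.lift_ne (f := X 1) (g := 0) ![1, 1] (by simp)
  rw [map_zero] at h
  exact h

lemma pow_ne_t (m : ℕ) : q ^ m - t ≠ 0 := sub_ne_zero.2 (EVW.q_pow_ne_t m)

lemma pow_ne_tq (m : ℕ) : q ^ m - t * q ≠ 0 := by
  have h := EVW.lift_ne (f := X 0 ^ m) (g := X 1 * X 0) ![1, 2] (by simp)
  rw [map_pow, map_mul] at h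
  exact sub_ne_zero.2 h

lemma pow_ne_t2 (m : ℕ) : q ^ m - t ^ 2 ≠ 0 := by
  have h := EVW.lift_ne (f := X 0 ^ m) (g := X 1 ^ 2) ![1, 2] (by simp; norm_num)
  rw [map_pow, map_pow] at h
  exact sub_ne_zero.2 h

/-! ### complete functions -/

lemma G1_zero (x y : K) : G1 0 x y = 0 := by simp [G1]

lemma G1_mul (r : ℕ) (x y : K) : (x - y) * G1 r x y = x ^ r - y ^ r := by
  unfold G1
  rw [mul_comm]
  exact (Commute.all x y).geom_sum₂_mul r

lemma G1_comm (r : ℕ) (x y : K) : G1 r x y = G1 r y x := by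
  unfold G1
  rw [← sum_range_reflect]
  refine sum_congr rfl fun i hi => ?_
  have hi' := mem_range.1 hi
  have e : r - 1 - (r - 1 - i) = i := by omega
  rw [e]
  ring

lemma G1_succ (r : ℕ) (x y : K) : G1 (r + 1) x y = x ^ r + y * G1 r x y := by
  unfold G1
  rw [sum_range_succ, mul_sum, add_comm]
  congr 1
  · simp
  · refine sum_congr rfl fun i hi => ?_
    have hi' := mem_range.1 hi
    have e : r + 1 - 1 - i = (r - 1 - i) + 1 := by omega
    rw [e, pow_succ]
    ring

lemma G1_succ' (r : ℕ) (x y : K) : G1 (r + 1) x y = y ^ r + x * G1 r x y := by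
  rw [G1_comm, G1_succ, G1_comm]

lemma G1_mem (r : ℕ) {x y : K} (hx : x ∈ NN) (hy : y ∈ NN) : G1 r x y ∈ NN :=
  NN.sum_mem fun _ _ => NN.mul_mem (NN.pow_mem hx _) (NN.pow_mem hy _)

/-- `h_{r-2}(x,y,z)` -/
noncomputable def G2 : ℕ → K → K → K → K
  | 0, _, _, _ => 0
  | r + 1, x, y, z => x * G2 r x y z + G1 r y z

/-- `h_{r-3}(x,y,z,w)` -/
noncomputable def G3 : ℕ → K → K → K → K → K
  | 0, _, _, _, _ => 0
  | r + 1, x, y, z, w => x * G3 r x y z w + G2 r y z w

lemma G2_mem (r : ℕ) {x y z : K} (hx : x ∈ NN) (hy : y ∈ NN) (hz : z ∈ NN) :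
    G2 r x y z ∈ NN := by
  induction r with
  | zero => exact NN.zero_mem
  | succ r ih => exact NN.add_mem (NN.mul_mem hx ih) (G1_mem r hy hz)

lemma G3_mem (r : ℕ) {x y z w : K} (hx : x ∈ NN) (hy : y ∈ NN) (hz : z ∈ NN) (hw : w ∈ NN) :
    G3 r x y z w ∈ NN := by
  induction r with
  | zero => exact NN.zero_mem
  | succ r ih => exact NN.add_mem (NN.mul_mem hx ih) (G2_mem r hy hz hw)

lemma G2_diff (r : ℕ) (x y z : K) : (y - z) * G2 r x y z = G1 r x y - G1 r x z := by
  induction r with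
  | zero => simp [G2, G1_zero]
  | succ r ih =>
    rw [G2, G1_succ' r x y, G1_succ' r x z]
    linear_combination x * ih + G1_mul r y z

lemma G2_diff' (r : ℕ) (x y z : K) : (x - y) * G2 r x y z = G1 r x z - G1 r y z := by
  induction r with
  | zero => simp [G2, G1_zero]
  | succ r ih =>
    rw [G2, G1_succ' r x z, G1_succ' r y z]
    linear_combination x * ih

lemma G2_comm (r : ℕ) (x y z : K) : G2 r y x z = G2 r x y z := by
  induction r with
  | zero => rfl
  | succ r ih =>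
    rw [G2, G2, ih]
    linear_combination - G2_diff' r x y z

lemma G2_comm' (r : ℕ) (x y z : K) : G2 r x z y = G2 r x y z := by
  induction r with
  | zero => rfl
  | succ r ih => rw [G2, G2, ih, G1_comm r z y]

lemma G3_diff (r : ℕ) (x y z w : K) : (z - w) * G3 r x y z w = G2 r x y z - G2 r x y w := by
  induction r with
  | zero => simp [G3, G2]
  | succ r ih =>
    rw [G3, G2, G2]
    linear_combination x * ih + G2_diff r y z w

/-! ### the divided differences of a generator -/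

/-- the generator -/
noncomputable def Ge (β r : ℕ) (x y : K) : K := (x * y) ^ β * G1 (r + 1) x y

lemma G1_q (r : ℕ) (x : K) : G1 (r + 1) x (x * q) = x ^ r * br (r + 1) := by
  unfold G1 br
  rw [mul_sum, ← sum_range_reflect]
  refine sum_congr rfl fun i hi => ?_
  have hi' := mem_range.1 hi
  have e : r + 1 - 1 - (r + 1 - 1 - i) = i := by omega
  have e2 : x ^ (r + 1 - 1 - i) * x ^ i = x ^ r := by
    rw [← pow_add]
    congr 1
    omega
  rw [e, mul_pow, ← e2]
  ring

/-- the sum in `u` -/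
noncomputable def su (β r : ℕ) (a c : K) : K :=
  ∑ i ∈ range β, q ^ i * (a * c) ^ (β - 1 - i) * G1 (r + 1 + 2 * i) a c

lemma su_eq (β r : ℕ) (a c : K) : (a - c) * su β r a c =
    a ^ (β + r) * G1 β (a * q) c - c ^ (β + r) * G1 β (c * q) a := by
  unfold su G1
  rw [mul_sum, mul_sum, mul_sum, ← sum_sub_distrib]
  refine sum_congr rfl fun i hi => ?_
  have hi' := mem_range.1 hi
  have h := G1_mul (r + 1 + 2 * i) a c
  unfold G1 at h
  obtain ⟨k, hk⟩ : ∃ k, β = k + 1 + i := ⟨β - 1 - i, by omega⟩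
  subst hk
  have e : k + 1 + i - 1 - i = k := by omega
  rw [e]
  calc (a - c) * (q ^ i * (a * c) ^ k *
        ∑ i_1 ∈ range (r + 1 + 2 * i), a ^ i_1 * c ^ (r + 1 + 2 * i - 1 - i_1))
      = (q ^ i * (a * c) ^ k) * (a ^ (r + 1 + 2 * i) - c ^ (r + 1 + 2 * i)) := by
        rw [← h]; ring
    _ = _ := by ring

/-- `(p(a,·))` at `aq`, `t` -/
lemma pa_eq (β r : ℕ) (x z : K) : (x * q - z) *
    (x ^ β * (x ^ r * br (r + 1) * G1 β (x * q) z + z ^ β * G2 (r + 1) x (x * q) z)) =
    Ge β r x (x * q) - Ge β r x z := by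
  have h1 := G1_mul β (x * q) z
  have h2 := G2_diff (r + 1) x (x * q) z
  have h3 := G1_q r x
  unfold Ge
  rw [mul_pow, mul_pow x z]
  calc _ = x ^ β * (x ^ r * br (r + 1)) * ((x * q - z) * G1 β (x * q) z) +
        x ^ β * z ^ β * ((x * q - z) * G2 (r + 1) x (x * q) z) := by ring
    _ = _ := by rw [h1, h2, ← h3]; ring

/-- the divided differences as sums -/
lemma dd_eq (β r : ℕ) (x y z : K) : (y - z) *
    (x ^ β * ∑ i ∈ range (r + 1), x ^ i * G1 (β + r - i) y z) = Ge β r x y - Ge β r x z := by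
  unfold Ge
  have h : ∀ y : K, (x * y) ^ β * G1 (r + 1) x y =
      x ^ β * ∑ i ∈ range (r + 1), x ^ i * y ^ (β + r - i) := by
    intro y
    rw [mul_pow, mul_assoc]
    congr 1
    unfold G1
    rw [mul_sum]
    refine sum_congr rfl fun i hi => ?_
    have hi' := mem_range.1 hi
    have e : β + r - i = β + (r + 1 - 1 - i) := by omega
    rw [e, pow_add]
    ring
  rw [h, h, ← mul_sub, ← sum_sub_distrib, ← mul_assoc, mul_comm (y - z), mul_assoc, mul_sum]
  congr 1
  refine sum_congr rfl fun i _ => ?_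
  linear_combination x ^ i * G1_mul (β + r - i) y z

/-- the data of a generator -/
theorem data (m β r : ℕ) : ∃ pa ∈ NN, ∃ pt ∈ NN, ∃ u ∈ NN, ∃ s ∈ NN, ∃ w ∈ NN, ∃ y ∈ NN,
    (q ^ m * q - t) * pa = Ge β r (q ^ m) (q ^ m * q) - Ge β r (q ^ m) t ∧
    (t * q - q ^ m) * pt = Ge β r t (t * q) - Ge β r (q ^ m) t ∧
    (q ^ m - t) * u = pa - pt ∧
    (t * q - t ^ 2) * s = Ge β r t (t * q) - Ge β r t (t ^ 2) ∧
    (q ^ m - t ^ 2) * w = pt - s ∧
    (q ^ m - t) * y = q ^ m * Ge β r (q ^ m) (q ^ m * q) - t * Ge β r t (t * q) := by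
  have ha : q ^ m ∈ NN := NN.pow_mem q_mem m
  have haq : q ^ m * q ∈ NN := NN.mul_mem ha q_mem
  have htq : t * q ∈ NN := NN.mul_mem t_mem q_mem
  have ht2 : t ^ 2 ∈ NN := NN.pow_mem t_mem 2
  have hat : q ^ m * t ∈ NN := NN.mul_mem ha t_mem
  have hsym : Ge β r (q ^ m) t = Ge β r t (q ^ m) := by
    unfold Ge
    rw [G1_comm, mul_comm (q ^ m) t]
  generalize hA : q ^ m = a at *
  refine ⟨a ^ β * (a ^ r * br (r + 1) * G1 β (a * q) t + t ^ β * G2 (r + 1) a (a * q) t),
    ?_, t ^ β * (t ^ r * br (r + 1) * G1 β (t * q) a + a ^ β * G2 (r + 1) t (t * q) a), ?_,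
    (a * t) ^ β * q * G3 (r + 1) a t (a * q) (t * q) + br (r + 1) * su β r a t, ?_,
    t ^ β * ∑ i ∈ range (r + 1), t ^ i * G1 (β + r - i) (t * q) (t ^ 2), ?_,
    t ^ β * ∑ i ∈ range (r + 1), t ^ i * G2 (β + r - i) (t * q) a (t ^ 2), ?_,
    q ^ β * br (r + 1) * G1 (2 * β + r + 1) a t, ?_, ?_, ?_, ?_, ?_, ?_, ?_⟩
  · exact NN.mul_mem (NN.pow_mem ha _) (NN.add_mem (NN.mul_mem (NN.mul_mem (NN.pow_mem ha _)
      (br_mem _)) (G1_mem _ haq t_mem)) (NN.mul_mem (NN.pow_mem t_mem _) (G2_mem _ ha haq t_mem)))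
  · exact NN.mul_mem (NN.pow_mem t_mem _) (NN.add_mem (NN.mul_mem (NN.mul_mem (NN.pow_mem t_mem _)
      (br_mem _)) (G1_mem _ htq ha)) (NN.mul_mem (NN.pow_mem ha _) (G2_mem _ t_mem htq ha)))
  · refine NN.add_mem (NN.mul_mem (NN.mul_mem (NN.pow_mem hat _) q_mem)
      (G3_mem _ ha t_mem haq htq)) (NN.mul_mem (br_mem _) (NN.sum_mem fun i _ => ?_))
    exact NN.mul_mem (NN.mul_mem (NN.pow_mem q_mem _) (NN.pow_mem hat _)) (G1_mem _ ha t_mem)
  · exact NN.mul_mem (NN.pow_mem t_mem _) (NN.sum_mem fun i _ =>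
      NN.mul_mem (NN.pow_mem t_mem _) (G1_mem _ htq ht2))
  · exact NN.mul_mem (NN.pow_mem t_mem _) (NN.sum_mem fun i _ =>
      NN.mul_mem (NN.pow_mem t_mem _) (G2_mem _ htq ha ht2))
  · exact NN.mul_mem (NN.mul_mem (NN.pow_mem q_mem _) (br_mem _)) (G1_mem _ ha t_mem)
  · exact pa_eq β r a t
  · rw [hsym]
    exact pa_eq β r t a
  · have h1 := su_eq β r a t
    have h2 := G3_diff (r + 1) a t (a * q) (t * q)
    have h3 : G2 (r + 1) a (a * q) t = G2 (r + 1) a t (a * q) := G2_comm' _ _ _ _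
    have h4 : G2 (r + 1) t (t * q) a = G2 (r + 1) a t (t * q) := by
      rw [G2_comm', G2_comm]
    rw [h3, h4]
    calc _ = (a * t) ^ β * ((a * q - t * q) * G3 (r + 1) a t (a * q) (t * q)) +
          br (r + 1) * ((a - t) * su β r a t) := by ring
      _ = _ := by
        rw [h1, h2]
        ring
  · exact dd_eq β r t (t * q) (t ^ 2)
  · have h1 : t ^ β * (t ^ r * br (r + 1) * G1 β (t * q) a + a ^ β * G2 (r + 1) t (t * q) a) =
        t ^ β * ∑ i ∈ range (r + 1), t ^ i * G1 (β + r - i) (t * q) a := by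
      have h2 := pa_eq β r t a
      have h3 := dd_eq β r t (t * q) a
      have h4 : t * q - a ≠ 0 := by
        rw [← hA]
        intro h
        exact pow_ne_tq m (by linear_combination - h)
      exact mul_left_cancel₀ h4 (h2.trans h3.symm)
    rw [h1, ← mul_sub, ← sum_sub_distrib, mul_left_comm, mul_sum]
    congr 1
    refine sum_congr rfl fun i _ => ?_
    linear_combination t ^ i * G2_diff (β + r - i) (t * q) a (t ^ 2)
  · have h1 := G1_mul (2 * β + r + 1) a t
    unfold Ge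
    rw [G1_q, G1_q]
    calc _ = q ^ β * br (r + 1) * ((a - t) * G1 (2 * β + r + 1) a t) := by ring
      _ = _ := by
        rw [h1]
        ring

/-! ### the second bracket -/

/-- `g` -/
noncomputable def gb : ℕ → K
  | 0 => 0
  | m + 1 => q ^ 2 * gb m + br m

lemma gb_mem (m : ℕ) : gb m ∈ NN := by
  induction m with
  | zero => exact NN.zero_mem
  | succ m ih => exact NN.add_mem (NN.mul_mem (NN.pow_mem q_mem 2) ih) (br_mem m)

lemma gb_eq (m : ℕ) : (1 - q) * (1 - q ^ 2) * (q * gb m) = (1 - q ^ m) * (q - q ^ m) := by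
  induction m with
  | zero => simp [gb]
  | succ m ih =>
    rw [gb]
    have h := br_eq m
    linear_combination q ^ 2 * ih + q * (1 - q ^ 2) * h

section coef

variable {L : Type} [Field L] (a q t : L)

lemma coA (n1 : 1 - q ≠ 0) (n2 : 1 + q ≠ 0) (n5 : t - a ≠ 0)
    (n6 : t - a * q ≠ 0) (n7 : a - t * q ≠ 0) (n8 : a - t ^ 2 ≠ 0) (n9 : q - t ≠ 0) :
    t ^ 2 * q * (1 - a * q) * (1 - a) / ((1 - q) * ((1 - q) * (1 + q)) * (t - a) * (t - a * q)) +
    t ^ 2 * (1 - a) * (q * a * (1 - a) + a * t * (1 - q) - q * t ^ 2 * (1 - a * q)) /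
      ((1 - q) ^ 2 * (t - a * q) * (a - t * q) * (a - t ^ 2)) +
    - (q * t ^ 2 * (1 - a) * (q - a) * (1 - q * t)) /
      ((1 - q) * ((1 - q) * (1 + q)) * (a - t * q) * (t - a) * (q - t)) +
    t ^ 3 * (1 - a) / ((1 - q) * (a - t ^ 2) * (q - t)) = 0 := by
  have n6b : t - q * a ≠ 0 := by rwa [mul_comm q a]
  have n7b : a - q * t ≠ 0 := by rwa [mul_comm q t]
  field_simp
  ring

lemma coP (n1 : 1 - q ≠ 0) (n2 : 1 + q ≠ 0) (n5 : t - a ≠ 0)
    (n6 : t - a * q ≠ 0) (n7 : a - t * q ≠ 0) (n8 : a - t ^ 2 ≠ 0) (n9 : q - t ≠ 0) :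
    t ^ 2 * q * (1 - a * q) * (1 - a) / ((1 - q) * ((1 - q) * (1 + q)) * (t - a) * (t - a * q)) *
      (a * q - t) +
    - (q * t ^ 2 * (1 - a) * (q - a) * (1 - q * t)) /
      ((1 - q) * ((1 - q) * (1 + q)) * (a - t * q) * (t - a) * (q - t)) * (t * q - a) +
    t ^ 3 * (1 - a) / ((1 - q) * (a - t ^ 2) * (q - t)) * (t ^ 2 - a) =
      t ^ 2 * ((1 - a) / (1 - q)) := by
  have n6b : t - q * a ≠ 0 := by rwa [mul_comm q a]
  have n7b : a - q * t ≠ 0 := by rwa [mul_comm q t]
  field_simp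
  ring

lemma coU (n1 : 1 - q ≠ 0) (n2 : 1 + q ≠ 0) (n3 : q ≠ 0) (n5 : t - a ≠ 0)
    (n6 : t - a * q ≠ 0) :
    t ^ 2 * q * (1 - a * q) * (1 - a) / ((1 - q) * ((1 - q) * (1 + q)) * (t - a) * (t - a * q)) *
      ((a * q - t) * (a - t)) =
      t ^ 2 * (q * ((1 - a) * (q - a) / ((1 - q) * ((1 - q) * (1 + q)) * q)) +
        (1 - a) / (1 - q) * a) := by
  have n6b : t - q * a ≠ 0 := by rwa [mul_comm q a]
  field_simp
  ring

lemma coW (n1 : 1 - q ≠ 0) (n8 : a - t ^ 2 ≠ 0) (n9 : q - t ≠ 0) :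
    t ^ 3 * (1 - a) / ((1 - q) * (a - t ^ 2) * (q - t)) * ((t * q - t ^ 2) * (a - t ^ 2)) =
      t ^ 2 * ((1 - a) / (1 - q) * t ^ 2) := by
  field_simp

end coef

/-- the formula for `Ψ` -/
theorem psi_eq (m : ℕ) (F : K → K → K) (pa pt u s w : K)
    (h1 : (q ^ m * q - t) * pa = F (q ^ m) (q ^ m * q) - F (q ^ m) t)
    (h2 : (t * q - q ^ m) * pt = F t (t * q) - F (q ^ m) t)
    (h3 : (q ^ m - t) * u = pa - pt)
    (h4 : (t * q - t ^ 2) * s = F t (t * q) - F t (t ^ 2))
    (h5 : (q ^ m - t ^ 2) * w = pt - s) :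
    Psi (m + 2) F = t ^ 2 * (q * gb m * u + br m * (pt + q ^ m * u + t ^ 2 * w)) := by
  have n1 := one_sub_q
  have n2 := one_sub_q2
  have n2' := one_add_q
  have n3 := q_ne
  have n4 := t_ne
  have n5 := pow_ne_t m
  have n6 : q ^ m * q - t ≠ 0 := by
    have := pow_ne_t (m + 1)
    rwa [pow_succ] at this
  have n7 := pow_ne_tq m
  have n8 := pow_ne_t2 m
  have n9 : q - t ≠ 0 := by
    have := pow_ne_t 1
    rwa [pow_one] at this
  have hb : br m = (1 - q ^ m) / (1 - q) := by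
    rw [eq_div_iff n1, mul_comm]
    exact br_eq m
  have hg : gb m = (1 - q ^ m) * (q - q ^ m) / ((1 - q) * (1 - q ^ 2) * q) := by
    rw [eq_div_iff (mul_ne_zero (mul_ne_zero n1 n2) n3)]
    linear_combination gb_eq m
  have e1 : F (q ^ m) (q ^ m * q) = F (q ^ m) t + (q ^ m * q - t) * (pt + (q ^ m - t) * u) := by
    rw [h3]
    linear_combination - h1
  have e3 : F t (t * q) = F (q ^ m) t + (t * q - q ^ m) * pt := by
    linear_combination - h2
  have e4 : F t (t ^ 2) = F (q ^ m) t + (t * q - q ^ m) * pt -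
      (t * q - t ^ 2) * (pt - (q ^ m - t ^ 2) * w) := by
    have : s = pt - (q ^ m - t ^ 2) * w := by linear_combination h5
    rw [← this, ← e3]
    linear_combination h4
  unfold Psi k1 k2 k3 k4
  have hn : m + 2 - 2 = m := by omega
  rw [hn, hb, hg, e1, e3, e4]
  generalize F (q ^ m) t = A
  have n5' : t - q ^ m ≠ 0 := by
    intro h
    exact n5 (by linear_combination - h)
  have n6' : t - q ^ m * q ≠ 0 := by
    intro h
    exact n6 (by linear_combination - h)
  have e5 : (1 : K) - q ^ 2 = (1 - q) * (1 + q) := by ring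
  rw [e5]
  have cA := coA (q ^ m) q t n1 n2' n5' n6' n7 n8 n9
  have cP := coP (q ^ m) q t n1 n2' n5' n6' n7 n8 n9
  have cU := coU (q ^ m) q t n1 n2' n3 n5' n6'
  have cW := coW (q ^ m) q t n1 n8 n9
  linear_combination A * cA + pt * cP + u * cU + w * cW

/-- the statement for a generator -/
theorem gen (m β r : ℕ) (hm : 1 ≤ m) : Psi (m + 2) (Ge β r) ∈ NN ∧
    ∃ c ∈ NN, Psi (m + 2) (fun x y => x * y * Ge β r x y) - t ^ 3 * br m * Ge β r t (t ^ 2) =
      q * c := by
  obtain ⟨pa, _, pt, hpt, u, hu, s, hs, w, hw, y, hy, h1, h2, h3, h4, h5, h6⟩ := data m β r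
  obtain ⟨pa', _, pt', hpt', u', hu', s', hs', w', hw', _, _, h1', h2', h3', h4', h5', _⟩ :=
    data m (β + 1) r
  have ha : q ^ m ∈ NN := NN.pow_mem q_mem m
  refine ⟨?_, ?_⟩
  · rw [psi_eq m (Ge β r) pa pt u s w h1 h2 h3 h4 h5]
    exact NN.mul_mem (NN.pow_mem t_mem 2) (NN.add_mem (NN.mul_mem (NN.mul_mem q_mem (gb_mem m)) hu)
      (NN.mul_mem (br_mem m) (NN.add_mem (NN.add_mem hpt (NN.mul_mem ha hu))
        (NN.mul_mem (NN.pow_mem t_mem 2) hw))))
  · have hG : ∀ x y : K, Ge (β + 1) r x y = x * y * Ge β r x y := by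
      intro x y
      unfold Ge
      ring
    have hF : (fun x y : K => x * y * Ge β r x y) = Ge (β + 1) r := by
      funext x y
      rw [hG]
    rw [hF, psi_eq m (Ge (β + 1) r) pa' pt' u' s' w' h1' h2' h3' h4' h5']
    obtain ⟨k, hk⟩ : ∃ k, m = k + 1 := ⟨m - 1, by omega⟩
    have hak : q ^ m = q * q ^ k := by rw [hk, pow_succ]; ring
    have hk' : q ^ k ∈ NN := NN.pow_mem q_mem k
    refine ⟨t ^ 2 * (gb m * u' + br m * (q ^ k * t ^ 3 * w + t ^ 2 * s +
      q ^ k * t * (pt + q ^ m * u) + q ^ k * y)), ?_, ?_⟩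
    · exact NN.mul_mem (NN.pow_mem t_mem 2) (NN.add_mem (NN.mul_mem (gb_mem m) hu')
        (NN.mul_mem (br_mem m) (NN.add_mem (NN.add_mem (NN.add_mem
          (NN.mul_mem (NN.mul_mem hk' (NN.pow_mem t_mem 3)) hw)
          (NN.mul_mem (NN.pow_mem t_mem 2) hs))
          (NN.mul_mem (NN.mul_mem hk' t_mem) (NN.add_mem hpt (NN.mul_mem ha hu))))
          (NN.mul_mem hk' hy))))
    · -- the identity
      have n5 := pow_ne_t m
      have n6 : q ^ m * q - t ≠ 0 := by
        have := pow_ne_t (m + 1)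
        rwa [pow_succ] at this
      have n7 := pow_ne_tq m
      have n8 := pow_ne_t2 m
      have n9 : t * q - t ^ 2 ≠ 0 := by
        have := pow_ne_t 1
        rw [pow_one] at this
        intro h
        have h' : t * (q - t) = 0 := by linear_combination h
        rcases mul_eq_zero.1 h' with h'' | h''
        · exact t_ne h''
        · exact this h''
      rw [hG, hG] at h1' h2' h4'
      have epa : pa' = q ^ m * (Ge β r (q ^ m) (q ^ m * q) + t * pa) := by
        refine mul_left_cancel₀ n6 ?_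
        linear_combination h1' - q ^ m * t * h1
      have ept : pt' = t * (Ge β r t (t * q) + q ^ m * pt) := by
        refine mul_left_cancel₀ (a := t * q - q ^ m) (fun h => n7 (by linear_combination - h)) ?_
        linear_combination h2' - q ^ m * t * h2
      have es : s' = t * (Ge β r t (t * q) + t ^ 2 * s) := by
        refine mul_left_cancel₀ n9 ?_
        linear_combination h4' - t ^ 3 * h4
      have ew : w' = t * (q ^ m * w + s) := by
        refine mul_left_cancel₀ n8 ?_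
        rw [h5', ept, es]
        linear_combination - t * q ^ m * h5
      have ev' : pt' + q ^ m * u' = q ^ m * y + t * Ge β r t (t * q) +
          q ^ m * t * (pt + q ^ m * u) := by
        refine mul_left_cancel₀ n5 ?_
        have : (q ^ m - t) * (pt' + q ^ m * u') = q ^ m * pa' - t * pt' := by
          linear_combination q ^ m * h3'
        rw [this, epa, ept]
        linear_combination - q ^ m * h6 - (q ^ m) ^ 2 * t * h3
      have e1 : pt' + q ^ m * u' + t ^ 2 * w' - t * Ge β r t (t ^ 2) =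
          q * (q ^ k * t ^ 3 * w + t ^ 2 * s + q ^ k * t * (pt + q ^ m * u) + q ^ k * y) := by
        rw [ev', ew]
        have e2 : q * (q ^ k * t ^ 3 * w + t ^ 2 * s + q ^ k * t * (pt + q ^ m * u) + q ^ k * y) =
            q ^ m * t ^ 3 * w + q * t ^ 2 * s + q ^ m * t * (pt + q ^ m * u) + q ^ m * y := by
          rw [hak]
          ring
        rw [e2]
        linear_combination - t * h4
      linear_combination t ^ 2 * br m * e1

end PSI

open PSI in
theorem t_PSI : Stmt_PSI := by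
  intro n hn F hF
  obtain ⟨m, hm⟩ : ∃ m, n = m + 2 := ⟨n - 2, by omega⟩
  subst hm
  have hm1 : 1 ≤ m := by omega
  have hm2 : m + 2 - 2 = m := by omega
  rw [hm2]
  unfold Cn at hF
  induction hF using AddSubmonoid.closure_induction with
  | mem F h =>
    obtain ⟨c, hc, β, r, rfl⟩ := h
    obtain ⟨h1, d, hd, h2⟩ := gen m β r hm1
    refine ⟨?_, c * d, NN.mul_mem hc hd, ?_⟩
    · have e : Psi (m + 2) (fun x y => c * ((x * y) ^ β * G1 (r + 1) x y)) =
          c * Psi (m + 2) (Ge β r) := by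
        unfold Psi Ge
        ring
      rw [e]
      exact NN.mul_mem hc h1
    · have e : Psi (m + 2) (fun x y => x * y * (c * ((x * y) ^ β * G1 (r + 1) x y))) =
          c * Psi (m + 2) (fun x y => x * y * Ge β r x y) := by
        unfold Psi Ge
        ring
      have e2 : (t * t ^ 2) ^ β * G1 (r + 1) t (t ^ 2) = Ge β r t (t ^ 2) := rfl
      rw [e]
      show c * Psi (m + 2) (fun x y => x * y * Ge β r x y) -
        t ^ 3 * br m * (c * ((t * t ^ 2) ^ β * G1 (r + 1) t (t ^ 2))) = q * (c * d)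
      rw [e2]
      linear_combination c * h2
  | zero =>
    refine ⟨?_, 0, NN.zero_mem, ?_⟩
    · have e : Psi (m + 2) (0 : K → K → K) = 0 := by
        unfold Psi
        simp
      rw [e]
      exact NN.zero_mem
    · unfold Psi
      simp
  | add F G _ _ hF hG =>
    obtain ⟨h1, c, hc, h2⟩ := hF
    obtain ⟨h3, d, hd, h4⟩ := hG
    refine ⟨?_, c + d, NN.add_mem hc hd, ?_⟩
    · have e : Psi (m + 2) (F + G) = Psi (m + 2) F + Psi (m + 2) G := by
        unfold Psi
        simp only [Pi.add_apply]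
        ring
      rw [e]
      exact NN.add_mem h1 h3
    · have e : Psi (m + 2) (fun x y => x * y * (F + G) x y) =
          Psi (m + 2) (fun x y => x * y * F x y) + Psi (m + 2) (fun x y => x * y * G x y) := by
        unfold Psi
        simp only [Pi.add_apply]
        ring
      rw [e, Pi.add_apply, Pi.add_apply]
      linear_combination h2 + h4

end Pool.Agent.NE3
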