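import Pool.Agent.NE3.Stmts
import Pool.Agent.NEK.MAC

/-!
# The consequences of the axioms for `(n-2,2)` and `(n-2,1,1)`, before solving
-/

set_option autoImplicit false

namespace Pool.Agent.NE3

open MvPolynomial Finset Pool.Agent.NEK

namespace TRI

open Pool.Agent.NEK.MACX

lemma part_22 {n : ℕ} (hn : 4 ≤ n) {l : List ℕ} (hl : IsPart n l) (hd : Dom l [n - 2, 2]) :
    l = [n] ∨ l = [n - 1, 1] ∨ l = [n - 2, 2] := by
  obtain ⟨-, hpos, hsum⟩ := hl
  have h1 := hd 1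
  have h2 := hd 2
  rcases l with _ | ⟨a, l⟩
  · simp at hsum
    omega
  rcases l with _ | ⟨b, l⟩
  · simp at hsum
    left
    rw [hsum]
  have hb := hpos b (by simp)
  rcases l with _ | ⟨c, l⟩
  · simp at h1 hsum
    have : b = 1 ∨ b = 2 := by omega
    rcases this with h | h
    · right; left
      have h3 : a = n - 1 := by omega
      rw [h3, h]
    · right; right
      have h3 : a = n - 2 := by omega
      rw [h3, h]
  · have hc := hpos c (by simp)
    simp at h1 h2 hsum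
    omega

lemma part_211 {n : ℕ} (hn : 3 ≤ n) {l : List ℕ} (hl : IsPart n l)
    (hd : Dom l [n - 2, 1, 1]) :
    l = [n] ∨ l = [n - 1, 1] ∨ l = [n - 2, 2] ∨ l = [n - 2, 1, 1] := by
  obtain ⟨-, hpos, hsum⟩ := hl
  have h1 := hd 1
  have h2 := hd 2
  have h3 := hd 3
  rcases l with _ | ⟨a, l⟩
  · simp at hsum
    omega
  rcases l with _ | ⟨b, l⟩
  · simp at hsum
    left
    rw [hsum]
  have hb := hpos b (by simp)
  rcases l with _ | ⟨c, l⟩
  · simp at h1 hsum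
    have : b = 1 ∨ b = 2 := by omega
    rcases this with h | h
    · right; left
      have h3 : a = n - 1 := by omega
      rw [h3, h]
    · right; right; left
      have h3 : a = n - 2 := by omega
      rw [h3, h]
  have hc := hpos c (by simp)
  rcases l with _ | ⟨d, l⟩
  · simp at h1 h2 h3 hsum
    right; right; right
    have e1 : a = n - 2 := by omega
    have e2 : b = 1 := by omega
    have e3 : c = 1 := by omega
    rw [e1, e2, e3]
  · have hd := hpos d (by simp)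
    simp at h1 h2 h3 hsum
    omega

lemma isPart_22 {n : ℕ} (hn : 4 ≤ n) : IsPart n [n - 2, 2] := by
  refine ⟨?_, ?_, ?_⟩
  · simp
    omega
  · intro a ha
    simp at ha
    omega
  · simp
    omega

lemma isPart_211 {n : ℕ} (hn : 3 ≤ n) : IsPart n [n - 2, 1, 1] := by
  refine ⟨?_, ?_, ?_⟩
  · simp
    omega
  · intro a ha
    simp at ha
    omega
  · simp
    omega

lemma conj_22 {n : ℕ} (hn : 4 ≤ n) : ∃ l', conj [n - 2, 2] = 2 :: 2 :: l' := by
  obtain ⟨k, rfl⟩ : ∃ k, n = k + 4 := ⟨n - 4, by omega⟩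
  have h : conj [k + 4 - 2, 2] = (List.range (k + 2)).map
      (fun j => ([k + 2, 2].filter fun a => decide (j < a)).length) := rfl
  rw [h, List.range_succ_eq_map, List.map_cons, List.range_succ_eq_map, List.map_cons,
    List.map_cons]
  have e1 : ([k + 2, 2].filter fun a => decide (0 < a)).length = 2 := by simp
  have e2 : ([k + 2, 2].filter fun a => decide (Nat.succ 0 < a)).length = 2 := by simp
  rw [e1, e2]
  exact ⟨_, rfl⟩

lemma conj_211 {n : ℕ} (hn : 3 ≤ n) : ∃ l', conj [n - 2, 1, 1] = 3 :: l' := by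
  obtain ⟨k, rfl⟩ : ∃ k, n = k + 3 := ⟨n - 3, by omega⟩
  have h : conj [k + 3 - 2, 1, 1] = (List.range (k + 1)).map
      (fun j => ([k + 1, 1, 1].filter fun a => decide (j < a)).length) := rfl
  rw [h, List.range_succ_eq_map, List.map_cons]
  exact ⟨_, rfl⟩

lemma hX_zero : hX 0 = 1 := by rw [hX, hN]

lemma sch_22 (n : ℕ) (hn : 2 ≤ n) :
    sch [n - 2, 2] = hX (n - 2) * hX 2 - hX (n - 1) * hX 1 := by
  have h2 : sch [n - 2, 2] = Matrix.det (Matrix.of fun i j : Fin 2 =>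
      hZ (fun i => (X i : Lam)) (([n - 2, 2].get i : ℤ) - (i : ℤ) + (j : ℤ))) := rfl
  rw [h2, Matrix.det_fin_two]
  simp only [Matrix.of_apply]
  have e : (([n - 2, 2].get (0 : Fin 2) : ℕ) : ℤ) = (n : ℤ) - 2 := by
    simp
    omega
  rw [hZ_nat _ _ (n - 2), hZ_nat _ _ 2, hZ_nat _ _ (n - 1), hZ_nat _ _ 1]
  · rfl
  · simp
  · rw [e]
    simp
    omega
  · simp
  · rw [e]
    simp
    omega

lemma sch_211 (n : ℕ) (hn : 2 ≤ n) :
    sch [n - 2, 1, 1] = hX (n - 2) * (hX 1 * hX 1 - hX 2) - hX (n - 1) * hX 1 + hX n := by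
  have h2 : sch [n - 2, 1, 1] = Matrix.det (Matrix.of fun i j : Fin 3 =>
      hZ (fun i => (X i : Lam)) (([n - 2, 1, 1].get i : ℤ) - (i : ℤ) + (j : ℤ))) := rfl
  rw [h2, Matrix.det_fin_three]
  simp only [Matrix.of_apply]
  have e : (([n - 2, 1, 1].get (0 : Fin 3) : ℕ) : ℤ) = (n : ℤ) - 2 := by
    simp
    omega
  have e1 : (([n - 2, 1, 1].get (1 : Fin 3) : ℕ) : ℤ) = 1 := by simp
  have e2 : (([n - 2, 1, 1].get (2 : Fin 3) : ℕ) : ℤ) = 1 := by simp
  have hneg : hZ (fun i => (X i : Lam)) (1 - (((2 : Fin 3) : ℕ) : ℤ) + (((0 : Fin 3) : ℕ) : ℤ))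
      = 0 := by
    simp [hZ]
  rw [e, e1, e2, hneg]
  have a00 : hZ (fun i => (X i : Lam))
      ((n : ℤ) - 2 - (((0 : Fin 3) : ℕ) : ℤ) + (((0 : Fin 3) : ℕ) : ℤ)) = hX (n - 2) := by
    rw [hZ_nat _ _ (n - 2)]
    · rfl
    · simp
      omega
  have a01 : hZ (fun i => (X i : Lam))
      ((n : ℤ) - 2 - (((0 : Fin 3) : ℕ) : ℤ) + (((1 : Fin 3) : ℕ) : ℤ)) = hX (n - 1) := by
    rw [hZ_nat _ _ (n - 1)]
    · rfl
    · simp
      omega
  have a02 : hZ (fun i => (X i : Lam))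
      ((n : ℤ) - 2 - (((0 : Fin 3) : ℕ) : ℤ) + (((2 : Fin 3) : ℕ) : ℤ)) = hX n := by
    rw [hZ_nat _ _ n]
    · rfl
    · simp
  have a10 : hZ (fun i => (X i : Lam))
      (1 - (((1 : Fin 3) : ℕ) : ℤ) + (((0 : Fin 3) : ℕ) : ℤ)) = 1 := by
    rw [hZ_nat _ _ 0]
    · rw [hN]
    · simp
  have a11 : hZ (fun i => (X i : Lam))
      (1 - (((1 : Fin 3) : ℕ) : ℤ) + (((1 : Fin 3) : ℕ) : ℤ)) = hX 1 := by
    rw [hZ_nat _ _ 1]
    · rfl
    · simp
  have a12 : hZ (fun i => (X i : Lam))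
      (1 - (((1 : Fin 3) : ℕ) : ℤ) + (((2 : Fin 3) : ℕ) : ℤ)) = hX 2 := by
    rw [hZ_nat _ _ 2]
    · rfl
    · simp
  have a21 : hZ (fun i => (X i : Lam))
      (1 - (((2 : Fin 3) : ℕ) : ℤ) + (((1 : Fin 3) : ℕ) : ℤ)) = 1 := by
    rw [hZ_nat _ _ 0]
    · rw [hN]
    · simp
  have a22 : hZ (fun i => (X i : Lam))
      (1 - (((2 : Fin 3) : ℕ) : ℤ) + (((2 : Fin 3) : ℕ) : ℤ)) = hX 1 := by
    rw [hZ_nat _ _ 1]
    · rfl
    · simp
  rw [a00, a01, a02, a10, a11, a12, a21, a22]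
  ring

lemma sub_span (P : Submodule K Lam) (p : List ℕ → Prop) (h : ∀ l, p l → sch l ∈ P) (f : Lam)
    (hf : f ∈ Submodule.span K {f | ∃ l, p l ∧ f = sch l}) : f ∈ P := by
  refine (Submodule.span_le.mpr ?_) hf
  rintro f ⟨l, hl, rfl⟩
  exact h l hl

lemma w_one (hHR : Stmt_HR) : wN 1 = C ((1 - q)⁻¹) * X 0 := by
  have h1 := hHR Lam (fun i => C ((1 - q ^ (i + 1))⁻¹) * (X i : Lam)) 0
  simp only [zero_add, Nat.cast_one, one_mul, range_one, sum_singleton, Nat.sub_zero] at h1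
  rw [wN, h1, hN]
  simp

lemma w_eq (m : ℕ) : wN m = (qf m)⁻¹ • WN m := by
  rw [WN, MvPolynomial.smul_eq_C_mul, ← mul_assoc, ← C_mul, inv_mul_cancel₀ (qf_ne m), C_1,
    one_mul]

lemma w_one_eq (hHR : Stmt_HR) : wN 1 = (1 - q)⁻¹ • (X 0 : Lam) := by
  rw [w_one hHR, MvPolynomial.smul_eq_C_mul]

/-- The products which occur. -/
noncomputable def V3 (n : ℕ) : Submodule K Lam :=
  Submodule.span K {WN n, X 0 * WN (n - 1), WN 2 * WN (n - 2)}

noncomputable def V4 (n : ℕ) : Submodule K Lam :=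
  Submodule.span K {WN n, X 0 * WN (n - 1), WN 2 * WN (n - 2), X 0 * X 0 * WN (n - 2)}

lemma mem3 {n : ℕ} {f : Lam} (hf : f ∈ V3 n) : ∃ α β γ : K,
    f = α • WN n + β • (X 0 * WN (n - 1)) + γ • (WN 2 * WN (n - 2)) := by
  rw [V3, Submodule.mem_span_insert] at hf
  obtain ⟨α, z, hz, rfl⟩ := hf
  obtain ⟨β, γ, rfl⟩ := Submodule.mem_span_pair.mp hz
  exact ⟨α, β, γ, by rw [add_assoc]⟩

lemma mem4 {n : ℕ} {f : Lam} (hf : f ∈ V4 n) : ∃ α β γ δ : K,
    f = α • WN n + β • (X 0 * WN (n - 1)) + γ • (WN 2 * WN (n - 2)) +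
      δ • (X 0 * X 0 * WN (n - 2)) := by
  rw [V4, Submodule.mem_span_insert] at hf
  obtain ⟨α, z, hz, rfl⟩ := hf
  rw [Submodule.mem_span_insert] at hz
  obtain ⟨β, z, hz, rfl⟩ := hz
  obtain ⟨γ, δ, rfl⟩ := Submodule.mem_span_pair.mp hz
  exact ⟨α, β, γ, δ, by rw [add_assoc, add_assoc]⟩

lemma v3_v4 {n : ℕ} {f : Lam} (hf : f ∈ V3 n) : f ∈ V4 n := by
  refine Submodule.span_mono ?_ hf
  intro x hx
  simp only [Set.mem_insert_iff, Set.mem_singleton_iff] at hx ⊢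
  tauto

lemma w_n (n : ℕ) : wN n ∈ V3 n := by
  rw [w_eq]
  exact Submodule.smul_mem _ _ (Submodule.subset_span (by simp))

lemma w_n1 (hHR : Stmt_HR) (n : ℕ) : wN (n - 1) * wN 1 ∈ V3 n := by
  rw [w_one_eq hHR, w_eq (n - 1), smul_mul_smul_comm, mul_comm (WN (n - 1))]
  exact Submodule.smul_mem _ _ (Submodule.subset_span (by simp))

lemma w_n2 (n : ℕ) : wN (n - 2) * wN 2 ∈ V3 n := by
  rw [w_eq 2, w_eq (n - 2), smul_mul_smul_comm, mul_comm (WN (n - 2))]
  exact Submodule.smul_mem _ _ (Submodule.subset_span (by simp))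

lemma w_n11 (hHR : Stmt_HR) (n : ℕ) : wN (n - 2) * (wN 1 * wN 1) ∈ V4 n := by
  rw [w_one_eq hHR, w_eq (n - 2), smul_mul_smul_comm, smul_mul_smul_comm,
    mul_comm (WN (n - 2))]
  exact Submodule.smul_mem _ _ (Submodule.subset_span (by simp))

/-- the inverse plethysm -/
noncomputable abbrev iv : Lam →ₐ[K] Lam := plX (fun i => (1 - q ^ (i + 1))⁻¹)

lemma in_n (hHM : Stmt_HM) (n : ℕ) : iv (sch [n]) ∈ V3 n := by
  rw [sch_one, plX_hX hHM]
  exact w_n n

lemma in_n1 (hHM : Stmt_HM) (hHR : Stmt_HR) (n : ℕ) (hn : 2 ≤ n) :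
    iv (sch [n - 1, 1]) ∈ V3 n := by
  rw [sch_two n hn, map_sub, map_mul, plX_hX hHM, plX_hX hHM, plX_hX hHM]
  exact Submodule.sub_mem _ (w_n1 hHR n) (w_n n)

lemma in_n2 (hHM : Stmt_HM) (hHR : Stmt_HR) (n : ℕ) (hn : 2 ≤ n) :
    iv (sch [n - 2, 2]) ∈ V3 n := by
  rw [sch_22 n hn, map_sub, map_mul, map_mul, plX_hX hHM, plX_hX hHM, plX_hX hHM,
    plX_hX hHM]
  exact Submodule.sub_mem _ (w_n2 n) (w_n1 hHR n)

lemma in_n11 (hHM : Stmt_HM) (hHR : Stmt_HR) (n : ℕ) (hn : 2 ≤ n) :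
    iv (sch [n - 2, 1, 1]) ∈ V4 n := by
  rw [sch_211 n hn, map_add, map_sub, map_mul, map_mul, map_sub, map_mul, plX_hX hHM,
    plX_hX hHM, plX_hX hHM, plX_hX hHM, plX_hX hHM, mul_sub]
  exact Submodule.add_mem _ (Submodule.sub_mem _ (Submodule.sub_mem _ (w_n11 hHR n)
    (v3_v4 (w_n2 n))) (v3_v4 (w_n1 hHR n))) (v3_v4 (w_n n))

/-- a span is mapped into a submodule -/
lemma iv_span (P : Submodule K Lam) (p : List ℕ → Prop) (h : ∀ l, p l → iv (sch l) ∈ P)
    (f : Lam) (hf : f ∈ Submodule.span K {f | ∃ l, p l ∧ f = sch l}) : iv f ∈ P := by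
  have h1 := sub_span (P.comap iv.toLinearMap) p (fun l hl => h l hl) f hf
  exact h1

end TRI

open TRI Pool.Agent.NEK.MACX in
theorem t_TRI : Stmt_HM → Stmt_HR → Stmt_EVS → Stmt_EVW → Stmt_EVZ → Stmt_TRI := by
  intro hHM hHR hEVS hEVW hEVZ n hn H hH
  obtain ⟨hS1, hS2, hS3⟩ := hEVS
  obtain ⟨hW1, -, -⟩ := hEVW
  obtain ⟨hZ1, hZ2, hZ3⟩ := hEVZ
  have hev1 : ∀ μ, IsPart n μ → ev (fun _ => 1) (H μ) = 1 := by
    intro μ hμ
    have h1 := ev_span (fun _ => 1) (fun l => IsPart n l ∧ l ≠ [n])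
      (fun l hl => hS1 n l hl.1 (by omega) hl.2) (H μ - sch [n]) (by
        have := hH.norm μ hμ
        simpa [and_assoc] using this)
    rw [map_sub, hS2, sub_eq_zero] at h1
    exact h1
  have hWev : ∀ m, ev (fun _ => 1) (WN m) = 1 := by
    intro m
    have h1 : ev (fun _ => 1) (C (qf m) : Lam) = qf m := (ev (fun _ => 1)).commutes (qf m)
    rw [WN, map_mul, hW1, h1, mul_inv_cancel₀ (qf_ne m)]
  have hXev : ev (fun _ => 1) (X 0 : Lam) = 1 := by simp [ev]
  refine ⟨fun hn4 => ⟨?_, ?_⟩, ?_, ?_⟩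
  · -- divisibility
    rw [← hZ1]
    let P : Submodule K Lam :=
      { carrier := {f | (Polynomial.X : Polynomial K) ^ 2 ∣ EP f}
        add_mem' := by
          intro a b ha hb
          change (Polynomial.X : Polynomial K) ^ 2 ∣ EP (a + b)
          rw [map_add]
          exact dvd_add ha hb
        zero_mem' := by
          change (Polynomial.X : Polynomial K) ^ 2 ∣ EP 0
          rw [map_zero]
          exact dvd_zero _
        smul_mem' := by
          intro c a ha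
          change (Polynomial.X : Polynomial K) ^ 2 ∣ EP (c • a)
          rw [map_smul, Polynomial.smul_eq_C_mul]
          exact Dvd.dvd.mul_left ha _ }
    have h2 := sub_span P (fun l => IsPart n l ∧ Dom l (conj [n - 2, 2])) ?_ _ (by
      have := hH.trit _ (isPart_22 hn4)
      simpa [and_assoc] using this)
    · exact h2
    · rintro l ⟨hl, hd⟩
      change (Polynomial.X : Polynomial K) ^ 2 ∣ EP (sch l)
      obtain ⟨l', hl'⟩ := conj_22 hn4
      have h1 := hd 1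
      have h2 := hd 2
      rw [hl'] at h1 h2
      rcases l with _ | ⟨a, l⟩
      · simp at h1
      rcases l with _ | ⟨b, l⟩
      · simp at h1 h2
        rw [hZ2 a [] (by omega)]
        exact dvd_zero _
      · simp at h1 h2
        by_cases ha : 3 ≤ a
        · rw [hZ2 a (b :: l) ha]
          exact dvd_zero _
        · exact hZ3 a b l h1 (by omega)
  · have h1 := hH.triq _ (isPart_22 hn4)
    have h2 := iv_span (V3 n) (fun l => IsPart n l ∧ Dom l [n - 2, 2]) (by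
      rintro l ⟨hl, hd⟩
      rcases part_22 hn4 hl hd with h | h | h
      · rw [h]; exact in_n hHM n
      · rw [h]; exact in_n1 hHM hHR n (by omega)
      · rw [h]; exact in_n2 hHM hHR n (by omega)) _ (by simpa [and_assoc] using h1)
    rw [plX_inv] at h2
    obtain ⟨α, β, γ, h3⟩ := mem3 h2
    refine ⟨α, β, γ, ?_, h3⟩
    have h4 := hev1 _ (isPart_22 hn4)
    rw [h3] at h4
    simpa [hWev, hXev] using h4
  · rw [← hZ1]
    have h2 := sub_span (LinearMap.ker EP.toLinearMap)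
      (fun l => IsPart n l ∧ Dom l (conj [n - 2, 1, 1])) ?_ _ (by
      have := hH.trit _ (isPart_211 hn)
      simpa [and_assoc] using this)
    · exact h2
    · rintro l ⟨hl, hd⟩
      change EP (sch l) = 0
      obtain ⟨l', hl'⟩ := conj_211 hn
      have h1 := hd 1
      rw [hl'] at h1
      rcases l with _ | ⟨a, l⟩
      · simp at h1
      · simp at h1
        exact hZ2 a l h1
  · have h1 := hH.triq _ (isPart_211 hn)
    have h2 := iv_span (V4 n) (fun l => IsPart n l ∧ Dom l [n - 2, 1, 1]) (by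
      rintro l ⟨hl, hd⟩
      rcases part_211 hn hl hd with h | h | h | h
      · rw [h]; exact v3_v4 (in_n hHM n)
      · rw [h]; exact v3_v4 (in_n1 hHM hHR n (by omega))
      · rw [h]; exact v3_v4 (in_n2 hHM hHR n (by omega))
      · rw [h]; exact in_n11 hHM hHR n (by omega)) _ (by simpa [and_assoc] using h1)
    rw [plX_inv] at h2
    obtain ⟨α, β, γ, δ, h3⟩ := mem4 h2
    refine ⟨α, β, γ, δ, ?_, h3⟩
    have h4 := hev1 _ (isPart_211 hn)
    rw [h3] at h4
    simpa [hWev, hXev] using h4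

end Pool.Agent.NE3
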