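import Pool.Agent.NE3.Stmts
import Pool.Agent.NEK.ABP

/-!
# The four products as sums over words (module N3_WRA)
-/

set_option autoImplicit false

namespace Pool.Agent.NE3

open MvPolynomial Finset Pool.Agent.NEK

namespace WRA

open Pool.Agent.NEK.ABP

theorem sw_add {M : Type} [AddCommMonoid M] {N : ℕ} :
    ∀ (n : ℕ) (F G : List (Fin N) → M), sw n (fun w => F w + G w) = sw n F + sw n G
  | 0, _, _ => rfl
  | n + 1, F, G => by
      change ∑ r : Fin N, sw n (fun w => F (r :: w) + G (r :: w)) =
        ∑ r : Fin N, sw n (fun w => F (r :: w)) + ∑ r : Fin N, sw n (fun w => G (r :: w))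
      rw [← Finset.sum_add_distrib]
      exact Finset.sum_congr rfl fun r _ => sw_add n _ _

/-- The value of a word with two more letters, times the weight. -/
noncomputable def vv (n : ℕ) (w : List (Fin n)) (r s : Fin n) : Lam :=
  C (q ^ mj w) * valw (fun i => (X i : Lam)) (s :: r :: w)

open Classical in
/-- Coefficients. -/
noncomputable def co (a b c d : K) {n : ℕ} (w : List (Fin n)) (r s : Fin n) : K :=
  if hl w r then (if r < s then d else b) else (if r < s then c else a)

open Classical in
theorem comb (n : ℕ) (a b c d : K) :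
    sw (n - 2) (fun w : List (Fin n) => ∑ r : Fin n, ∑ s : Fin n, C (co a b c d w r s) * vv n w r s)
      = a • Sd n False False + b • Sd n True False + c • Sd n False True + d • Sd n True True := by
  have h : ∀ (z : K) (D E : Prop), z • Sd n D E =
      sw (n - 2) (fun w : List (Fin n) => ∑ r : Fin n, ∑ s : Fin n,
        C z * (if (hl w r ↔ D) ∧ (r < s ↔ E) then vv n w r s else 0)) := by
    intro z D E
    rw [← C_mul', Sd, ← sw_mul]
    apply sw_congr
    intro w _
    rw [Finset.mul_sum]
    refine Finset.sum_congr rfl fun r _ => ?_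
    rw [Finset.mul_sum]
    rfl
  rw [h, h, h, h, ← sw_add, ← sw_add, ← sw_add]
  apply sw_congr
  intro w _
  rw [← Finset.sum_add_distrib, ← Finset.sum_add_distrib, ← Finset.sum_add_distrib]
  refine Finset.sum_congr rfl fun r _ => ?_
  rw [← Finset.sum_add_distrib, ← Finset.sum_add_distrib, ← Finset.sum_add_distrib]
  refine Finset.sum_congr rfl fun s _ => ?_
  unfold co
  by_cases h1 : hl w r <;> by_cases h2 : r < s <;> simp [h1, h2]

theorem hl_cons {n : ℕ} (x : Fin n) (w : List (Fin n)) (r : Fin n) : hl (x :: w) r ↔ x < r := by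
  unfold hl
  simp

open Classical in
theorem mj_one {n : ℕ} (w : List (Fin n)) (hw : 1 ≤ w.length) (r : Fin n) :
    mj (r :: w) = mj w + (if hl w r then w.length else 0) := by
  cases w with
  | nil => simp at hw
  | cons x w =>
    rw [mj_cons]
    simp only [hl_cons]

theorem mj_two {n : ℕ} (w : List (Fin n)) (r s : Fin n) :
    mj (s :: r :: w) = mj (r :: w) + (if r < s then w.length + 1 else 0) := by
  rw [mj_cons]
  congr

theorem hX_one (hR : Stmt_HR) : hX 1 = (X 0 : Lam) := by
  have h2 := hR Lam (fun i => (X i : Lam)) 0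
  rw [Finset.sum_range_one] at h2
  have h4 : hN (fun i => (X i : Lam)) (0 - 0) = 1 := by rw [Nat.sub_zero, hN]
  rw [h4, mul_one] at h2
  unfold hX
  simpa using h2

theorem W_two (hN' : Stmt_WNR) (hR : Stmt_HR) :
    WN 2 = C (1 - q) * hX 2 + C q * (X 0 * X 0) := by
  have h0 : wN 0 = 1 := by
    unfold wN
    rw [hN]
  have h1 := hN' 1 le_rfl
  rw [Finset.Icc_self, Finset.sum_singleton, Nat.sub_self, h0, hX_one hR, pow_zero, C_1, one_mul,
    mul_one, pow_one] at h1
  have h2 := hN' 2 (by norm_num)
  have e : Icc 1 2 = {1, 2} := by decide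
  rw [e, Finset.sum_pair (by norm_num), hX_one hR] at h2
  have e1 : (2 : ℕ) - 1 = 1 := rfl
  rw [e1, Nat.sub_self, h0, pow_zero, C_1, one_mul, mul_one, pow_one] at h2
  have h3 : qf 2 = (1 - q) * (1 - q ^ 2) := by
    unfold qf poch
    rw [Finset.prod_range_succ, Finset.prod_range_one]
    ring
  unfold WN
  rw [h3, C_mul, mul_assoc, h2]
  calc C (1 - q) * (C q * X 0 * wN 1 + hX 2)
      = C (1 - q) * hX 2 + C q * (X 0 * (C (1 - q) * wN 1)) := by ring
    _ = _ := by rw [h1]

theorem pieri2 (hP : Stmt_PIW) {N : ℕ} (w : List (Fin N)) (h : w.length + 2 ≤ N) :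
    hX 2 * valw (fun i => (X i : Lam)) w =
      ∑ r : Fin N, ∑ s : Fin N, (if r < s then 0 else valw (fun i => (X i : Lam)) (s :: r :: w)) := by
  by_cases hw : Bal w
  · have h1 := hP Lam (fun i => (X i : Lam)) N 2 w hw h
    unfold hX
    rw [h1]
    change ∑ s : Fin N, ∑ r : Fin N, (if [s, r].Pairwise (· ≤ ·) then
      valw (fun i => (X i : Lam)) ([s, r] ++ w) else 0) = _
    rw [Finset.sum_comm]
    refine Finset.sum_congr rfl fun r _ => Finset.sum_congr rfl fun s _ => ?_
    by_cases hs : r < s
    · rw [if_pos hs, if_neg]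
      intro hp
      rw [List.pairwise_pair] at hp
      exact absurd hp (not_le.mpr hs)
    · rw [if_neg hs, if_pos]
      · rfl
      · rw [List.pairwise_pair]
        exact not_lt.mp hs
  · have h0 : valw (fun i => (X i : Lam)) w = 0 := by
      unfold valw
      rw [if_neg hw]
    rw [h0, mul_zero]
    symm
    refine Finset.sum_eq_zero fun r _ => Finset.sum_eq_zero fun s _ => ?_
    split_ifs
    · rfl
    · unfold valw
      rw [if_neg fun h => hw h.1.1]

end WRA

open WRA Pool.Agent.NEK.ABP in
theorem t_WRA : Stmt_WNC → Stmt_PIW → Stmt_WNR → Stmt_HR → Stmt_WRA := by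
  classical
  intro hW hP hN' hR n hn
  obtain ⟨k, rfl⟩ : ∃ k, n = k + 2 := ⟨n - 2, by omega⟩
  have hk : 1 ≤ k := by omega
  have e1 : k + 2 - 2 = k := rfl
  have e2 : k + 2 - 1 = k + 1 := rfl
  -- products with `X 0`
  have p1 : ∀ w : List (Fin (k + 2)), w.length = k → ∀ r,
      X 0 * valw (fun i => (X i : Lam)) (r :: w) =
        ∑ s : Fin (k + 2), valw (fun i => (X i : Lam)) (s :: r :: w) := by
    intro w hw r
    exact pieri1 hP hR (r :: w) (by rw [List.length_cons, hw])
  have p2 : ∀ w : List (Fin (k + 2)), w.length = k →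
      X 0 * X 0 * valw (fun i => (X i : Lam)) w =
        ∑ r : Fin (k + 2), ∑ s : Fin (k + 2), valw (fun i => (X i : Lam)) (s :: r :: w) := by
    intro w hw
    rw [mul_assoc, pieri1 hP hR w (by omega), Finset.mul_sum]
    exact Finset.sum_congr rfl fun r _ => p1 w hw r
  refine ⟨?_, ?_, ?_, ?_⟩
  · have h := comb (k + 2) 1 (q ^ k) (q ^ k * q) (q ^ k * (q ^ k * q))
    rw [one_smul] at h
    rw [e1, ← h, hW (k + 2) (k + 2) le_rfl]
    change ∑ s : Fin (k + 2), ∑ r : Fin (k + 2), sw k (fun w : List (Fin (k + 2)) =>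
      C (q ^ mj (s :: r :: w)) * valw (fun i => (X i : Lam)) (s :: r :: w)) = _
    rw [Finset.sum_comm, ← Finset.sum_congr rfl fun r _ => sw_sum _ _ _, ← sw_sum]
    apply sw_congr
    intro w hw
    refine Finset.sum_congr rfl fun r _ => Finset.sum_congr rfl fun s _ => ?_
    rw [mj_two, mj_one w (by omega), hw, vv, ← mul_assoc, ← C_mul]
    congr 2
    unfold co
    split_ifs <;> ring
  · have h := comb (k + 2) 1 (q ^ k) 1 (q ^ k)
    rw [one_smul, one_smul] at h
    rw [e1, e2, ← h, hW (k + 2) (k + 1) (by omega), ← sw_mul]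
    change ∑ r : Fin (k + 2), sw k (fun w : List (Fin (k + 2)) =>
      X 0 * (C (q ^ mj (r :: w)) * valw (fun i => (X i : Lam)) (r :: w))) = _
    rw [← sw_sum]
    apply sw_congr
    intro w hw
    refine Finset.sum_congr rfl fun r _ => ?_
    rw [mul_left_comm, p1 w hw r, Finset.mul_sum]
    refine Finset.sum_congr rfl fun s _ => ?_
    rw [mj_one w (by omega), hw, vv, ← mul_assoc, ← C_mul]
    congr 2
    unfold co
    split_ifs <;> ring
  · have h := comb (k + 2) 1 1 q q
    rw [one_smul, one_smul] at h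
    rw [e1, ← h, W_two hN' hR, hW (k + 2) k (by omega), ← sw_mul]
    apply sw_congr
    intro w hw
    have h1 : (C (1 - q) * hX 2 + C q * (X 0 * X 0)) *
        (C (q ^ mj w) * valw (fun i => (X i : Lam)) w) =
        C (q ^ mj w) * (C (1 - q) * (hX 2 * valw (fun i => (X i : Lam)) w) +
          C q * (X 0 * X 0 * valw (fun i => (X i : Lam)) w)) := by ring
    rw [h1, pieri2 hP w (by omega), p2 w hw, Finset.mul_sum, Finset.mul_sum,
      ← Finset.sum_add_distrib, Finset.mul_sum]
    refine Finset.sum_congr rfl fun r _ => ?_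
    rw [Finset.mul_sum, Finset.mul_sum, ← Finset.sum_add_distrib, Finset.mul_sum]
    refine Finset.sum_congr rfl fun s _ => ?_
    unfold co vv
    by_cases h2 : r < s
    · simp only [h2, if_true, ite_self]
      ring
    · simp only [h2, if_false, ite_self, C_1, C_sub]
      ring
  · have h := comb (k + 2) 1 1 1 1
    simp only [one_smul] at h
    rw [e1, ← h, hW (k + 2) k (by omega), ← sw_mul]
    apply sw_congr
    intro w hw
    rw [mul_left_comm, p2 w hw, Finset.mul_sum]
    refine Finset.sum_congr rfl fun r _ => ?_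
    rw [Finset.mul_sum]
    refine Finset.sum_congr rfl fun s _ => ?_
    unfold co vv
    simp only [ite_self, C_1, one_mul]

end Pool.Agent.NE3
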