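import Pool.Agent.NE3.Stmts
import Pool.Agent.NEK.ABP

/-!
# Positivity of the sums over words (module N3_WRB)
-/

set_option autoImplicit false

namespace Pool.Agent.NE3

open MvPolynomial Finset Pool.Agent.NEK

namespace WRB

/-- the new letter `x` does not make a descent -/
def pw {N : ℕ} (w : List (Fin N)) (x : Fin N) : Prop := ∀ y, w.head? = some y → x ≤ y

open Classical in
theorem mj_cons' {N : ℕ} (w : List (Fin N)) (x : Fin N) :
    mj (x :: w) = mj w + (if pw w x then 0 else w.length) := by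
  cases w with
  | nil => simp [mj]
  | cons y w =>
    rw [ABP.mj_cons]
    by_cases h : y < x
    · have h1 : ¬ pw (y :: w) x := fun h2 => absurd h (not_lt.2 (h2 y rfl))
      rw [if_pos h, if_neg h1]
    · have h1 : pw (y :: w) x := by
        intro z hz
        rw [List.head?_cons, Option.some.injEq] at hz
        rw [← hz]
        exact not_lt.1 h
      rw [if_neg h, if_pos h1]

theorem hl_cons {N : ℕ} (w : List (Fin N)) (x r : Fin N) : hl (x :: w) r ↔ x < r := by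
  unfold hl
  constructor
  · rintro ⟨y, hy, h⟩
    rw [List.head?_cons, Option.some.injEq] at hy
    rw [hy]
    exact h
  · intro h
    exact ⟨x, rfl, h⟩

theorem sw_add {M : Type} [AddCommMonoid M] {N : ℕ} :
    ∀ (n : ℕ) (F G : List (Fin N) → M), sw n (fun w => F w + G w) = sw n F + sw n G
  | 0, _, _ => rfl
  | n + 1, F, G => by
      change ∑ r : Fin N, sw n (fun w => F (r :: w) + G (r :: w)) =
        ∑ r : Fin N, sw n (fun w => F (r :: w)) + ∑ r : Fin N, sw n (fun w => G (r :: w))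
      rw [← Finset.sum_add_distrib]
      exact Finset.sum_congr rfl fun r _ => sw_add n _ _

open Classical in
/-- sum over the last three letters -/
noncomputable def T3 {N : ℕ} (c : Fin N → Fin N → Fin N → Prop) (V : Fin N → Fin N → Fin N → Lam) :
    Lam := ∑ x, ∑ r, ∑ s, if c x r s then V s r x else 0

theorem T3_mem {N : ℕ} (S : AddSubmonoid Lam) (c : Fin N → Fin N → Fin N → Prop)
    (V : Fin N → Fin N → Fin N → Lam) (h : ∀ s r x, V s r x ∈ S) : T3 c V ∈ S := by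
  unfold T3
  refine AddSubmonoid.sum_mem S fun x _ => AddSubmonoid.sum_mem S fun r _ =>
    AddSubmonoid.sum_mem S fun s _ => ?_
  split_ifs
  · exact h s r x
  · exact zero_mem _

theorem T3_mul {N : ℕ} (a : Lam) (c : Fin N → Fin N → Fin N → Prop)
    (V : Fin N → Fin N → Fin N → Lam) : a * T3 c V = T3 c (fun s r x => a * V s r x) := by
  unfold T3
  simp only [Finset.mul_sum, mul_ite, mul_zero]

theorem T3_add {N : ℕ} (c : Fin N → Fin N → Fin N → Prop) (p : Fin N → Prop)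
    (V : Fin N → Fin N → Fin N → Lam) :
    T3 (fun x r s => p x ∧ c x r s) V + T3 (fun x r s => ¬ p x ∧ c x r s) V = T3 c V := by
  unfold T3
  simp only [← Finset.sum_add_distrib]
  refine Finset.sum_congr rfl fun x _ => Finset.sum_congr rfl fun r _ =>
    Finset.sum_congr rfl fun s _ => ?_
  by_cases hc : c x r s
  · by_cases h : p x
    · rw [if_pos ⟨h, hc⟩, if_neg fun h' => h'.1 h, if_pos hc, add_zero]
    · rw [if_neg fun h' => h h'.1, if_pos ⟨h, hc⟩, if_pos hc, zero_add]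
  · rw [if_neg fun h' => hc h'.2, if_neg fun h' => hc h'.2, if_neg hc, add_zero]

theorem T3_congr {N : ℕ} (c c' : Fin N → Fin N → Fin N → Prop)
    (V V' : Fin N → Fin N → Fin N → Lam) (h : ∀ x r s, c x r s ↔ c' x r s)
    (hV : ∀ x r s, c x r s → V s r x = V' s r x) : T3 c V = T3 c' V' := by
  unfold T3
  refine Finset.sum_congr rfl fun x _ => Finset.sum_congr rfl fun r _ =>
    Finset.sum_congr rfl fun s _ => ?_
  by_cases hc : c x r s
  · rw [if_pos hc, if_pos ((h x r s).1 hc), hV x r s hc]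
  · rw [if_neg hc, if_neg fun h' => hc ((h x r s).2 h')]

theorem T3_zero {N : ℕ} (c : Fin N → Fin N → Fin N → Prop)
    (V : Fin N → Fin N → Fin N → Lam) (h : ∀ x r s, ¬ c x r s) : T3 c V = 0 := by
  unfold T3
  refine Finset.sum_eq_zero fun x _ => Finset.sum_eq_zero fun r _ =>
    Finset.sum_eq_zero fun s _ => ?_
  rw [if_neg (h x r s)]

/-- `Stmt_KNS` for `T3` -/
theorem kns (hS : Stmt_KNS) {N : ℕ} (V : Fin N → Fin N → Fin N → Lam)
    (h1 : ∀ x r s, r ≤ x → x < s → V s r x = V r s x)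
    (h2 : ∀ x r s, r < s → s ≤ x → V s r x = V s x r)
    (p : Fin N → Prop) (hp : ∀ x y, p x → y ≤ x → p y) :
    T3 (fun x r s => p x ∧ x < r ∧ s ≤ r) V = T3 (fun x r s => p x ∧ r ≤ x ∧ r < s) V +
      T3 (fun x r s => p x ∧ ¬ p r ∧ x < s ∧ s ≤ r) V := by
  have h := hS Lam N V h1 h2 p hp
  unfold T3
  convert h

/-- the two relations -/
theorem rel2 (hS : Stmt_KNS) {N : ℕ} (V : Fin N → Fin N → Fin N → Lam)
    (h1 : ∀ x r s, r ≤ x → x < s → V s r x = V r s x)
    (h2 : ∀ x r s, r < s → s ≤ x → V s r x = V s x r)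
    (p : Fin N → Prop) (hp : ∀ x y, p x → y ≤ x → p y) :
    T3 (fun x r s => ¬ p x ∧ r ≤ x ∧ r < s) V = T3 (fun x r s => ¬ p x ∧ x < r ∧ s ≤ r) V +
      T3 (fun x r s => p x ∧ ¬ p r ∧ x < s ∧ s ≤ r) V := by
  have e1 := kns hS V h1 h2 p hp
  have e2 := kns hS V h1 h2 (fun _ => True) (fun _ _ _ _ => trivial)
  have e3 : T3 (fun x r s => (True ∧ ¬ True ∧ x < s ∧ s ≤ r)) V = 0 :=
    T3_zero _ _ fun x r s h => h.2.1 trivial
  have e4 : T3 (fun x r s => True ∧ x < r ∧ s ≤ r) V = T3 (fun x r s => x < r ∧ s ≤ r) V :=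
    T3_congr _ _ _ _ (fun x r s => by simp) fun _ _ _ _ => rfl
  have e5 : T3 (fun x r s => True ∧ r ≤ x ∧ r < s) V = T3 (fun x r s => r ≤ x ∧ r < s) V :=
    T3_congr _ _ _ _ (fun x r s => by simp) fun _ _ _ _ => rfl
  rw [e3, e4, e5, add_zero, ← T3_add _ p, ← T3_add (fun x r s => r ≤ x ∧ r < s) p, e1] at e2
  have e6 : ∀ a b c d : Lam, a + b + c = a + d → d = c + b := by
    intro a b c d h
    have h3 : a + (b + c) = a + d := by rw [← h, add_assoc]
    rw [← add_left_cancel h3, add_comm]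
  exact e6 _ _ _ _ e2

/-- the values -/
noncomputable def VV {N : ℕ} (w : List (Fin N)) (s r x : Fin N) : Lam :=
  valw (fun i => (X i : Lam)) (s :: r :: x :: w)

theorem VV1 (hK : Stmt_KNU) {N : ℕ} (w : List (Fin N)) (x r s : Fin N) (h1 : r ≤ x)
    (h2 : x < s) : VV w s r x = VV w r s x :=
  (hK Lam (fun i => (X i : Lam)) N w x r s).1 h1 h2

theorem VV2 (hK : Stmt_KNU) {N : ℕ} (w : List (Fin N)) (x r s : Fin N) (h1 : r < s)
    (h2 : s ≤ x) : VV w s r x = VV w s x r :=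
  (hK Lam (fun i => (X i : Lam)) N w x r s).2 h1 h2

theorem pw_down {N : ℕ} (w : List (Fin N)) (x y : Fin N) (h : pw w x) (hy : y ≤ x) : pw w y :=
  fun z hz => hy.trans (h z hz)

open Classical in
/-- the sum over the last three letters with weights -/
theorem inner {N k : ℕ} (w : List (Fin N)) (hw : w.length = k) (d e : Prop) :
    (∑ x : Fin N, ∑ r : Fin N, ∑ s : Fin N,
      if (hl (x :: w) r ↔ d) ∧ (r < s ↔ e) then
        C (q ^ mj (x :: w)) * valw (fun i => (X i : Lam)) (s :: r :: x :: w) else 0) =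
    C (q ^ mj w) * (T3 (fun x r s => pw w x ∧ (x < r ↔ d) ∧ (r < s ↔ e)) (VV w) +
      C (q ^ k) * T3 (fun x r s => ¬ pw w x ∧ (x < r ↔ d) ∧ (r < s ↔ e)) (VV w)) := by
  rw [mul_add, ← mul_assoc, T3_mul, T3_mul]
  unfold T3
  simp only [← Finset.sum_add_distrib]
  refine Finset.sum_congr rfl fun x _ => Finset.sum_congr rfl fun r _ =>
    Finset.sum_congr rfl fun s _ => ?_
  rw [mj_cons', hl_cons, hw]
  by_cases h : (x < r ↔ d) ∧ (r < s ↔ e)
  · rw [if_pos h]
    by_cases hp : pw w x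
    · rw [if_pos hp, if_pos ⟨hp, h⟩, if_neg fun h' => h'.1 hp, add_zero, add_zero]
      rfl
    · rw [if_neg hp, if_neg fun h' => hp h'.1, if_pos ⟨hp, h⟩, zero_add, pow_add, C_mul]
      rfl
  · rw [if_neg h, if_neg fun h' => h h'.2, if_neg fun h' => h h'.2, add_zero]

/-- `Sd` as a sum over the words without the last three letters -/
theorem Sd_eq (k : ℕ) (d e : Prop) :
    Sd (k + 3) d e = sw k (fun w : List (Fin (k + 3)) =>
      C (q ^ mj w) * (T3 (fun x r s => pw w x ∧ (x < r ↔ d) ∧ (r < s ↔ e)) (VV w) +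
      C (q ^ k) * T3 (fun x r s => ¬ pw w x ∧ (x < r ↔ d) ∧ (r < s ↔ e)) (VV w))) := by
  classical
  unfold Sd
  have h1 : k + 3 - 2 = k + 1 := by omega
  rw [h1]
  change (∑ x : Fin (k + 3), sw k (fun w : List (Fin (k + 3)) => ∑ r : Fin (k + 3),
    ∑ s : Fin (k + 3), _)) = _
  rw [← ABP.sw_sum]
  apply ABP.sw_congr
  intro w hw
  rw [← inner w hw d e]

theorem Sd_mem (hD : Stmt_PAD) (n : ℕ) (hn : 3 ≤ n) (d e : Prop) : Sd n d e ∈ SPos n := by
  unfold Sd
  apply ABP.sw_mem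
  intro w hw
  apply AddSubmonoid.sum_mem
  intro r _
  apply AddSubmonoid.sum_mem
  intro s _
  split_ifs
  · exact ABP.val_mem hD (s :: r :: w) (by rw [List.length_cons, List.length_cons, hw]; omega) _
  · exact zero_mem _

end WRB

open WRB in
theorem t_WRB : Stmt_KNU → Stmt_KNS → Stmt_PAD → Stmt_WRB := by
  intro hK hS hD n hn
  refine ⟨Sd_mem hD n hn _ _, Sd_mem hD n hn _ _, ?_⟩
  obtain ⟨k, rfl⟩ : ∃ k, n = k + 3 := ⟨n - 3, by omega⟩
  refine ⟨sw k (fun w : List (Fin (k + 3)) =>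
      C (q ^ mj w) * (T3 (fun x r s => pw w x ∧ r ≤ x ∧ r < s) (VV w) +
      C (q ^ k) * T3 (fun x r s => ¬ pw w x ∧ x < r ∧ s ≤ r) (VV w))), ?_,
    sw k (fun w : List (Fin (k + 3)) =>
      C (q ^ mj w) * T3 (fun x r s => pw w x ∧ ¬ pw w r ∧ x < s ∧ s ≤ r) (VV w)), ?_, ?_, ?_, ?_⟩
  · apply ABP.sw_mem
    intro w hw
    rw [mul_add, ← mul_assoc, ← C_mul, ← pow_add, T3_mul, T3_mul]
    refine AddSubmonoid.add_mem _ (T3_mem _ _ _ fun s r x => ?_) (T3_mem _ _ _ fun s r x => ?_)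
    · exact ABP.val_mem hD (s :: r :: x :: w) (by simp [hw]) _
    · exact ABP.val_mem hD (s :: r :: x :: w) (by simp [hw]) _
  · apply ABP.sw_mem
    intro w hw
    rw [T3_mul]
    refine T3_mem _ _ _ fun s r x => ?_
    exact ABP.val_mem hD (s :: r :: x :: w) (by simp [hw]) _
  · rw [Sd_eq, ← sw_add]
    apply ABP.sw_congr
    intro w hw
    have c1 : ∀ p : Fin (k + 3) → Prop,
        T3 (fun x r s => p x ∧ (x < r ↔ True) ∧ (r < s ↔ False)) (VV w) =
        T3 (fun x r s => p x ∧ x < r ∧ s ≤ r) (VV w) := fun p =>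
      T3_congr _ _ _ _ (fun x r s => by simp) fun _ _ _ _ => rfl
    rw [c1, c1 (fun x => ¬ pw w x),
      kns hS (VV w) (VV1 hK w) (VV2 hK w) (pw w) (pw_down w)]
    ring
  · rw [Sd_eq, Nat.add_sub_cancel, smul_eq_C_mul, ← ABP.sw_mul, ← sw_add]
    apply ABP.sw_congr
    intro w hw
    have c1 : ∀ p : Fin (k + 3) → Prop,
        T3 (fun x r s => p x ∧ (x < r ↔ False) ∧ (r < s ↔ True)) (VV w) =
        T3 (fun x r s => p x ∧ r ≤ x ∧ r < s) (VV w) := fun p =>
      T3_congr _ _ _ _ (fun x r s => by simp) fun _ _ _ _ => rfl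
    rw [c1, c1 (fun x => ¬ pw w x),
      rel2 hS (VV w) (VV1 hK w) (VV2 hK w) (pw w) (pw_down w)]
    ring
  · intro h3
    obtain rfl : k = 0 := by omega
    change C (q ^ mj []) * T3 (fun x r s => pw [] x ∧ ¬ pw [] r ∧ x < s ∧ s ≤ r) (VV []) = 0
    rw [T3_zero, mul_zero]
    intro x r s h
    apply h.2.1
    intro y hy
    simp at hy

end Pool.Agent.NE3
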