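import Pool.Agent.NE3.M22

/-!
# The four products in terms of four Schur positive functions
-/

set_option autoImplicit false

namespace Pool.Agent.NE3

open MvPolynomial Finset Pool.Agent.NEK

namespace WRD

lemma q_mem : q ∈ NN := Subsemiring.subset_closure (by simp)

lemma smul_mem {n : ℕ} {c : K} (hc : c ∈ NN) {f : Lam} (hf : f ∈ SPos n) : c • f ∈ SPos n := by
  refine AddSubmonoid.closure_induction (motive := fun x _ => c • x ∈ SPos n) ?_ ?_ ?_ hf
  · rintro x ⟨d, hd, β, hβ, rfl⟩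
    refine AddSubmonoid.subset_closure ⟨c * d, NN.mul_mem hc hd, β, hβ, ?_⟩
    rw [mul_smul]
  · rw [smul_zero]; exact (SPos n).zero_mem
  · intro x y _ _ hx hy
    rw [smul_add]; exact (SPos n).add_mem hx hy

section gen

variable {F M : Type*} [Field F] [AddCommGroup M] [Module F M]

lemma g0 (A C1 C2 C3 : M) (a a' x : F) (hx : x ≠ 0) (h : a = x * a') :
    A + a • (C1 + C3) + (a * x) • (C1 + a' • C3) + (a * (a * x)) • C2 =
      (A + a • C3) + (a + a * x) • C1 + (a * (a * x)) • (C2 + x⁻¹ • C3) := by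
  have e : a * (a * x) * x⁻¹ = a * x * a' := by
    rw [h]
    field_simp
  rw [smul_add (a * (a * x)), smul_smul, e]
  module

lemma g1 (A C1 C2 C3 : M) (a a' x : F) (hx : x ≠ 0) (h : a = x * a') :
    A + a • (C1 + C3) + (C1 + a' • C3) + a • C2 =
      (A + a • C3) + (1 + a) • C1 + a • (C2 + x⁻¹ • C3) := by
  have e : a * x⁻¹ = a' := by
    rw [h]
    field_simp
  rw [smul_add a C2, smul_smul, e]
  module

lemma g2 (A C1 C2 C3 : M) (a a' x : F) (hx : x ≠ 0) (h : a = x * a') :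
    A + (C1 + C3) + x • (C1 + a' • C3) + x • C2 =
      (A + a • C3) + (1 + x) • C1 + x • (C2 + x⁻¹ • C3) := by
  have e : x * x⁻¹ = 1 := mul_inv_cancel₀ hx
  rw [smul_add x C2, smul_smul, e, h]
  module

lemma g3 (A C1 C2 C3 : M) (a a' x : F) (hx : x ≠ 0) (h : a = x * a') :
    A + (C1 + C3) + (C1 + a' • C3) + C2 =
      (A + a • C3) + (2 : F) • C1 + (C2 + x⁻¹ • C3) + ((1 - x) * (a - 1)) • (x⁻¹ • C3) := by
  have e : a' = a + x⁻¹ + (1 - x) * (a - 1) * x⁻¹ - 1 := by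
    rw [h]
    field_simp
    ring
  have e2 : (1 - x) * (a - 1) * x⁻¹ = a' - a - x⁻¹ + 1 := by
    linear_combination -e
  rw [smul_smul, e2]
  module

end gen

end WRD

open WRD

theorem t_WRD : Stmt_WRA → Stmt_WRB → Stmt_WRD := by
  intro hA hB n hn
  obtain ⟨h1, h2, h3, h4⟩ := hA n hn
  obtain ⟨hFF, hTT, C1, hC1, C3, hC3, e10, e01, e3⟩ := hB n hn
  have hq := M22.q_ne
  have ha : q ^ (n - 2) = q * q ^ (n - 3) := by
    rw [← pow_succ']
    congr 1
    omega
  rw [e10, e01] at h1 h2 h3 h4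
  refine ⟨Sd n False False + q ^ (n - 2) • C3,
    (SPos n).add_mem hFF (smul_mem (NN.pow_mem q_mem _) hC3), C1, hC1, Sd n True True, hTT, C3,
    hC3, e3, ?_, ?_, ?_, ?_⟩
  · rw [h1]
    exact g0 _ _ _ _ _ _ _ hq ha
  · rw [h2]
    exact g1 _ _ _ _ _ _ _ hq ha
  · rw [h3]
    exact g2 _ _ _ _ _ _ _ hq ha
  · rw [h4]
    exact g3 _ _ _ _ _ _ _ hq ha

end Pool.Agent.NE3
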