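import Pool.Agent.NEK.Final
import Pool.Agent.NE3.CMU
import Pool.Agent.NE3.CGP
import Pool.Agent.NE3.PSI
import Pool.Agent.NE3.KNU
import Pool.Agent.NE3.WRA
import Pool.Agent.NE3.WRB
import Pool.Agent.NE3.WRD
import Pool.Agent.NE3.EVZ
import Pool.Agent.NE3.EVN
import Pool.Agent.NE3.TRI
import Pool.Agent.NE3.M22
import Pool.Agent.NE3.EX2
import Pool.Agent.NE3.EIG
import Pool.Agent.NE3.FN3

set_option autoImplicit false

namespace Pool.Agent.NE3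

open Pool.Agent.NEK

/-- `Δ_{s_λ} ∇ E_{n,n-2}` is Schur positive for all `n ≥ 3` and all `λ`. -/
theorem final3 : Stmt_final3 := by
  obtain ⟨hHR, hHU, hER, hEU, hHM, hHA, hHS⟩ := t_HNB
  have hPIW := t_PIW t_PIE
  have hWNR := t_WNR hHA hHS hHM
  have hWNC := t_WNC hWNR hPIW t_TEL
  have hEVS := t_EVS hHM hHS hHU
  have hEVW := t_EVW hWNR hHA hHS hHM
  have hMAC := t_MAC hEVS hEVW hHM hHR
  have hEXT := t_EXT hER hHR hHU hHM
  have hCGP := t_CGP hHM hHA hHS t_CMU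
  have hWRA := t_WRA hWNC hPIW hWNR hHR
  have hWRB := t_WRB t_KNU t_KNS t_PAD
  have hWRD := t_WRD hWRA hWRB
  have hEVZ := t_EVZ hHM hHA hHS
  have hEVN := t_EVN hWNR hHA hHS hHM
  have hTRI := t_TRI hHM hHR hEVS hEVW hEVZ
  have hM22 := t_M22 hTRI hEVN
  have hM211 := t_M211 hTRI hEVN
  have hEX2 := t_EX2 hER hHR hHU hHM hWNR hEXT
  exact t_FN3 hHM hMAC hWRD hM22 hM211 hEX2 t_EIG t_CMU hCGP t_PSI

end Pool.Agent.NE3
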