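import Pool.Agent.NEK.Stmts

/-!
# Statements for `Stmt_final3`: `Δ_{s_λ} ∇ E_{n,n-2}` is Schur positive (all `n ≥ 3`, all `λ`)

Built on the library `Pool.Agent.NEK` (helper25): `K = ℚ(q,t)`, `NN = ℕ[q,t]`, `Lam`, `sch`, `sN`,
`hN`, `IsPart`, `Dom`, `conj`, `IsMac`, `IsE`, `SPos`, words (`cont`, `Bal`, `mj`, `valw`, `sw`),
`WN n = (q;q)_n h_n[X/(1-q)]`, ...  All proofs are complete in the doc-strings.

Throughout `a = q^{n-2}`, so `q^{n-1} = a q`.  For a pair `(x, y)` put `e1 = x + y`, `e2 = x y`.  To the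
four partitions `(n)`, `(n-1,1)`, `(n-2,2)`, `(n-2,1,1)` belong the pairs `(a, aq)`, `(a, t)`, `(t, tq)`,
`(t, t²)`:  `B_μ = 1 + q + … + q^{n-3} + x + y`.  Overview:
`H_μ = C0 + e1 C1 + e2 (C2 + q⁻¹ C3)` for the first three and
`H_(n-2,1,1) = C0 + (t+t²) C1 + t³ (C2 + q⁻¹ C3) + (t-q)(a-t²) q⁻¹ C3`, with Schur positive `C0,…,C3`
(which do not contain `t`).
-/

set_option autoImplicit false

namespace Pool.Agent.NE3

open MvPolynomial Finset Pool.Agent.NEK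

/-! ## Definitions -/

/-- `[m]_q` -/
noncomputable def br (m : ℕ) : K := ∑ i ∈ range m, q ^ i

/-- `G1 r x y = h_{r-1}(x,y)` (`0` for `r = 0`); `(x - y) G1 r x y = x^r - y^r`. -/
noncomputable def G1 (r : ℕ) (x y : K) : K := ∑ i ∈ range r, x ^ i * y ^ (r - 1 - i)

/-- The cone of the functions `∑ c (xy)^β h_r(x,y)` with coefficients `c ∈ ℕ[q,t]`. -/
noncomputable def Cn : AddSubmonoid (K → K → K) :=
  AddSubmonoid.closure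
    {F | ∃ c ∈ NN, ∃ β r : ℕ, F = fun x y => c * ((x * y) ^ β * G1 (r + 1) x y)}

/-- coefficient of `H_(n)` in `∇ E_{n,n-2}` -/
noncomputable def k1 (n : ℕ) : K :=
  t ^ 2 * q * (1 - q ^ (n - 2) * q) * (1 - q ^ (n - 2)) /
    ((1 - q) * (1 - q ^ 2) * (t - q ^ (n - 2)) * (t - q ^ (n - 2) * q))

/-- coefficient of `H_(n-1,1)` in `∇ E_{n,n-2}` -/
noncomputable def k2 (n : ℕ) : K :=
  t ^ 2 * (1 - q ^ (n - 2)) *
    (q * q ^ (n - 2) * (1 - q ^ (n - 2)) + q ^ (n - 2) * t * (1 - q) -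
      q * t ^ 2 * (1 - q ^ (n - 2) * q)) /
    ((1 - q) ^ 2 * (t - q ^ (n - 2) * q) * (q ^ (n - 2) - t * q) * (q ^ (n - 2) - t ^ 2))

/-- coefficient of `H_(n-2,2)` in `∇ E_{n,n-2}` (it is `0` for `n = 3`) -/
noncomputable def k3 (n : ℕ) : K :=
  - (q * t ^ 2 * (1 - q ^ (n - 2)) * (q - q ^ (n - 2)) * (1 - q * t)) /
    ((1 - q) * (1 - q ^ 2) * (q ^ (n - 2) - t * q) * (t - q ^ (n - 2)) * (q - t))

/-- coefficient of `H_(n-2,1,1)` in `∇ E_{n,n-2}` -/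
noncomputable def k4 (n : ℕ) : K :=
  t ^ 3 * (1 - q ^ (n - 2)) / ((1 - q) * (q ^ (n - 2) - t ^ 2) * (q - t))

/-- `Ψ(F) = ∑_μ κ_μ F(x_μ, y_μ)` -/
noncomputable def Psi (n : ℕ) (F : K → K → K) : K :=
  k1 n * F (q ^ (n - 2)) (q ^ (n - 2) * q) + k2 n * F (q ^ (n - 2)) t +
    k3 n * F t (t * q) + k4 n * F t (t ^ 2)

/-- Final statement: `Δ_{s_λ} ∇ E_{n,n-2}` is Schur positive, `n ≥ 3`. -/
def Stmt_final3 : Prop :=
  ∀ (n : ℕ), 3 ≤ n → ∀ (H : List ℕ → Lam), IsMac n H →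
  ∀ (lam : List ℕ) (m : ℕ), IsPart m lam →
  ∀ (nabla delta : Lam →ₗ[K] Lam),
    (∀ μ, IsPart n μ → nabla (H μ) = Tm μ • H μ) →
    (∀ μ, IsPart n μ → delta (H μ) = ev (Bp μ) (sch lam) • H μ) →
  ∀ (E : ℕ → Lam), IsE n E → delta (nabla (E (n - 2))) ∈ SPos n

/-! ## Block C: the cone -/

/-- (module N3_CGP, part 1) the cone is closed under products; it contains the constants of `ℕ[q,t]`,
`x + y` and `x y`.

Proof.  Facts on `G1` (all for arbitrary `x, y`): `G1 (r+1) x y = x^r + y · G1 r x y = y^r + x · G1 r x y`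
(`Finset.sum_range_succ`, `sum_range_succ'`), and
`x^r · G1 (s+1) x y + y^{s+1} · G1 r x y = G1 (r+s+1) x y` (split `range (r+s+1)` at `r`:
`Finset.sum_range_add`... ).  Hence
`G1 (r+1) G1 (s+1) = (x^r + y G1 r) G1 (s+1) = x^r G1 (s+1) + y G1 r (y^s + x G1 s)
 = G1 (r+s+1) + x y G1 r G1 s`,
and by induction on `r` the product of two generators `(xy)^β G1 (r+1)`, `(xy)^γ G1 (s+1)` is in `Cn`
(`G1 0 = 0`).  Products of general elements: `AddSubmonoid.closure_induction` twice.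
Constant `c`: `β = 0`, `r = 0` (`G1 1 = 1`).  `x + y = G1 2 x y`.  `x y = (xy)^1 G1 1`. -/
def Stmt_CMU : Prop :=
  (∀ F ∈ Cn, ∀ G ∈ Cn, (fun x y => F x y * G x y) ∈ Cn) ∧
  (∀ c ∈ NN, (fun _ _ => c) ∈ Cn) ∧
  (fun x y => x + y) ∈ Cn ∧ (fun x y => x * y) ∈ Cn

/-- (module N3_CGP, part 2) `s_λ[1 + q + … + q^{m-1} + x + y]` is in the cone.

Proof.  Work in the commutative ring `R = K → K → K` (pointwise operations; a `ℚ`-algebra).  By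
`Stmt_CMU`, `Cn` is the carrier of a `Subsemiring S` of `R`.  For a list `xs` of elements of `R` let
`pw' xs k = (∑_{z ∈ xs} z^{k+1}) + (fun x y => x^{k+1} + y^{k+1})` and
`D_xs(κ) = det (hZ (pw' xs) (κ i + j + 1))_{i,j}` (size `l`).  Show `D_xs(κ) ∈ S` for all strictly
decreasing `κ : Fin l → ℤ`, by induction on `xs`; the induction step is the theorem
`Pool.Agent.NEK.JTP.main` (with `y = z` the constant function `q^j ∈ S`), exactly as in `JTP.all`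
(`hZ_cons` holds for any power sums: `hZ (z^{k+1} + P_k) m = hZ P m + z · hZ (z^{k+1}+P_k) (m-1)`, same
proof with `Stmt_HA`, `Stmt_HS`).
Base case `xs = []`: by `Stmt_HM` for the evaluation homomorphisms `R → K` at `(x,y)` and `Stmt_HA`,
`Stmt_HS`, the function `hN (pw' []) m` is `fun x y => G1 (m+1) x y`
(`∑_{i+j=m} x^i y^j`); so write `h(m) = G1 (m+1)` for `m ≥ 0` and `h(m) = 0` for `m < 0`.  These satisfy
`h(m) - (x+y) h(m-1) + x y h(m-2) = [m = 0]` for all integers `m`.  Induction on `l`: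
* `l = 0`: `det = 1`.  `l = 1`: `h(κ 0 + 1) ∈ S`.
* if `κ (l-1) < -l` the last row is `0` (`κ + j + 1 ≤ κ + l < 0`).
* if `κ (l-1) = -l` the last row is `(0, …, 0, h(0)) = (0,…,0,1)`: expand along it; the minor is the
  determinant for `κ` restricted to `Fin (l-1)`.
* if `κ (l-1) > -l` and `l ≥ 3`: all `κ i + l ≥ 1`, so the vector `v = (0, …, 0, xy, -(x+y), 1)` satisfies
  `M v = 0` (`h(κ i + l) - (x+y) h(κ i + l - 1) + xy h(κ i + l - 2) = 0`), hence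
  `det M • v = adj(M) M v = 0` and `det M = 0` (last entry; `Matrix.adjugate_mul`).
* if `κ (l-1) > -l` and `l = 2`: `κ 0 > κ 1 ≥ -1`; with `u = κ 0 + 1 ≥ 1`, `v = κ 1 + 1 ≥ 0`, `u > v`:
  `det = h(u) h(v+1) - h(u+1) h(v) = (xy)^{v+1} h(u-v-1)`: by induction on `v`, from
  `h(u) = (x+y) h(u-1) - xy h(u-2)` and the same for `h(v+1)`...; or directly from
  `G1 (r+1) G1 (s+1) = G1 (r+s+1) + xy G1 r G1 s` (proof of `Stmt_CMU`) iterated: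
  `h(u) h(v+1) = ∑_{i ≤ v+1} (xy)^i h(u+v+1-2i)` and `h(u+1) h(v) = ∑_{i ≤ v} (xy)^i h(u+v+1-2i)`
  (`v + 1 ≤ u`).
Finally `κ i = λ_i - i - 1`, `xs = [q^0, …, q^{m-1}]` (constant functions). -/
def Stmt_CGP : Prop :=
  ∀ (m : ℕ) (l : List ℕ), l.Pairwise (· ≥ ·) →
    (fun x y : K => sN (fun k => (∑ j ∈ range m, (q ^ j) ^ (k + 1)) + (x ^ (k + 1) + y ^ (k + 1))) l)
      ∈ Cn

/-! ## Block P: positivity of `Ψ` -/

/-- (module N3_PSI) positivity of the functional `Ψ`.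

Proof.  `a = q^{n-2}`, `a' = q^{n-3}` (`a = q a'`), all in `NN`.  Put `b = br (n-2)`, `(1-q) b = 1 - a`, and
`g = gb (n-2)` where `gb 0 = 0`, `gb (m+1) = q² gb m + br m`; then `g ∈ NN` and by induction
`q (1-q)(1-q²) gb m = (1 - q^m)(q - q^m)`, i.e. `(1-q)(1-q²) q g = (1-a)(q-a)`.
Non-zero elements of `K`: `1-q, 1+q, q, q-t, a-t, aq-t, a-tq, a-t², tq-t²` (see `EVW.lift_ne`).
Let `G2 r x y z = ∑_{i<r} x^i G1 (r-1-i) y z` (`= h_{r-2}(x,y,z)`),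
`G3 r x y z w = ∑_{i<r} x^i G2 (r-1-i) y z w`.  Identities (termwise, no exceptions):
`(y-z) G2 r x y z = G1 r x y - G1 r x z`, `(z-w) G3 r x y z w = G2 r x y z - G2 r x y w`, and `G1`
symmetric.  For distinct `x,y,z`: `(x-y)(x-z)(y-z) G2 r x y z = (x-z)(x^r-y^r) - (x-y)(x^r-z^r)`, so `G2 r` is
symmetric on distinct arguments.

(1) Let `G x y = (x y)^β G1 (r+1) x y`, `A1 = G a (aq)`, `A2 = G a t`, `A3 = G t (tq)`, `A4 = G t (t²)`.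
There are `pa, pt, u, v, s, w, y ∈ NN` with
`(aq-t) pa = A1 - A2`, `(tq-a) pt = A3 - A2`, `(a-t) u = pa - pt`, `(a-t) v = a pa - t pt`,
`(tq-t²) s = A3 - A4`, `(a-t²) w = pt - s`, `(a-t) y = a A1 - t A3`, namely
* `pa = a^β (a^r br(r+1) G1 β (aq) t + t^β G2 (r+1) a (aq) t)`;
* `pt = t^β (t^r br(r+1) G1 β (tq) a + a^β G2 (r+1) t (tq) a)` (`G1 (r+1) a (aq) = a^r br(r+1)`);
* `u = (at)^β q G3 (r+1) a t (aq) (tq) + br(r+1) ∑_{i<β} q^i (at)^{β-1-i} G1 (r+1+2i) a t`;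
* `v = (at)^β (G2 (r+1) a (aq) t + t q G3 (r+1) a t (aq) (tq)) + br(r+1) ∑_{i<β} q^i (at)^{β-1-i} G1 (r+2+2i) a t`;
* `s = t^β ∑_{i<r+1} t^i G1 (β+r-i) (tq) (t²)`, `pt = t^β ∑_{i<r+1} t^i G1 (β+r-i) (tq) a` (second expression
  for the same `pt`, because `tq ≠ a`), `w = t^β ∑_{i<r+1} t^i G2 (β+r-i) (tq) a (t²)`;
* `y = q^β br(r+1) G1 (2β+r+1) a t`.
(2) `Psi n G = t² (q g u + b (v + t² w))`: here `v = pt + a u`; substitute `A1 = A2 + (aq-t) pa`,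
`A3 = A2 + (tq-a) pt`, `pa = pt + (a-t) u`, `A4 = A3 - (tq-t²) s`, `s = pt - (a-t²) w`; then both sides are
linear in `A2, pt, u, w` and the coefficients agree (`field_simp; ring`).
(3) Let `G' x y = x y G x y` (the generator with `β + 1`), with `u', v', w'`.  Then
`Psi n G' - t³ b A4 = t² (q g u' + b (v' + t² w' - t A4))` by (2) and
`v' + t² w' - t A4 = a t³ w + q t² s + a t v + a y`
(`pa' = a (A1 + t pa)`, `pt' = t (A3 + a pt)`, `s' = t (A3 + t² s)`, `w' = t (a w + s)`,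
`v' = (a² A1 - t² A3)/(a-t) + a t v`), which is `q` times an element of `NN` because `a = q a'`.
(4) General `F ∈ Cn`: `Psi n` is additive and `K`-linear in `F`: `AddSubmonoid.closure_induction`. -/
def Stmt_PSI : Prop :=
  ∀ n : ℕ, 3 ≤ n → ∀ F ∈ Cn, Psi n F ∈ NN ∧
    ∃ c ∈ NN, Psi n (fun x y => x * y * F x y) - t ^ 3 * br (n - 2) * F t (t ^ 2) = q * c

/-! ## Block W: words -/

/-- (module N3_KNU, part 1) Knuth moves do not change the value of a word.  The newest letter is the head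
of the list.

Proof.  The three words have the same `cont` (`List.count`, permutation).  With `c = cont w`,
`e_i` = unit vector, the words differ in one intermediate content.  If `w` is not ballot, all values are
`0`.  First move (`r2 ≤ r1 < r3`): `c + e_{r1}` is the same; `c' = c + e_{r1} + e_{r2}` against
`c'' = c + e_{r1} + e_{r3}`.  Assume `c + e_{r1}` and `c + e_{r1} + e_{r2} + e_{r3}` antitone.  Then `c'` is
antitone: at the place `r2` (`r2 > 0`): `c(r2) + [r1=r2] + 1 ≤ c(r2-1) + [r1 = r2-1] + [r3 = r2-1]` and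
`r3 ≠ r2-1`.  And `c''` is antitone: at the place `r3` we know
`c(r3) + 1 ≤ c(r3-1) + [r1 = r3-1] + [r2 = r3-1]`; if `r2 ≠ r3-1` done; if `r2 = r3-1` then `r1 = r3-1` (as
`r2 ≤ r1 < r3`) and `c(r3) + 1 ≤ c(r3-1) + 1` because `c` is antitone.
Second move (`r2 < r3 ≤ r1`): `c + e_{r1}` against `c + e_{r2}`; `c`, `c + e_{r1} + e_{r2}` and
`c + e_{r1} + e_{r2} + e_{r3}` antitone.  `c + e_{r2}` is antitone: `c(r2) + 1 ≤ c(r2-1) + [r1 = r2-1] = c(r2-1)`.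
`c + e_{r1}` is antitone: `c(r1) + 1 ≤ c(r1-1) + [r2 = r1-1]`; if `r2 = r1-1` then `r3 = r1` and
`c(r1) + 2 ≤ c(r1-1) + 1`.
(Useful lemma: for antitone `c : Fin N → ℕ`, `c + e_r` is antitone iff for all `i < r`: `c r + 1 ≤ c i`.) -/
def Stmt_KNU : Prop :=
  ∀ (R : Type) [CommRing R] [Algebra ℚ R] (P : ℕ → R) (N : ℕ) (w : List (Fin N))
    (r1 r2 r3 : Fin N),
    (r2 ≤ r1 → r1 < r3 → valw P (r3 :: r2 :: r1 :: w) = valw P (r2 :: r3 :: r1 :: w)) ∧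
    (r2 < r3 → r3 ≤ r1 → valw P (r3 :: r2 :: r1 :: w) = valw P (r3 :: r1 :: r2 :: w))

open Classical in
/-- (module N3_KNU, part 2) the sums over the last three letters.  `V s r x`: the letters `x, r, s` are
written in this order.  Pattern 01 is `r ≤ x`, `r < s`; pattern 10 is `x < r`, `s ≤ r`.

Proof.  For any condition `p : Fin N → Prop` which is closed downwards (`p x`, `y ≤ x` imply `p y`):
`∑ [p x][r ≤ x][r < s] V s r x = ∑ [p x][r ≤ x][x < s] V s r x + ∑ [p x][r < s][s ≤ x] V s r x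
 = ∑ [p x][r ≤ x][x < s] V r s x + ∑ [p x][r < s][s ≤ x] V s x r`; exchange the names
`r ↔ s` in the first sum and `x ↔ r` in the second:
`= ∑ [p x][s ≤ x < r] V s r x + ∑ [p r][x < s ≤ r] V s r x`.  And
`∑ [p x][x < r][s ≤ r] V s r x = ∑ [p x][s ≤ x < r] V s r x + ∑ [p x][x < s ≤ r] V s r x`.  The difference is
`∑ [x < s ≤ r] ([p x] - [p r]) V s r x = ∑ [p x][¬ p r][x < s ≤ r] V s r x`.
(The case `p = True` gives equality of the sums over the two patterns.) -/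
def Stmt_KNS : Prop :=
  ∀ (M : Type) [AddCommGroup M] (N : ℕ) (V : Fin N → Fin N → Fin N → M),
    (∀ x r s, r ≤ x → x < s → V s r x = V r s x) →
    (∀ x r s, r < s → s ≤ x → V s r x = V s x r) →
    ∀ p : Fin N → Prop, (∀ x y, p x → y ≤ x → p y) →
    ∑ x, ∑ r, ∑ s, (if p x ∧ x < r ∧ s ≤ r then V s r x else 0) =
      ∑ x, ∑ r, ∑ s, (if p x ∧ r ≤ x ∧ r < s then V s r x else 0) +
      ∑ x, ∑ r, ∑ s, (if p x ∧ ¬ p r ∧ x < s ∧ s ≤ r then V s r x else 0)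

/-- the last letter of `w` is smaller than `r` -/
def hl {N : ℕ} (w : List (Fin N)) (r : Fin N) : Prop := ∃ x, w.head? = some x ∧ x < r

open Classical in
/-- `S_{de}`: words `s :: r :: w` of length `n`, `w` of length `n-2`, weight `q^{maj w}`, with a descent at
`n-2` iff `d`, and a descent at `n-1` iff `e`. -/
noncomputable def Sd (n : ℕ) (d e : Prop) : Lam :=
  sw (n - 2) (fun w : List (Fin n) => ∑ r : Fin n, ∑ s : Fin n,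
    if (hl w r ↔ d) ∧ (r < s ↔ e) then
      C (q ^ mj w) * valw (fun i => (X i : Lam)) (s :: r :: w) else 0)

/-- (module N3_WRA) the four products as sums over words (uses `Stmt_WNC`, `Stmt_PIW`, `Stmt_WNR`,
`Stmt_HR`; helper lemmas in `Pool/Agent/NEK/ABP.lean`: `sw_congr`, `sw_sum`, `sw_mul`, `pieri1`).

Proof.  Take `N = n` everywhere.  `W_{n-2} = ∑_{|w| = n-2} q^{mj w} val w`.
* last: `p_1 p_1 val w = ∑_r ∑_s val (s :: r :: w)` (`pieri1` twice).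
* second: `W_{n-1} = ∑_{|w|=n-2} ∑_r q^{mj (r :: w)} val (r :: w)` and `mj (r :: w) = mj w + (n-2) [hl w r]`
  (`|w| = n-2 ≥ 1`); then `pieri1`.
* first: the same with one more letter, `mj (s :: r :: w) = mj (r :: w) + (n-1) [r < s]`.
* third: `W_2 = (1-q) h_2 + q h_1²` (`Stmt_WNR` for `n = 1, 2`, `W_2 = (1-q)(1-q²) w_2`), and by `Stmt_PIW`
  with `m = 2`: `h_2 val w = ∑_{r,s} [s ≤ r] val (s :: r :: w)` for ballot `w` (for other `w` both sides are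
  `0`), so `h_2 W_{n-2} = S_{·0}`, and `(1-q) S_{·0} + q (S_{·0} + S_{·1}) = S_{·0} + q S_{·1}`.
Here `q^{n-2} = a`; a sum over `w, r, s` is the sum of the four `Sd`. -/
def Stmt_WRA : Prop :=
  ∀ n : ℕ, 3 ≤ n →
    WN n = Sd n False False + q ^ (n - 2) • Sd n True False + (q ^ (n - 2) * q) • Sd n False True +
      (q ^ (n - 2) * (q ^ (n - 2) * q)) • Sd n True True ∧
    X 0 * WN (n - 1) = Sd n False False + q ^ (n - 2) • Sd n True False + Sd n False True +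
      q ^ (n - 2) • Sd n True True ∧
    WN 2 * WN (n - 2) = Sd n False False + Sd n True False + q • Sd n False True +
      q • Sd n True True ∧
    X 0 * X 0 * WN (n - 2) = Sd n False False + Sd n True False + Sd n False True + Sd n True True

/-- (module N3_WRB; uses `Stmt_KNU`, `Stmt_KNS`, `Stmt_PAD`) positivity.

Proof.  All `Sd` are in `SPos n`: `ABP.val_mem`, `ABP.sw_mem` (`Pool/Agent/NEK/ABP.lean`).
`n = 3`: `w = [x]`, `mj w = 0`; `C1 = Sd 3 True False`, `C3 = 0`; `Sd 3 True False = Sd 3 False True` is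
`Stmt_KNS` with `p = True`, `V s r x = valw (s :: r :: [x])` (the assumptions are `Stmt_KNU`).
`n ≥ 4`: let `k = n-3 ≥ 1`.  By definition `sw (n-2) F = ∑_x sw k (fun w => F (x :: w))`, so with
`|w| = k`, `ρ` the head of `w`, `V s r x = valw (s :: r :: x :: w)` and `mj (x :: w) = mj w + k [ρ < x]`:
`S_10 = ∑_w q^{mj w} (∑_{x≤ρ} [x<r][s≤r] V + q^k ∑_{ρ<x} [x<r][s≤r] V)` and
`S_01 = ∑_w q^{mj w} (∑_{x≤ρ} [r≤x][r<s] V + q^k ∑_{ρ<x} [r≤x][r<s] V)`.  Define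
`C3 = ∑_w q^{mj w} ∑ [x≤ρ][ρ<r][x<s≤r] V s r x` and
`C1 = ∑_w q^{mj w} (∑_{x≤ρ} [r≤x][r<s] V + q^k ∑_{ρ<x} [x<r][s≤r] V)`; both are in `SPos n`.  `Stmt_KNS` with
`p x = (x ≤ ρ)` gives `S_10 = C1 + C3`.  `Stmt_KNS` with `p = True` (total sums `T` of the two patterns are
equal) and with `x ≤ ρ`: the part `ρ < x` of pattern 01 is
`T - ∑_{x≤ρ}[01] = (part ρ<x of 10) + ∑_{x≤ρ}[10] - ∑_{x≤ρ}[01] = (part ρ<x of 10) + (the sum in C3)`, so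
`S_01 = C1 + q^k C3`. -/
def Stmt_WRB : Prop :=
  ∀ n : ℕ, 3 ≤ n → Sd n False False ∈ SPos n ∧ Sd n True True ∈ SPos n ∧
    ∃ C1 ∈ SPos n, ∃ C3 ∈ SPos n, Sd n True False = C1 + C3 ∧
      Sd n False True = C1 + q ^ (n - 3) • C3 ∧ (n = 3 → C3 = 0)

/-- (module N3_WRD) `Stmt_WRA → Stmt_WRB → Stmt_WRD`.
Proof: `C0 = S_00 + a C3`, `C2 = S_11`, `a = q^{n-2} = q q^{n-3}`; `module`-type computations
(`a q q^{n-3} = a a`). -/
def Stmt_WRD : Prop :=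
  ∀ n : ℕ, 3 ≤ n → ∃ C0 ∈ SPos n, ∃ C1 ∈ SPos n, ∃ C2 ∈ SPos n, ∃ C3 ∈ SPos n,
    (n = 3 → C3 = 0) ∧
    WN n = C0 + (q ^ (n - 2) + q ^ (n - 2) * q) • C1 +
      (q ^ (n - 2) * (q ^ (n - 2) * q)) • (C2 + q⁻¹ • C3) ∧
    X 0 * WN (n - 1) = C0 + (1 + q ^ (n - 2)) • C1 + (q ^ (n - 2)) • (C2 + q⁻¹ • C3) ∧
    WN 2 * WN (n - 2) = C0 + (1 + q) • C1 + q • (C2 + q⁻¹ • C3) ∧
    X 0 * X 0 * WN (n - 2) = C0 + (2 : K) • C1 + (C2 + q⁻¹ • C3) +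
      ((1 - q) * (q ^ (n - 2) - 1)) • (q⁻¹ • C3)

/-! ## Block E: evaluations -/

/-- `p_{i+1} ↦ (-1)^i (1 + Z^{i+1})` -/
noncomputable def EP : Lam →ₐ[K] Polynomial K :=
  aeval fun i => Polynomial.C ((-1) ^ i) * (1 + Polynomial.X ^ (i + 1))

/-- `p_{i+1} ↦ (-1)^i (1 - t^{i+1}) (1 + Z^{i+1})` -/
noncomputable def ET : Lam →ₐ[K] Polynomial K :=
  aeval fun i => Polynomial.C ((-1) ^ i * (1 - t ^ (i + 1))) * (1 + Polynomial.X ^ (i + 1))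

/-- (module N3_EVZ) evaluations of Schur functions (uses `Stmt_HM`, `Stmt_HA`, `Stmt_HS`).

Proof.  (1) `ET = EP ∘ plX (1 - t^{i+1})` on generators (`MvPolynomial.algHom_ext`).
(2), (3): by `Stmt_HM`, `EP (sch l)` is the determinant with entries `hZ P (l_i - i + j)`,
`P k = (-1)^k (1 + Z^{k+1})`.  `P k = (-1)^k + (-1)^k Z^{k+1}`; by `Stmt_HA`, `Stmt_HS` (last two parts; for the
second summand scaling by `Z^{k+1}`): `hN P m = ∑_{i+j=m} [i ≤ 1] [j ≤ 1] Z^j`, i.e. `hN P 0 = 1`,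
`hN P 1 = 1 + Z`, `hN P 2 = Z`, `hN P m = 0` for `m ≥ 3`.
(2) `l_0 ≥ 3`: row `0` is zero.
(3) `l = b :: c :: l'`, `b, c ≥ 2`: if `b ≥ 3` or `c ≥ 4` a row is zero (row `1` has the indices `c - 1 + j`).
In general row `0` is `(h_b, h_{b+1}, …) = (u, 0, 0, …)` with `Z ∣ u`, and row `1` is
`(h_{c-1}, h_c, h_{c+1}, …) = (*, u', 0, …)` with `Z ∣ u'`.  Expand along row `0` and then along row `0` of the
minor (`Matrix.det_succ_row_zero`): `det = u * u' * (minor)`; or: `det` is linear in row `0`,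
`row 0 = Z • (u/Z, 0, …)`, and then subtract a multiple of row `0'` from row `1`. -/
def Stmt_EVZ : Prop :=
  (∀ f : Lam, EP (plX (fun i => 1 - t ^ (i + 1)) f) = ET f) ∧
  (∀ (b : ℕ) (l' : List ℕ), 3 ≤ b → EP (sch (b :: l')) = 0) ∧
  (∀ (b c : ℕ) (l' : List ℕ), 2 ≤ b → 2 ≤ c →
    (Polynomial.X : Polynomial K) ^ 2 ∣ EP (sch (b :: c :: l')))

/-- `c_n(s)`: the evaluation of `w_n` at `p_{i+1} ↦ (-1)^i (1 - s^{i+1})` -/
noncomputable def cN (s : K) (n : ℕ) : K := ev (fun i => (-1) ^ i * (1 - s ^ (i + 1))) (wN n)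

/-- (module N3_EVN) evaluations of `w_n` (uses `Stmt_WNR`, `Stmt_HM`, `Stmt_HA`, `Stmt_HS`).

Proof.  (1), (2) the proof of `Stmt_EVW` (`Pool/Agent/NEK/EVW.lean`, theorems `dval`, `second`) with `t` replaced
by any `s ∈ K`.  (3): `ET (w_n) = hN` of `k ↦ P' k + Z^{k+1} P' k`,
`P' k = (-1)^k (1-t^{k+1})/(1-q^{k+1})` (as a constant polynomial), so by `Stmt_HA`, `Stmt_HS`
`ET (w_n) = ∑_{i+j=n} c_i c_j Z^j` where `c_i = hN P' i = c_i(t)` (`Stmt_HM`).  Coefficient of `Z^0`: `c_n`;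
coefficient of `Z^1`: `c_{n-1} c_1`.  (4): evaluation of `ET` at `Z = t` is
`p_{i+1} ↦ (-1)^i (1-t^{i+1}) (1+t^{i+1}) = (-1)^i (1 - (t²)^{i+1})` (`algHom_ext`).  (5): `c_n(t), c_n(t²) ≠ 0`:
by (2), as `q^k ≠ t, t²`.  (6): `X 0 = p_1`. -/
def Stmt_EVN : Prop :=
  (∀ s : K, cN s 0 = 1) ∧
  (∀ (s : K) (n : ℕ), 1 ≤ n → (1 - q ^ n) * cN s n = (q ^ (n - 1) - s) * cN s (n - 1)) ∧
  (∀ n : ℕ, (ET (wN n)).coeff 0 = cN t n ∧
    (1 ≤ n → (ET (wN n)).coeff 1 = cN t (n - 1) * cN t 1)) ∧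
  (∀ n : ℕ, (ET (wN n)).eval t = cN (t ^ 2) n) ∧
  (∀ n : ℕ, cN t n ≠ 0 ∧ cN (t ^ 2) n ≠ 0) ∧
  ET (X 0) = Polynomial.C (1 - t) * (1 + Polynomial.X)

/-! ## Block M: the Macdonald polynomials -/

/-- (module N3_TRI) the consequences of the axioms for `(n-2,2)` and `(n-2,1,1)`, before solving (uses
`Stmt_HM`, `Stmt_HR`, `Stmt_EVS`, `Stmt_EVW` (first part), `Stmt_EVZ`; the templates are in
`Pool/Agent/NEK/MAC.lean`: `plX_inv`, `plX_hX`, `sch_one`, `sch_two`, `ev_span`, `hev1`).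

Proof.  Partitions: `IsPart n l`, `Dom l [n-2,2]` imply `l ∈ {[n], [n-1,1], [n-2,2]}` (`n ≥ 4`);
`Dom l [n-2,1,1]` implies `l ∈ {[n], [n-1,1], [n-2,2], [n-2,1,1]}`, with `[n-2,2]` only for `n ≥ 4`.
`s_(n-2,2) = h_{n-2} h_2 - h_{n-1} h_1`, `s_(n-2,1,1) = h_{n-2} (h_1² - h_2) - h_{n-1} h_1 + h_n` (3×3 determinant,
`Matrix.det_fin_three`), `plX (1/(1-q^{i+1}))` maps `h_m` to `w_m`, so `H_μ` is a combination of
`w_n, w_{n-1} w_1, w_{n-2} w_2` (and `w_{n-2} w_1²`).  `W_m = C (qf m) w_m`, `qf m ≠ 0`, `X 0 = C (1-q) w_1`, so these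
span the same space as `W_n, p_1 W_{n-1}, W_2 W_{n-2}` (and `p_1² W_{n-2}`).  Sum of the coefficients: evaluation at
`p = 1` (`Stmt_EVS`, `Stmt_EVW`: `W_m ↦ 1`, `X 0 ↦ 1`, and `ev 1 (H_μ) = 1` from `norm`).
Evaluations: `trit` and `Stmt_EVZ`: `ET (H_μ) = EP (plX (1-t^{i+1}) (H_μ))` is in the span of the `EP (sch l)`,
`Dom l (conj μ)`.  `conj [n-2,2] = 2 :: 2 :: …` (`n ≥ 4`): `l_0 ≥ 2` and `l_0 + l_1 ≥ 4`, so `l_0 ≥ 3` or
(`l_0 = 2` and `l_1 ≥ 2`): `Z² ∣ ET (H_μ)`.  `conj [n-2,1,1] = 3 :: …` (`n ≥ 3`): `l_0 ≥ 3`, so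
`ET (H_μ) = 0`. -/
def Stmt_TRI : Prop :=
  ∀ n : ℕ, 3 ≤ n → ∀ H : List ℕ → Lam, IsMac n H →
    (4 ≤ n → (Polynomial.X : Polynomial K) ^ 2 ∣ ET (H [n - 2, 2]) ∧
      ∃ α β γ : K, α + β + γ = 1 ∧
        H [n - 2, 2] = α • WN n + β • (X 0 * WN (n - 1)) + γ • (WN 2 * WN (n - 2))) ∧
    (ET (H [n - 2, 1, 1]) = 0 ∧
      ∃ α β γ δ : K, α + β + γ + δ = 1 ∧
        H [n - 2, 1, 1] = α • WN n + β • (X 0 * WN (n - 1)) + γ • (WN 2 * WN (n - 2)) +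
          δ • (X 0 * X 0 * WN (n - 2)))

/-- (module N3_M22) solving for `(n-2,2)`: `Stmt_TRI → Stmt_EVN → Stmt_M22`.

Proof.  `c = cN t (n-2) ≠ 0`, `a = q^{n-2}`, `c_1 = (1-t)/(1-q)`, `(1-q²) c_2 = (q-t) c_1`,
`(1-aq) c_{n-1} = (a-t) c`, `(1-aq²) c_n = (aq-t) c_{n-1}`, `(a-tq) c_{n-3} = q (1-a) c`
(from `(1-a) c = (q^{n-3}-t) c_{n-3}`).  With `qf n = qf (n-2) (1-aq)(1-aq²)` etc. and `d = qf (n-2) c`:
coefficient `f0` of `Z^0` of `ET`: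
`f0(W_n) = d (a-t)(aq-t)`, `f0(p_1 W_{n-1}) = d (1-t)(a-t)`, `f0(W_2 W_{n-2}) = d (1-t)(q-t)`;
coefficient `f1` of `Z^1`:
`f1(W_n) = d (1-t)(a-t)(1-aq²)/(1-q)`,
`f1(p_1 W_{n-1}) = d (1-t) [ (1-aq)(1-t)/(1-q) + (a-t) ]`,
`f1(W_2 W_{n-2}) = d (1-t) [ q (1-a)(1-t)(q-t)/((1-q)(a-tq)) + (1+q)(1-t) ]`.
Put `x1 = α(a+aq) + β(1+a) + γ(1+q)`, `x2 = α a·aq + β a + γ q`.  `f0 = 0` says `x2 - t x1 + t² = 0`.
`f1 = 0`, together with it and `α+β+γ = 1`, says `(a-t²)/(a-tq) · (x1 - t - tq) = 0`.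
(In detail, `f1/(d(1-t)) = λ0 + λ1 e1 + λ2 e2` at the three pairs `(a,aq), (1,a), (1,q)`, where
`-(1-q)(a-tq) λ0 = t(a + aqt - aq² - qt)`, `-(1-q)(a-tq) λ1 = aq - a - aqt + qt + q²t² - qt²`,
`-(1-q)(a-tq) λ2 = aq + t - q - q²t`, and `λ1 + t λ2 = (a-t²)/(a-tq)`, `λ0 - t² λ2 = -(t+tq)(a-t²)/(a-tq)`.) -/
def Stmt_M22 : Prop :=
  ∀ n : ℕ, 4 ≤ n → ∀ H : List ℕ → Lam, IsMac n H →
    ∃ α β γ : K,
      H [n - 2, 2] = α • WN n + β • (X 0 * WN (n - 1)) + γ • (WN 2 * WN (n - 2)) ∧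
      α + β + γ = 1 ∧
      α * (q ^ (n - 2) + q ^ (n - 2) * q) + β * (1 + q ^ (n - 2)) + γ * (1 + q) = t + t * q ∧
      α * (q ^ (n - 2) * (q ^ (n - 2) * q)) + β * q ^ (n - 2) + γ * q = t * (t * q)

/-- (module N3_M211) solving for `(n-2,1,1)`: `Stmt_TRI → Stmt_EVN → Stmt_M211`.

Proof.  Same names as in `Stmt_M22`, and `f0(p_1² W_{n-2}) = d (1-t)²`,
`f1(p_1² W_{n-2}) = d (1-t)² [ q(1-a)(1-t)/((1-q)(a-tq)) + 2 ]`.  Put
`x1 = α(a+aq) + β(1+a) + γ(1+q) + 2δ`, `x2 = α a·aq + β a + γ q + δ`.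
`f0 = 0`: `x2 - t x1 + t² = 0`.  Evaluation of `ET` at `Z = t`: with `d' = qf (n-2) cN (t²) (n-2) ≠ 0`:
`W_n ↦ d'(a-t²)(aq-t²)`, `p_1 W_{n-1} ↦ d'(1-t²)(a-t²)`, `W_2 W_{n-2} ↦ d'(1-t²)(q-t²)`,
`p_1² W_{n-2} ↦ d'(1-t²)²`; so `x2 - t² x1 + t⁴ = 0`.  Subtract: `(t² - t) x1 = t⁴ - t²`, so `x1 = t + t²` and
`x2 = t³`.  For `n ≥ 4`: `f1 = 0` says `λ0 + λ1 x1 + λ2 x2 + λ3 x3 = 0` with `x3 = δ(1-q)(a-1)`,
`λ3 = -t/(a-tq)` and `λ0 + λ1 (t+t²) + λ2 t³ = -t(a-t²)(q-t)/(a-tq)`, so `x3 = (t-q)(a-t²)`.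
(`f1(p_1² W_{n-2})/(d(1-t)) = λ0 + 2 λ1 + λ2 + (1-q)(a-1) λ3`.) -/
def Stmt_M211 : Prop :=
  ∀ n : ℕ, 3 ≤ n → ∀ H : List ℕ → Lam, IsMac n H →
    ∃ α β γ δ : K,
      H [n - 2, 1, 1] = α • WN n + β • (X 0 * WN (n - 1)) + γ • (WN 2 * WN (n - 2)) +
        δ • (X 0 * X 0 * WN (n - 2)) ∧
      α + β + γ + δ = 1 ∧
      α * (q ^ (n - 2) + q ^ (n - 2) * q) + β * (1 + q ^ (n - 2)) + γ * (1 + q) + 2 * δ =
        t + t ^ 2 ∧
      α * (q ^ (n - 2) * (q ^ (n - 2) * q)) + β * q ^ (n - 2) + γ * q + δ = t * t ^ 2 ∧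
      (4 ≤ n → δ * ((1 - q) * (q ^ (n - 2) - 1)) = (t - q) * (q ^ (n - 2) - t ^ 2))

/-! ## Block X: `E_{n,n-2}`, eigenvalues, assembly -/

/-- (module N3_EX2) the function `E_{n,n-2}` (uses `Stmt_ER`, `Stmt_HR`, `Stmt_HU`, `Stmt_HM`, `Stmt_WNR`;
template `Pool/Agent/NEK/EXT.lean`, which has everything except the coefficient of `Z^{n-2}`; also
`Stmt_EXT`).

Proof.  In `EXT.lean`: `EZ n = ∑_k C(qf k)⁻¹ E_k PZ k` in `Polynomial Lam` (`EZ_eq_FZ`), `coeff_gt`,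
`coeff_top : (EZ n).coeff n = (-1)^n w_n`, `coeff_sub : (EZ (n+1)).coeff n = (-1)^n PP 0 w_n`, and for
`PZ k = ∏_{i<k} (1 - q^i Z)` the coefficients at `Z^k`, `Z^{k-1}`.  New:
`(EZ (n+2)).coeff n = (-1)^n e_2 w_n` with `e_2 = eN PP 2` (`2 e_2 = PP 0² - PP 1`): for
`γ_n = (-1)^n (EZ (n+2)).coeff n` the recursion (`rec_coeff` with `n+1`, `m = n`) is
`(n+2) γ_n = ∑_{k ≤ n+1} (-1)^k … `, i.e. with `α_j = w_j`, `β_j = PP 0 w_j`: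
`(n+2) γ_n = PP 0 · β_n - PP 1 · α_n + ∑_{k} PP k γ_{n-1-k}` and the recursion `n w_n = ∑_{k<n} PP k w_{n-1-k}`
shows that `γ_n = e_2 w_n` is the solution (strong induction; `(n+2) e_2 w_n = 2 e_2 w_n + e_2 n w_n`).
A shorter way: `EZ n = ∑_{i+j=n} e_i(PP) (-1)^j w_j Z^j` by the addition theorem for `eN` (prove by
`Stmt_EU`-uniqueness), which gives all coefficients at once.
And `(PZ (k+2)).coeff k = (-1)^k q^{C(k,2)} gbin` with `(1-q)(1-q²) gbin = (1-q^{k+2})(1-q^{k+1})` (induction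
with `PZ_succ`).  Coefficient of `Z^{n-2}` (`m = n-2`):
`e_2 w_m = q^{C(m,2)} ( E_m/qf m + [m+1]_q E_{m+1}/qf (m+1) + gbin E_{m+2}/qf (m+2) )`.
`e_2 = w_1² - w_2` (`w_1 = PP 0`, `2 w_2 = PP 0² + PP 1`), so
`qf m · e_2 w_m = p_1² W_m/(1-q)² - W_2 W_m/((1-q)(1-q²))`.  `E_n = q^{-C(n,2)} W_n`,
`(1-q) q^{C(n,2)} E_{n-1} = q^{n-1} p_1 W_{n-1} - W_n` (`Stmt_EXT`).  `C(n,2) = C(n-2,2) + 2n - 3`,
`q^{2n-3} = a² q`.  Multiply by `(1-q)²(1+q) q^{C(n,2) - C(n-2,2)}`. -/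
def Stmt_EX2 : Prop :=
  ∀ n : ℕ, 3 ≤ n → ∀ E : ℕ → Lam, IsE n E →
    ((1 - q) ^ 2 * (1 + q) * q ^ n.choose 2) • E (n - 2) =
      q • ((q ^ (n - 2) * q ^ (n - 2) * (1 + q)) • (X 0 * X 0 * WN (n - 2)) -
        (q ^ (n - 2) * q ^ (n - 2)) • (WN 2 * WN (n - 2)) -
        (q ^ (n - 2) * (1 + q)) • (X 0 * WN (n - 1)) + WN n)

/-- (module N3_EIG) `T_μ` and `B_μ` for the four shapes: computations with `nn`, `conj`, `Bp`
(see `FINaux` in `Pool/Agent/NEK/FIN.lean`; `conj [n-2,2] = 2 :: 2 :: 1^{n-4}`,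
`conj [n-2,1,1] = 3 :: 1^{n-3}`). -/
def Stmt_EIG : Prop :=
  (∀ n : ℕ, 3 ≤ n → Tm [n] = q ^ n.choose 2 ∧
    Tm [n - 1, 1] * (q ^ (n - 2) * q) = t * q ^ n.choose 2 ∧
    Tm [n - 2, 1, 1] * (q ^ (n - 2) * (q ^ (n - 2) * q)) = t ^ 3 * q ^ n.choose 2) ∧
  (∀ n : ℕ, 4 ≤ n → Tm [n - 2, 2] * (q ^ (n - 2) * q ^ (n - 2)) = t ^ 2 * q ^ n.choose 2) ∧
  (∀ (n k : ℕ), 3 ≤ n →
    Bp [n] k = (∑ j ∈ range (n - 2), (q ^ j) ^ (k + 1)) +
      ((q ^ (n - 2)) ^ (k + 1) + (q ^ (n - 2) * q) ^ (k + 1)) ∧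
    Bp [n - 1, 1] k = (∑ j ∈ range (n - 2), (q ^ j) ^ (k + 1)) +
      ((q ^ (n - 2)) ^ (k + 1) + t ^ (k + 1)) ∧
    Bp [n - 2, 2] k = (∑ j ∈ range (n - 2), (q ^ j) ^ (k + 1)) +
      (t ^ (k + 1) + (t * q) ^ (k + 1)) ∧
    Bp [n - 2, 1, 1] k = (∑ j ∈ range (n - 2), (q ^ j) ^ (k + 1)) +
      (t ^ (k + 1) + (t ^ 2) ^ (k + 1)))

/-- (module N3_FN3) assembly.

Proof.  `C0,…,C3` from `Stmt_WRD`, `Z = q⁻¹ • C3`, `D = C2 + Z`.  `H1 = H_(n) = W_n`,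
`H2 = H_(n-1,1) = (1-aq)⁻¹ ((1-t) W_n + (t-aq) p_1 W_{n-1})` (`Stmt_MAC`), `H3 = H_(n-2,2)` (`n ≥ 4`, `Stmt_M22`),
`H4 = H_(n-2,1,1)` (`Stmt_M211`): so `H_i = C0 + e1 C1 + e2 D` for `i = 1, 2, 3` and
`H4 = C0 + (t+t²) C1 + t³ D + (t-q)(a-t²) Z` (`Z = 0` if `n = 3`).
For `n = 3` put `H3 = C0 + (t+tq) C1 + t²q D` (not a Macdonald polynomial); `k3 3 = 0`.
`Stmt_EX2` gives `(1-q)²(1+q) c E_{n-2} = q ((1-a)(1-aq) C0 - a²(1+q)(1-q)(1-a) Z)`, `c = q^{C(n,2)}`.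
With `T1 = c`, `T2 = tc/(aq)`, `T3 = t²c/a²`, `T4 = t³c/(a²q)` (`Stmt_EIG`):
`E_{n-2} = ∑ (k_i/T_i) H_i`, because `∑ k_i/T_i = q(1-a)(1-aq)/((1-q)²(1+q) c)`, `∑ (k_i/T_i) e1_i = 0`,
`∑ (k_i/T_i) e2_i = 0` and `(k4/T4)(t-q)(a-t²) = -q a² (1-a)/((1-q) c)` (checked).  Hence
`nabla E_{n-2} = ∑ k_i H_i` and, with `F x y = sN (…) lam` from `Stmt_CGP` (`m = n-2`) and the eigenvalues
`F(x_i, y_i)` (`Stmt_EIG`, `Stmt_HM`): `delta (nabla E_{n-2}) = ∑ k_i F_i H_i`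
`= Ψ(F) C0 + Ψ(e1 F) C1 + Ψ(e2 F) C2 + (Ψ(e2 F) - t³ b F(t,t²)) q⁻¹ C3`, where
`k4 (t-q)(a-t²) = -t³ (1-a)/(1-q) = -t³ b`, `b = br (n-2)`.  `e1 F, e2 F ∈ Cn` by `Stmt_CMU`, and `Stmt_PSI`
gives that all four coefficients are in `NN`.  `SPos` is stable under `NN` (`FINaux.smul_mem`). -/
def Stmt_FN3 : Prop :=
  Stmt_HM → Stmt_MAC → Stmt_WRD → Stmt_M22 → Stmt_M211 → Stmt_EX2 → Stmt_EIG → Stmt_CMU →
    Stmt_CGP → Stmt_PSI → Stmt_final3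

end Pool.Agent.NE3
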